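import Mathlib
import Pool.Agent.Y18.LC.Loc
import Pool.Agent.Y419.LC.LCP

/-!
# Elements of `ℂ_p` close to `1`
-/

set_option autoImplicit false

namespace Pool.Agent.K7.H76.LC

open Pool.Agent.Y419.LC.LcpP Pool.Agent.W289.SL

variable {p : ℕ} [hpf : Fact p.Prime]

/-- the ring of integers of `ℂ_p` -/
noncomputable def bal (p : ℕ) [Fact p.Prime] : Subring ℂ_[p] where
  carrier := {x | ‖x‖ ≤ 1}
  mul_mem' := by
    intro a b ha hb
    have ha' : ‖a‖ ≤ 1 := ha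
    have hb' : ‖b‖ ≤ 1 := hb
    show ‖a * b‖ ≤ 1
    rw [norm_mul]
    exact mul_le_one₀ ha' (norm_nonneg _) hb'
  one_mem' := by
    show ‖(1 : ℂ_[p])‖ ≤ 1
    rw [norm_one]
  add_mem' := by
    intro a b ha hb
    show ‖a + b‖ ≤ 1
    exact (IsUltrametricDist.norm_add_le_max _ _).trans (max_le ha hb)
  zero_mem' := by
    show ‖(0 : ℂ_[p])‖ ≤ 1
    rw [norm_zero]
    exact zero_le_one
  neg_mem' := by
    intro a ha
    show ‖-a‖ ≤ 1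
    rw [norm_neg]
    exact ha

lemma pinv_pos : (0 : ℝ) < (p : ℝ)⁻¹ := by
  have := hpf.out.pos
  positivity

lemma pinv_lt : (p : ℝ)⁻¹ < 1 :=
  inv_lt_one_of_one_lt₀ (by exact_mod_cast hpf.out.one_lt)

/-- `p`-th powers of elements close to `1` -/
lemma pow_norm (hp2 : p ≠ 2) {x : ℂ_[p]} (hx : ‖x - 1‖ ≤ (p : ℝ)⁻¹) :
    ‖x ^ p - 1‖ = (p : ℝ)⁻¹ * ‖x - 1‖ := by
  have hp0 : ((p : ℕ) : ℂ_[p]) ≠ 0 := by exact_mod_cast hpf.out.ne_zero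
  have hy : ‖(x - 1) / (p : ℂ_[p])‖ ≤ 1 := by
    rw [norm_div, norm_p]
    rw [div_le_one₀ pinv_pos]
    exact hx
  obtain ⟨z, hz⟩ := Pool.Agent.Y18.LC.pow_loc (R := bal p) hpf.out hp2 ⟨(x - 1) / (p : ℂ_[p]), hy⟩
  have h1 := congrArg (fun t : bal p => (t : ℂ_[p])) hz
  simp only [Subring.coe_pow, Subring.coe_add, Subring.coe_mul, Subring.coe_one,
    Subring.coe_natCast] at h1
  have h2 : (1 : ℂ_[p]) + (p : ℂ_[p]) * ((x - 1) / (p : ℂ_[p])) = x := by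
    field_simp
    ring
  rw [h2] at h1
  have h3 : x ^ p - 1 = (p : ℂ_[p]) * (x - 1) * (1 + (p : ℂ_[p]) * z) := by
    rw [h1]
    field_simp
    ring
  have h4 : ‖1 + (p : ℂ_[p]) * (z : ℂ_[p])‖ = 1 := by
    have h5 : ‖(p : ℂ_[p]) * (z : ℂ_[p])‖ < 1 := by
      rw [norm_mul, norm_p]
      have h6 : ‖(z : ℂ_[p])‖ ≤ 1 := z.2
      calc (p : ℝ)⁻¹ * ‖(z : ℂ_[p])‖ ≤ (p : ℝ)⁻¹ * 1 := by
            exact mul_le_mul_of_nonneg_left h6 pinv_pos.le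
        _ < 1 := by rw [mul_one]; exact pinv_lt
    have h7 : ‖(p : ℂ_[p]) * (z : ℂ_[p])‖ < ‖(1 : ℂ_[p])‖ := by rwa [norm_one]
    rw [IsUltrametricDist.norm_add_eq_max_of_norm_ne_norm h7.ne', max_eq_left h7.le, norm_one]
  rw [h3, norm_mul, norm_mul, norm_p, h4, mul_one]

/-- `x ^ p` close to `1` implies `x` close to `1` -/
lemma lt_of_pow {x : ℂ_[p]} (hx : ‖x‖ ≤ 1) (h : ‖x ^ p - 1‖ < 1) : ‖x - 1‖ < 1 := by
  have hx1 : ‖x - 1‖ ≤ 1 := (bal p).sub_mem hx (bal p).one_mem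
  obtain ⟨r, hr⟩ := exists_add_pow_prime_eq hpf.out (⟨x - 1, hx1⟩ : bal p) 1
  have h1 := congrArg (fun t : bal p => (t : ℂ_[p])) hr
  simp only [Subring.coe_pow, Subring.coe_add, Subring.coe_mul, Subring.coe_one,
    Subring.coe_natCast] at h1
  rw [sub_add_cancel, one_pow, mul_one] at h1
  have h2 : (x - 1) ^ p = (x ^ p - 1) - p * (x - 1) * r := by
    rw [h1]
    ring
  have h3 : ‖(p : ℂ_[p]) * (x - 1) * r‖ < 1 := by
    rw [norm_mul, norm_mul, norm_p]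
    have h6 : ‖(r : ℂ_[p])‖ ≤ 1 := r.2
    calc (p : ℝ)⁻¹ * ‖x - 1‖ * ‖(r : ℂ_[p])‖ ≤ (p : ℝ)⁻¹ * 1 * 1 := by
          gcongr
      _ < 1 := by rw [mul_one, mul_one]; exact pinv_lt
  have h4 : ‖x - 1‖ ^ p < 1 := by
    rw [← norm_pow, h2, sub_eq_add_neg]
    refine lt_of_le_of_lt (IsUltrametricDist.norm_add_le_max _ _) (max_lt h ?_)
    rw [norm_neg]
    exact h3
  by_contra hcon
  push Not at hcon
  exact absurd h4 (not_lt.2 (one_le_pow₀ hcon))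

end Pool.Agent.K7.H76.LC
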