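import Mathlib
import Pool.Agent.Y18.LC.Good
import Pool.Agent.K7.H76.LC.Nrm
import Pool.Agent.K7.H76.SL.Defs
import Pool.Agent.K7.H76.SL.Main

/-!
# The groups of relative units close to `1` at a set of places
-/

set_option autoImplicit false

namespace Pool.Agent.K7.H76.LC

open Finset NumberField IsDedekindDomain Module Pool.Agent.Y18.LC
open Pool.Agent.Y419.LC.LcpP Pool.Agent.W289.SL Pool.Agent.K7.H76.SL

variable {p : ℕ} [hpf : Fact p.Prime]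

/-- `x` is congruent to `1` modulo `p ^ i` at the places of `S` -/
def Cs {E : Type} [Field E] (S : Set (E →+* ℂ_[p])) (i : ℕ) (x : E) : Prop :=
  ∀ σ ∈ S, ‖σ x - 1‖ ≤ ((p : ℝ)⁻¹) ^ i

/-- the places of `S` are unramified over `p` -/
def Ur {E : Type} [Field E] (S : Set (E →+* ℂ_[p])) : Prop :=
  ∀ σ ∈ S, ∀ x : E, ‖σ x‖ < 1 → ‖σ x‖ ≤ (p : ℝ)⁻¹

section basic

variable {E : Type} [Field E] {S : Set (E →+* ℂ_[p])}

lemma Cs.mono {i j : ℕ} (h : i ≤ j) {x : E} (hx : Cs S j x) : Cs S i x := fun σ hσ =>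
  (hx σ hσ).trans (pow_le_pow_of_le_one pinv_pos.le pinv_lt.le h)

lemma pinv_pow_le (i : ℕ) : ((p : ℝ)⁻¹) ^ i ≤ 1 := pow_le_one₀ pinv_pos.le pinv_lt.le

lemma norm_le_of_sub {x : ℂ_[p]} (h : ‖x - 1‖ ≤ 1) : ‖x‖ ≤ 1 := by
  have h1 : x = (x - 1) + 1 := by ring
  rw [h1]
  refine (IsUltrametricDist.norm_add_le_max _ _).trans (max_le h ?_)
  rw [norm_one]

lemma sub_mul_le {x y : ℂ_[p]} {c : ℝ} (hc : c ≤ 1) (hx : ‖x - 1‖ ≤ c) (hy : ‖y - 1‖ ≤ c) :
    ‖x * y - 1‖ ≤ c := by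
  have h1 : x * y - 1 = x * (y - 1) + (x - 1) := by ring
  rw [h1]
  refine (IsUltrametricDist.norm_add_le_max _ _).trans (max_le ?_ hx)
  rw [norm_mul]
  have h2 := norm_le_of_sub (hx.trans hc)
  calc ‖x‖ * ‖y - 1‖ ≤ 1 * c := mul_le_mul h2 hy (norm_nonneg _) zero_le_one
    _ = c := one_mul c

lemma sub_prod_le {ι : Type*} {c : ℝ} (hc0 : 0 ≤ c) (hc : c ≤ 1) (t : Finset ι) (f : ι → ℂ_[p])
    (hf : ∀ i ∈ t, ‖f i - 1‖ ≤ c) : ‖∏ i ∈ t, f i - 1‖ ≤ c := by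
  classical
  induction t using Finset.induction_on with
  | empty => simpa using hc0
  | insert a t ha ih =>
    rw [prod_insert ha]
    exact sub_mul_le hc (hf a (mem_insert_self _ _))
      (ih fun i hi => hf i (mem_insert_of_mem hi))

lemma Cs.mul {i : ℕ} {x y : E} (hx : Cs S i x) (hy : Cs S i y) : Cs S i (x * y) := fun σ hσ => by
  rw [map_mul]
  exact sub_mul_le (pinv_pow_le i) (hx σ hσ) (hy σ hσ)

lemma Cs.one (i : ℕ) : Cs S i (1 : E) := fun σ _ => by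
  rw [map_one, sub_self, norm_zero]
  exact pow_nonneg pinv_pos.le _

lemma Cs.pow {i : ℕ} {x : E} (hx : Cs S i x) (n : ℕ) : Cs S i (x ^ n) := by
  induction n with
  | zero => rw [pow_zero]; exact Cs.one i
  | succ n ih => rw [pow_succ]; exact ih.mul hx

lemma Cs.inv {i : ℕ} {x : E} (hx : Cs S i x) (hn : ∀ σ ∈ S, ‖σ x‖ = 1) : Cs S i x⁻¹ :=
  fun σ hσ => by
    have h0 : σ x ≠ 0 := by
      intro h
      have := hn σ hσ
      rw [h, norm_zero] at this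
      exact zero_ne_one this
    have h1 : σ x⁻¹ - 1 = (σ x)⁻¹ * (1 - σ x) := by
      rw [map_inv₀]
      field_simp
    rw [h1, norm_mul, norm_inv, hn σ hσ, inv_one, one_mul, norm_sub_rev]
    exact hx σ hσ

end basic

section units

variable {F : Type} [Field F] [NumberField F]

lemma norm_EU (σ : F →+* ℂ_[p]) {u : Fˣ} (hu : u ∈ EU F) : ‖σ (u : F)‖ = 1 := by
  obtain ⟨e, he⟩ := mem_EU.1 hu
  rw [← he]
  exact norm_emb_unit σ e

variable {S : Set (F →+* ℂ_[p])}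

/-- the relative units congruent to `1` modulo `p ^ i` at `S` -/
noncomputable def RS (F₀ : IntermediateField ℚ F) (S : Set (F →+* ℂ_[p])) (i : ℕ) :
    Subgroup Fˣ where
  carrier := {u | u ∈ EU F ∧ Nm F₀ u = 1 ∧ Cs S i (u : F)}
  mul_mem' := by
    rintro a b ⟨ha, ha1, hya⟩ ⟨hb, hb1, hyb⟩
    refine ⟨mul_mem ha hb, by rw [map_mul, ha1, hb1, one_mul], ?_⟩
    rw [Units.val_mul]
    exact hya.mul hyb
  one_mem' := ⟨one_mem _, map_one _, by rw [Units.val_one]; exact Cs.one i⟩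
  inv_mem' := by
    rintro a ⟨ha, ha1, hya⟩
    refine ⟨inv_mem ha, by rw [map_inv, ha1, inv_one], ?_⟩
    rw [Units.val_inv_eq_inv_val]
    exact hya.inv fun σ _ => norm_EU σ ha

lemma mem_RS {F₀ : IntermediateField ℚ F} {i : ℕ} {u : Fˣ} :
    u ∈ RS F₀ S i ↔ u ∈ EU F ∧ Nm F₀ u = 1 ∧ Cs S i (u : F) := Iff.rfl

/-- the `p ^ j`-th powers of the relative units congruent to `1` modulo `p` -/
noncomputable def WS (F₀ : IntermediateField ℚ F) (S : Set (F →+* ℂ_[p])) (j : ℕ) :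
    Subgroup Fˣ := (RS F₀ S 1).map (powMonoidHom (p ^ j))

lemma mem_WS {F₀ : IntermediateField ℚ F} {j : ℕ} {u : Fˣ} :
    u ∈ WS F₀ S j ↔ ∃ w ∈ RS F₀ S 1, w ^ p ^ j = u := Iff.rfl

lemma RS_mono {F₀ : IntermediateField ℚ F} {i j : ℕ} (h : i ≤ j) : RS F₀ S j ≤ RS F₀ S i :=
  fun _ hu => ⟨hu.1, hu.2.1, hu.2.2.mono h⟩

/-- `p ^ j`-th powers of units congruent to `1` modulo `p` -/
lemma Cs_pow_p (hp2 : p ≠ 2) {E : Type} [Field E] {S : Set (E →+* ℂ_[p])} {x : E}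
    (h : Cs S 1 x) (j : ℕ) : Cs S (j + 1) (x ^ p ^ j) := by
  induction j with
  | zero => simpa using h
  | succ j ih =>
    intro σ hσ
    have h1 := ih σ hσ
    rw [map_pow] at h1 ⊢
    rw [pow_succ, pow_mul, pow_norm hp2 (h1.trans (by
      rw [pow_succ]
      exact mul_le_of_le_one_left pinv_pos.le (pinv_pow_le j))), pow_succ' _ (j + 1)]
    exact mul_le_mul_of_nonneg_left h1 pinv_pos.le

/-- `p`-th roots of elements close to `1` -/
lemma Cs_root (hp2 : p ≠ 2) {E : Type} [Field E] {S : Set (E →+* ℂ_[p])} {x : E} {i : ℕ}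
    (h1 : Cs S 1 x) (h : Cs S (i + 1) (x ^ p)) : Cs S i x := by
  intro σ hσ
  have h2 := h1 σ hσ
  have h3 := h σ hσ
  rw [pow_one] at h2
  rw [map_pow, pow_norm hp2 h2, pow_succ'] at h3
  exact le_of_mul_le_mul_left h3 pinv_pos

lemma WS_le (hp2 : p ≠ 2) {F₀ : IntermediateField ℚ F} (j : ℕ) :
    WS F₀ S j ≤ RS F₀ S (j + 1) := by
  rintro _ ⟨w, hw, rfl⟩
  exact ⟨pow_mem hw.1 _, by rw [powMonoidHom_apply, map_pow, hw.2.1, one_pow], by
    rw [powMonoidHom_apply, Units.val_pow_eq_pow_val]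
    exact Cs_pow_p hp2 hw.2.2 j⟩

/-- roots of units congruent to `1` -/
lemma Cs_of_pow (hun : Ur S) (j : ℕ) {u : Fˣ} (hu : u ∈ EU F)
    (h : Cs S 1 ((u : F) ^ p ^ j)) : Cs S 1 (u : F) := by
  induction j with
  | zero => simpa using h
  | succ j ih =>
    apply ih
    intro σ hσ
    have h1 := h σ hσ
    rw [pow_one] at h1 ⊢
    rw [pow_succ, pow_mul, map_pow] at h1
    have h2 : ‖σ ((u : F) ^ p ^ j)‖ ≤ 1 := by
      rw [map_pow, norm_pow, norm_EU σ hu, one_pow]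
    have h3 := lt_of_pow h2 (h1.trans_lt pinv_lt)
    have h4 : σ ((u : F) ^ p ^ j) - 1 = σ ((u : F) ^ p ^ j - 1) := by rw [map_sub, map_one]
    rw [h4] at h3 ⊢
    exact hun σ hσ _ h3

/-- torsion in the units -/
lemma eq_one_of_pow' (hp2 : p ≠ 2) (hne : S.Nonempty) (hun : Ur S) (j : ℕ) {u : Fˣ}
    (hu : u ∈ EU F) (h : u ^ p ^ j = 1) : u = 1 := by
  induction j generalizing u with
  | zero => simpa using h
  | succ j ih =>
    have h0 : u ^ p = 1 := by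
      apply ih (pow_mem hu p)
      rw [← pow_mul, ← pow_succ']
      exact h
    obtain ⟨σ, hσ⟩ := hne
    have h1 : σ (u : F) ^ p = 1 := by
      rw [← map_pow, ← Units.val_pow_eq_pow_val, h0, Units.val_one, map_one]
    have h2 := lt_of_pow (norm_EU σ hu).le (by rw [h1, sub_self, norm_zero]; exact one_pos)
    have h4 : σ (u : F) - 1 = σ ((u : F) - 1) := by rw [map_sub, map_one]
    have h3 : ‖σ (u : F) - 1‖ ≤ (p : ℝ)⁻¹ := by
      rw [h4] at h2 ⊢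
      exact hun σ hσ _ h2
    have h5 := pow_norm hp2 h3
    rw [h1, sub_self, norm_zero] at h5
    have h6 : ‖σ (u : F) - 1‖ = 0 := by
      rcases mul_eq_zero.1 h5.symm with h7 | h7
      · exact absurd h7 pinv_pos.ne'
      · exact h7
    rw [norm_eq_zero, h4, map_eq_zero, sub_eq_zero] at h6
    exact Units.ext h6

/-- uniqueness of roots -/
lemma root_unique' (hp2 : p ≠ 2) (hne : S.Nonempty) (hun : Ur S) (j : ℕ) {u w : Fˣ}
    (hu : u ∈ EU F) (hw : w ∈ EU F) (h : u ^ p ^ j = w ^ p ^ j) : u = w := by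
  have h1 : (u / w) ^ p ^ j = 1 := by rw [div_pow, h, div_self']
  exact div_eq_one.1 (eq_one_of_pow' hp2 hne hun j (div_mem hu hw) h1)

/-- roots of relative units -/
lemma root_RS (hp2 : p ≠ 2) (hne : S.Nonempty) (hun : Ur S) {F₀ : IntermediateField ℚ F} (j : ℕ)
    {w : Fˣ} (hw : w ∈ EU F) (h : w ^ p ^ j ∈ RS F₀ S 1) : w ∈ RS F₀ S 1 := by
  refine ⟨hw, ?_, ?_⟩
  · apply eq_one_of_pow' hp2 hne hun j (Nm_EU F₀ hw)
    rw [← map_pow]
    exact h.2.1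
  · apply Cs_of_pow hun j hw
    rw [← Units.val_pow_eq_pow_val]
    exact h.2.2

/-- the norm of an element congruent to `1` -/
lemma Nm_Cs {F₀ : IntermediateField ℚ F}
    (hS : ∀ τ ∈ S, ∀ τ' : F →+* ℂ_[p], (∀ x ∈ F₀, τ' x = τ x) → τ' ∈ S) {i : ℕ} {u : Fˣ}
    (h : Cs S i (u : F)) : Cs S i (Nm F₀ u : F) := by
  intro σ hσ
  letI : Algebra F₀ ℂ_[p] := (σ.comp (algebraMap F₀ F)).toAlgebra
  have h1 := Algebra.norm_eq_prod_embeddings F₀ ℂ_[p] (u : F)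
  have h2 : σ (Nm F₀ u : F) = ∏ τ : F →ₐ[F₀] ℂ_[p], τ (u : F) := by
    rw [coe_Nm, ← h1]
    rfl
  rw [h2]
  refine sub_prod_le (pow_nonneg pinv_pos.le _) (pinv_pow_le i) _ _ fun τ _ => ?_
  refine h τ.toRingHom (hS σ hσ _ fun x hx => ?_)
  exact τ.commutes ⟨x, hx⟩

/-- an exponent prime to `p` which makes all units congruent to `1` modulo `p` -/
lemma exists_exp' (hun : Ur S) : ∃ t : ℕ, p.Coprime t ∧
    ∀ u : (𝓞 F)ˣ, Cs S 1 (((u ^ t : (𝓞 F)ˣ) : 𝓞 F) : F) := by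
  let I : Ideal (𝓞 F) :=
    { carrier := {y | ∀ σ ∈ S, ‖σ (y : F)‖ < 1}
      add_mem' := by
        intro a b ha hb σ hσ
        change ‖σ (a + b : F)‖ < 1
        rw [map_add]
        exact lt_of_le_of_lt (IsUltrametricDist.norm_add_le_max _ _) (max_lt (ha σ hσ) (hb σ hσ))
      zero_mem' := by
        intro σ _
        change ‖σ (0 : F)‖ < 1
        rw [map_zero, norm_zero]
        exact one_pos
      smul_mem' := by
        intro c a ha σ hσ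
        change ‖σ (c * a : F)‖ < 1
        rw [map_mul, norm_mul]
        have h2 := norm_emb_le σ c
        have h3 : ‖σ (a : F)‖ < 1 := ha σ hσ
        calc ‖σ (c : F)‖ * ‖σ (a : F)‖ ≤ 1 * ‖σ (a : F)‖ := by gcongr
          _ < 1 := by rw [one_mul]; exact h3 }
  have hI : ∀ y : 𝓞 F, y ∈ I ↔ ∀ σ ∈ S, ‖σ (y : F)‖ < 1 := fun y => Iff.rfl
  have hI0 : I ≠ ⊥ := by
    intro h0
    have h2 : ((p : ℕ) : 𝓞 F) ∈ I := by
      rw [hI]
      intro σ _
      have h3 : σ (((p : ℕ) : 𝓞 F) : F) = ((p : ℕ) : ℂ_[p]) := by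
        simp only [map_natCast]
      rw [h3, norm_p]
      exact pinv_lt
    rw [h0, Ideal.mem_bot] at h2
    exact hpf.out.ne_zero (by exact_mod_cast h2)
  have : Finite (𝓞 F ⧸ I) := Ideal.finiteQuotientOfFreeOfNeBot I hI0
  refine ⟨Nat.card (𝓞 F ⧸ I)ˣ, ?_, fun u => ?_⟩
  · rw [hpf.out.coprime_iff_not_dvd]
    intro hdvd
    obtain ⟨x, hx⟩ := exists_prime_orderOf_dvd_card' p hdvd
    have h1 : x ^ p = 1 := by rw [← hx]; exact pow_orderOf_eq_one x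
    have h2 : x ≠ 1 := by
      rintro rfl
      rw [orderOf_one] at hx
      exact hpf.out.one_lt.ne hx
    apply h2
    obtain ⟨y, hy⟩ := Ideal.Quotient.mk_surjective (x : 𝓞 F ⧸ I)
    have h3 : (Ideal.Quotient.mk I) (y ^ p) = 1 := by
      rw [map_pow, hy, ← Units.val_pow_eq_pow_val, h1, Units.val_one]
    have h4 : y ^ p - 1 ∈ I := by
      rw [← Ideal.Quotient.eq, h3, map_one]
    have h5 : y - 1 ∈ I := by
      rw [hI] at h4 ⊢
      intro σ hσ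
      have h6 := h4 σ hσ
      have h7 : σ ((y ^ p - 1 : 𝓞 F) : F) = σ (y : F) ^ p - 1 := by
        simp only [map_sub, map_pow, map_one]
      have h8 : σ ((y - 1 : 𝓞 F) : F) = σ (y : F) - 1 := by
        simp only [map_sub, map_one]
      rw [h7] at h6
      rw [h8]
      exact lt_of_pow (norm_emb_le σ y) h6
    ext
    rw [← hy, Units.val_one, ← map_one (Ideal.Quotient.mk I), Ideal.Quotient.eq]
    exact h5
  · have h1 : (Units.map (Ideal.Quotient.mk I).toMonoidHom u) ^ Nat.card (𝓞 F ⧸ I)ˣ = 1 :=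
      pow_card_eq_one'
    have h2 : ((Units.map (Ideal.Quotient.mk I).toMonoidHom u : (𝓞 F ⧸ I)ˣ) : 𝓞 F ⧸ I) ^
        Nat.card (𝓞 F ⧸ I)ˣ = 1 := by
      rw [← Units.val_pow_eq_pow_val, h1, Units.val_one]
    have h3 : ((u ^ Nat.card (𝓞 F ⧸ I)ˣ : (𝓞 F)ˣ) : 𝓞 F) - 1 ∈ I := by
      rw [← Ideal.Quotient.eq, map_one, Units.val_pow_eq_pow_val, map_pow]
      exact h2
    rw [hI] at h3
    intro σ hσ
    have h4 := h3 σ hσ
    have h5 : σ (((((u ^ Nat.card (𝓞 F ⧸ I)ˣ : (𝓞 F)ˣ) : 𝓞 F) - 1 : 𝓞 F)) : F) =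
        σ (((u ^ Nat.card (𝓞 F ⧸ I)ˣ : (𝓞 F)ˣ) : 𝓞 F) : F) - 1 := by
      simp only [map_sub, map_one]
    rw [pow_one, ← h5]
    exact hun σ hσ _ h4

end units

section gal

variable {k F : Type} [Field k] [NumberField k] [Field F] [NumberField F] [Algebra k F]

/-- the set `S` is stable under the Galois group -/
def GSt (k : Type) {F : Type} [Field k] [Field F] [Algebra k F] (S : Set (F →+* ℂ_[p])) : Prop :=
  ∀ g : F ≃ₐ[k] F, ∀ τ ∈ S, τ.comp (g : F →+* F) ∈ S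

lemma GSt_up (S : Set (k →+* ℂ_[p])) : GSt k (upS F S) := by
  intro g τ hτ
  show (τ.comp (g : F →+* F)).comp (algebraMap k F) ∈ S
  have h1 : (τ.comp (g : F →+* F)).comp (algebraMap k F) = τ.comp (algebraMap k F) := by
    ext x
    show τ (g (algebraMap k F x)) = τ (algebraMap k F x)
    rw [g.commutes]
  rw [h1]
  exact hτ

variable {S : Set (F →+* ℂ_[p])}

lemma smul_Cs (hS : GSt k S) (g : F ≃ₐ[k] F) {i : ℕ} {u : Fˣ} (hu : Cs S i (u : F)) :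
    Cs S i ((g • u : Fˣ) : F) := by
  intro σ hσ
  rw [coe_smul']
  exact hu _ (hS g σ hσ)

lemma smul_RS (hN : NRM) (hS : GSt k S) {F₀ : IntermediateField ℚ F} (g : F ≃ₐ[k] F)
    (hg : ∀ x ∈ F₀, g x ∈ F₀) {i : ℕ} {u : Fˣ} (hu : u ∈ RS F₀ S i) : g • u ∈ RS F₀ S i := by
  refine ⟨smul_EU g hu.1, ?_, smul_Cs hS g hu.2.2⟩
  rw [smul_Nm hN g hg, hu.2.1, smul_one]

lemma smul_WS (hN : NRM) (hS : GSt k S) {F₀ : IntermediateField ℚ F} (g : F ≃ₐ[k] F)
    (hg : ∀ x ∈ F₀, g x ∈ F₀) {j : ℕ} {u : Fˣ} (hu : u ∈ WS F₀ S j) : g • u ∈ WS F₀ S j := by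
  obtain ⟨w, hw, rfl⟩ := hu
  refine ⟨g • w, smul_RS hN hS g hg hw, ?_⟩
  rw [powMonoidHom_apply, powMonoidHom_apply, smul_pow']

/-- finiteness of `RS / WS` -/
lemma finite_reps' (hp2 : p ≠ 2) (hne : S.Nonempty) (hun : Ur S) {F₀ : IntermediateField ℚ F}
    (j : ℕ) : ∃ R : Finset Fˣ, ∀ u ∈ RS F₀ S 1, ∃ r ∈ R, u / r ∈ WS F₀ S j := by
  classical
  let S' : Subgroup (𝓞 F)ˣ := (powMonoidHom (p ^ j)).range
  have : Group.FG (𝓞 F)ˣ := Group.fg_iff_monoid_fg.2 inferInstance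
  have hQ : Finite ((𝓞 F)ˣ ⧸ S') := by
    apply CommGroup.finite_of_fg_isMulTorsion
    intro q
    obtain ⟨e, rfl⟩ := QuotientGroup.mk_surjective q
    rw [isOfFinOrder_iff_pow_eq_one]
    refine ⟨p ^ j, pow_pos hpf.out.pos _, ?_⟩
    rw [← QuotientGroup.mk_pow, QuotientGroup.eq_one_iff]
    exact ⟨e, rfl⟩
  have := Fintype.ofFinite ((𝓞 F)ˣ ⧸ S')
  obtain ⟨R, -, -, hR⟩ := rep_lemma (RS F₀ S 1) (Finset.univ : Finset ((𝓞 F)ˣ ⧸ S'))
    (fun u q => ∃ e : (𝓞 F)ˣ, ((e : 𝓞 F) : F) = u ∧ (e : (𝓞 F)ˣ ⧸ S') = q)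
    (fun u hu => by
      obtain ⟨e, he⟩ := mem_EU.1 hu.1
      exact ⟨_, mem_univ _, e, he, rfl⟩)
    (fun u => u ∈ WS F₀ S j)
    (fun u hu u' hu' t => by
      rintro ⟨e, he, rfl⟩ ⟨e', he', h⟩
      rw [QuotientGroup.eq] at h
      obtain ⟨w, hw⟩ := h
      have hw' : w ^ p ^ j = e'⁻¹ * e := hw
      let w' : Fˣ := Units.map (algebraMap (𝓞 F) F).toMonoidHom w
      have h1 : w' ^ p ^ j = u / u' := by
        ext
        rw [div_eq_mul_inv, mul_comm, Units.val_mul, Units.val_inv_eq_inv_val, ← he, ← he',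
          Units.val_pow_eq_pow_val]
        show (algebraMap (𝓞 F) F (w : 𝓞 F)) ^ p ^ j = _
        rw [← map_pow, ← Units.val_pow_eq_pow_val, hw', Units.val_mul, map_mul]
        congr 1
        refine (inv_eq_of_mul_eq_one_right ?_).symm
        show algebraMap (𝓞 F) F (e' : 𝓞 F) * _ = 1
        rw [← map_mul, Units.mul_inv, map_one]
      refine ⟨w', ?_, h1⟩
      apply root_RS hp2 hne hun j ⟨w, rfl⟩
      rw [h1]
      exact div_mem hu hu')
  exact ⟨R, hR⟩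

end gal

end Pool.Agent.K7.H76.LC
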