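import Mathlib
import Pool.Agent.K7.H76.LC.Inv

/-!
# The bound for the bad subgroups
-/

set_option autoImplicit false

namespace Pool.Agent.K7.H76.LC

open Finset NumberField IsDedekindDomain Module Pool.Agent.Y18.LC
open Pool.Agent.Y419.LC.LcpP Pool.Agent.W289.SL Pool.Agent.K7.H76.SL

variable {p : ℕ} [hpf : Fact p.Prime]

variable {k : Type} [Field k] [NumberField k]

/-- some relative unit of the field fixed by `H`, close to `1`, is not a `p`-th power -/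
def BadS {F : Type} [Field F] [NumberField F] [Algebra k F] (F₀ : IntermediateField ℚ F)
    (S : Set (F →+* ℂ_[p])) (n : ℕ) (H : Subgroup (F ≃ₐ[k] F)) : Prop :=
  ∃ z ∈ RS F₀ S (n + 1), (∀ h ∈ H, h • z = z) ∧
    ∀ w ∈ RS F₀ S 1, (∀ h ∈ H, h • w = w) → w ^ p ≠ z

theorem core' (hA : ANN) (hU : UNC) (hN : NRM) (hC : CLS) (hS : NSP2) (k : Type) [Field k]
    [NumberField k] (hp2 : p ≠ 2) (Sk : Set (k →+* ℂ_[p])) (hSk : Sk.Nonempty) (B : ℕ)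
    (hB : ∀ j : ℕ, KBs k Sk B j) :
    ∃ W : ℕ, ∀ m : ℕ, ∃ n : ℕ, ∀ (F : Type) [Field F] [NumberField F] [Algebra k F]
      (F₀ : IntermediateField ℚ F) (K : Type) [Field K] [NumberField K] [Algebra K k],
      (∀ x : K, algebraMap k F (algebraMap K k x) ∈ F₀) →
      IsGalois k F → (∀ g h : F ≃ₐ[k] F, g * h = h * g) →
      (∀ g : F ≃ₐ[k] F, g ^ p = 1) → Nat.card (F ≃ₐ[k] F) = p ^ m →
      (∀ g : F ≃ₐ[k] F, ∀ x ∈ F₀, g x ∈ F₀) → ¬ p ∣ finrank F₀ F → Ur (upS F Sk) → Ram K k F →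
      ∀ 𝓗 : Finset (Subgroup (F ≃ₐ[k] F)), (∀ H ∈ 𝓗, H.index = p ∧ BadS F₀ (upS F Sk) n H) →
        𝓗.card * (p - 1) + p ^ (m - W) ≤ p ^ m := by
  classical
  have hp : p.Prime := hpf.out
  set c : ℕ := Nat.card (ClassGroup (𝓞 k)) * B with hc
  obtain ⟨W, hW⟩ := hA p c
  refine ⟨W, fun m => ?_⟩
  obtain ⟨N, hNN⟩ := hU p hp2 m c W
  refine ⟨N + 1, ?_⟩
  intro F _ _ _ F₀ K _ _ _ hK hG hcomm hexp hcard hF₀ hn hun hram 𝓗 h𝓗
  have hne : (upS F Sk).Nonempty := by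
    obtain ⟨σ, hσ⟩ := hSk
    obtain ⟨τ, hτ⟩ := exists_ext (H := F) σ
    refine ⟨τ, ?_⟩
    show τ.comp (algebraMap k F) ∈ Sk
    rw [hτ]
    exact hσ
  have hGS : GSt k (upS F Sk) := GSt_up Sk
  set n := N + 1 with hnn
  letI : CommGroup (F ≃ₐ[k] F) := { (inferInstance : Group (F ≃ₐ[k] F)) with mul_comm := hcomm }
  letI : Fintype (F ≃ₐ[k] F) := Fintype.ofFinite _
  have hn' : p.Coprime (finrank F₀ F) := (hp.coprime_iff_not_dvd).2 hn
  obtain ⟨R, hR, hR2⟩ := inv_reps' hN hC hS hG hF₀ hp2 hne hun hn' hram hK n (hB n)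
  obtain ⟨R', hR'⟩ := finite_reps' (F₀ := F₀) hp2 hne hun n
  have hPG : IsPGroup p (F ≃ₐ[k] F) := by
    intro g
    exact ⟨1, by rw [pow_one]; exact hexp g⟩
  have hpow : ∀ u ∈ RS F₀ (upS F Sk) (n + 1), u ^ p ^ n ∈ WS F₀ (upS F Sk) n :=
    fun u hu => ⟨u, RS_mono (by omega) hu, rfl⟩
  obtain ⟨x, hx, w, hw, hxw⟩ := hW (F ≃ₐ[k] F) hPG Fˣ (RS F₀ (upS F Sk) (n + 1))
    (WS F₀ (upS F Sk) n) (WS_le hp2 n)
    (fun g u hu => smul_RS hN hGS g (hF₀ g) hu) (fun g u hu => smul_WS hN hGS g (hF₀ g) hu)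
    ⟨n, hpow⟩ ⟨R', fun u hu => hR' u (RS_mono (by omega) hu)⟩ ⟨R, hR, hR2⟩
  refine hNN n (by omega) (F ≃ₐ[k] F) hexp ?_ Fˣ (WS F₀ (upS F Sk) n)
    (fun g u hu => smul_WS hN hGS g (hF₀ g) hu) x w hw hxw 𝓗 ?_
  · rw [← Nat.card_eq_fintype_card]
    exact hcard
  · intro H hH
    obtain ⟨hHi, z, hz, hzH, hzw⟩ := h𝓗 H hH
    refine ⟨hHi, z, hzH, hpow z hz, ?_, ?_, hx z hz⟩
    · rintro ⟨w, hw, hwz⟩
      have hwz' : w ^ p ^ n = z ^ p ^ (n - 1) := hwz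
      have h1 : (w ^ p) ^ p ^ (n - 1) = z ^ p ^ (n - 1) := by
        rw [← pow_mul, ← pow_succ', show n - 1 + 1 = n by omega, hwz']
      have h2 : w ^ p = z := root_unique' hp2 hne hun (n - 1) (pow_mem hw.1 _) hz.1 h1
      refine hzw w hw (fun h hh => ?_) h2
      refine root_unique' hp2 hne hun 1 (smul_EU h hw.1) hw.1 ?_
      rw [pow_one, ← smul_pow', h2, hzH h hh]
    · have hprod : ∏ g : F ≃ₐ[k] F, g • z ∈ RS F₀ (upS F Sk) (n + 1) :=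
        prod_mem fun g _ => smul_RS hN hGS g (hF₀ g) hz
      have hinv : ∀ g : F ≃ₐ[k] F, g • (∏ g' : F ≃ₐ[k] F, g' • z) = ∏ g' : F ≃ₐ[k] F, g' • z := by
        intro g
        rw [Finset.smul_prod']
        refine Fintype.prod_bijective (fun g' => g * g') (Group.mulLeft_bijective g) _ _
          (fun g' => ?_)
        rw [smul_smul]
      refine exp_lemma (WS F₀ (upS F Sk) n) hp _ n (hpow _ hprod) R (fun i => ?_) hR
      apply hR2 _ (pow_mem hprod i)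
      intro g
      rw [smul_pow', hinv, div_self']
      exact one_mem _

end Pool.Agent.K7.H76.LC
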