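import Mathlib
import Pool.Agent.K7.H76.LC.Core

/-!
# The good subgroups
-/

set_option autoImplicit false

namespace Pool.Agent.K7.H76.LC

open Finset NumberField IsDedekindDomain Module Pool.Agent.Y18.LC
open Pool.Agent.Y419.LC.LcpP Pool.Agent.W289.SL Pool.Agent.K7.H76.SL

variable {p : ℕ} [hpf : Fact p.Prime]

/-- the units close to `1` at `S` are `p ^ n`-th powers -/
def TopS {E : Type} [Field E] [NumberField E] (S : Set (E →+* ℂ_[p])) : Prop :=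
  ∀ n : ℕ, ∃ M : ℕ, ∀ u : (𝓞 E)ˣ, Cs S M ((u : 𝓞 E) : E) → ∃ w : (𝓞 E)ˣ, w ^ p ^ n = u

variable {k F : Type} [Field k] [NumberField k] [Field F] [NumberField F] [Algebra k F]

lemma good_ind' {F₀ : IntermediateField ℚ F} {n : ℕ} (hp2 : p ≠ 2) {S : Set (F →+* ℂ_[p])}
    {H : Subgroup (F ≃ₐ[k] F)} (hH : ¬ BadS F₀ S n H) (s : ℕ) :
    ∀ u ∈ RS F₀ S (n + 1 + s), (∀ h ∈ H, h • u = u) →
      ∃ w ∈ RS F₀ S 1, (∀ h ∈ H, h • w = w) ∧ w ^ p ^ s = u := by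
  induction s with
  | zero =>
    intro u hu hf
    exact ⟨u, RS_mono (by omega) hu, hf, by simp⟩
  | succ s ih =>
    intro u hu hf
    have h1 : ∃ w ∈ RS F₀ S 1, (∀ h ∈ H, h • w = w) ∧ w ^ p = u := by
      by_contra hcon
      apply hH
      refine ⟨u, RS_mono (by omega) hu, hf, fun w hw hwf hwu => hcon ⟨w, hw, hwf, hwu⟩⟩
    obtain ⟨w, hw, hwf, hwu⟩ := h1
    have h2 : w ∈ RS F₀ S (n + 1 + s) := by
      refine ⟨hw.1, hw.2.1, Cs_root hp2 hw.2.2 ?_⟩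
      rw [← Units.val_pow_eq_pow_val, hwu]
      exact hu.2.2
    obtain ⟨w', hw', hwf', hwu'⟩ := ih w h2 hwf
    refine ⟨w', hw', hwf', ?_⟩
    rw [pow_succ, pow_mul, hwu', hwu]

/-- **the composites attached to the good subgroups** -/
theorem top_of_good' (hN : NRM) {F₀ : IntermediateField ℚ F}
    (hF₀ : ∀ g : F ≃ₐ[k] F, ∀ x ∈ F₀, g x ∈ F₀) {n : ℕ} (hp2 : p ≠ 2)
    (hn : ¬ p ∣ finrank F₀ F) {S : Set (F →+* ℂ_[p])}
    (hS : ∀ τ ∈ S, ∀ τ' : F →+* ℂ_[p], (∀ x ∈ F₀, τ' x = τ x) → τ' ∈ S)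
    {H : Subgroup (F ≃ₐ[k] F)} (hH : ¬ BadS F₀ S n H)
    {L₀ : IntermediateField ℚ F} {E : IntermediateField k F}
    (hL : E = IntermediateField.fixedField H) (hLE : ∀ x ∈ L₀, x ∈ E)
    (hL' : ∀ x ∈ F₀, x ∈ IntermediateField.fixedField H → x ∈ L₀)
    {SL : Set (L₀ →+* ℂ_[p])} (hSL : ∀ τ : F →+* ℂ_[p], τ.comp (algebraMap L₀ F) ∈ SL → τ ∈ S)
    {SE : Set (E →+* ℂ_[p])} (hSE : ∀ τ ∈ S, τ.comp (algebraMap E F) ∈ SE) (hT : TopS SL) :
    TopS SE := by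
  have hp : p.Prime := hpf.out
  intro s
  obtain ⟨M, hM⟩ := hT s
  refine ⟨M + (n + 1 + s), fun u hu => ?_⟩
  obtain ⟨uF, huF⟩ : ∃ x : Fˣ, x = ik E F u := ⟨_, rfl⟩
  have hmem : ∀ x : F, x ∈ E ↔ ∀ h ∈ H, h x = x := by
    intro x
    rw [hL, IntermediateField.mem_fixedField_iff]
  have hfix : ∀ h ∈ H, h • uF = uF := by
    intro h hh
    ext
    rw [coe_smul', huF]
    exact (hmem _).1 (((u : 𝓞 E) : E)).2 h hh
  have huC : Cs S (M + (n + 1 + s)) (uF : F) := by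
    intro τ hτ
    rw [huF, coe_ik]
    exact hu _ (hSE τ hτ)
  have huE : uF ∈ EU F := huF ▸ ik_EU u
  set n' := finrank F₀ F with hn'
  have hNfix : ∀ h ∈ H, h • Nm F₀ uF = Nm F₀ uF := by
    intro h hh
    rw [← smul_Nm hN h (hF₀ h), hfix h hh]
  have hNC : Cs S (M + (n + 1 + s)) (Nm F₀ uF : F) := Nm_Cs hS huC
  -- the relative part
  have h1 : uF ^ n' / Nm F₀ uF ∈ RS F₀ S (n + 1 + s) := by
    refine ⟨div_mem (pow_mem huE _) (Nm_EU F₀ huE), ?_, ?_⟩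
    · rw [map_div, map_pow, Nm_Nm, div_self']
    · rw [div_eq_mul_inv, Units.val_mul, Units.val_pow_eq_pow_val, Units.val_inv_eq_inv_val]
      refine (Cs.pow (huC.mono (by omega)) _).mul ?_
      exact (hNC.mono (by omega)).inv fun σ _ => norm_EU σ (Nm_EU F₀ huE)
  obtain ⟨w1, hw1, hw1f, hw1u⟩ := good_ind' hp2 hH s _ h1 (fun h hh => by
    rw [smul_div', smul_pow', hfix h hh, hNfix h hh])
  -- the norm
  have h2 : (Nm F₀ uF : F) ∈ Set.range (algebraMap L₀ F) := by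
    refine ⟨⟨_, hL' _ (Nm_mem F₀ uF) ?_⟩, rfl⟩
    rw [← hL, hmem]
    intro h hh
    exact congrArg (fun t : Fˣ => (t : F)) (hNfix h hh)
  obtain ⟨θ, hθ⟩ := exists_ik (Nm_EU F₀ huE) h2
  obtain ⟨w2, hw2⟩ := hM θ (by
    intro σ hσ
    obtain ⟨τ, hτ⟩ := exists_ext (H := F) σ
    have h3 : τ ∈ S := hSL τ (by rw [hτ]; exact hσ)
    have h4 := hNC.mono (show M ≤ M + (n + 1 + s) by omega) τ h3
    rw [← hθ, coe_ik] at h4
    rw [← hτ]
    exact h4)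
  set w3 : Fˣ := w1 * ik L₀ F w2 with hw3
  have h3 : w3 ^ p ^ s = uF ^ n' := by
    rw [hw3, mul_pow, hw1u, ← map_pow (ik L₀ F), hw2, hθ, div_mul_cancel]
  have hcop : IsCoprime ((n' : ℕ) : ℤ) ((p ^ s : ℕ) : ℤ) := by
    rw [Nat.isCoprime_iff_coprime]
    exact (((hp.coprime_iff_not_dvd).2 hn).pow_left s).symm
  obtain ⟨a, b, hab⟩ := hcop
  have h4 : (w3 ^ a * uF ^ b) ^ p ^ s = uF := by
    have h5 : uF ^ (a * ((n' : ℕ) : ℤ) + b * ((p ^ s : ℕ) : ℤ)) = uF := by rw [hab, zpow_one]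
    rw [zpow_add, mul_comm a, mul_comm b, zpow_mul, zpow_mul, zpow_natCast, zpow_natCast,
      ← h3] at h5
    rw [mul_pow, ← zpow_natCast, ← zpow_natCast, zpow_comm, zpow_natCast, zpow_comm, zpow_natCast]
    exact h5
  have h6 : w3 ^ a * uF ^ b ∈ EU F :=
    mul_mem (zpow_mem (mul_mem hw1.1 (ik_EU w2)) a) (zpow_mem huE b)
  have h7 : ((w3 ^ a * uF ^ b : Fˣ) : F) ∈ Set.range (algebraMap E F) := by
    refine ⟨⟨_, (hmem _).2 ?_⟩, rfl⟩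
    intro h hh
    have h8 : h • (w3 ^ a * uF ^ b) = w3 ^ a * uF ^ b := by
      have h9 : h • ik L₀ F w2 = ik L₀ F w2 := by
        ext
        rw [coe_smul']
        exact (hmem _).1 (hLE _ (((w2 : 𝓞 L₀) : L₀)).2) h hh
      have h10 : h • w3 = w3 := by rw [hw3, smul_mul', hw1f h hh, h9]
      rw [smul_mul', smul_zpow', smul_zpow', h10, hfix h hh]
    exact congrArg (fun t : Fˣ => (t : F)) h8
  obtain ⟨w5, hw5⟩ := exists_ik h6 h7
  refine ⟨w5, ik_injective (k := E) (F := F) ?_⟩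
  rw [map_pow, hw5, h4, huF]

end Pool.Agent.K7.H76.LC
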