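import Mathlib
import Pool.Agent.K7.H76.LC.Good
import Pool.Agent.Y847.LC.KB

/-!
# Uniform bound for `E_{j + 1} / E_1 ^ (p ^ j)`
-/

set_option autoImplicit false

namespace Pool.Agent.K7.H76.LC

open Finset NumberField IsDedekindDomain Module Pool.Agent.Y18.LC
open Pool.Agent.Y419.LC.LcpP Pool.Agent.W289.SL Pool.Agent.K7.H76.SL

variable {p : ℕ} [hpf : Fact p.Prime]

variable {k : Type} [Field k] [NumberField k]

lemma unit_EU (u : (𝓞 k)ˣ) : uH k u ∈ EU k := mem_EU.2 ⟨u, rfl⟩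

/-- iteration: units very close to `1` are highly divisible -/
lemma iter' (hp2 : p ≠ 2) {S : Set (k →+* ℂ_[p])} (hun : Ur S) {M : ℕ} (hM : 1 ≤ M)
    (hT : ∀ u : (𝓞 k)ˣ, Cs S M ((u : 𝓞 k) : k) → ∃ w : (𝓞 k)ˣ, w ^ p = u) (s : ℕ) :
    ∀ θ : (𝓞 k)ˣ, Cs S (M + s) ((θ : 𝓞 k) : k) → ∃ w : (𝓞 k)ˣ, θ = w ^ p ^ (s + 1) := by
  induction s with
  | zero =>
    intro θ hθ
    obtain ⟨w, hw⟩ := hT θ (by simpa using hθ)
    exact ⟨w, by rw [zero_add, pow_one, hw]⟩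
  | succ s ih =>
    intro θ hθ
    obtain ⟨w, hw⟩ := hT θ (hθ.mono (by omega))
    have hw2 : ((θ : (𝓞 k)ˣ) : 𝓞 k) = (w : 𝓞 k) ^ p := by rw [← hw]; simp
    have hw3 : ((θ : 𝓞 k) : k) = ((w : 𝓞 k) : k) ^ p := by rw [hw2]; simp only [map_pow]
    have h1 : Cs S 1 ((w : 𝓞 k) : k) := by
      have := Cs_of_pow hun 1 (unit_EU w) (by
        rw [pow_one, uH_coe, ← hw3]
        exact hθ.mono (by omega))
      exact this
    have h3 : Cs S (M + s) ((w : 𝓞 k) : k) := by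
      apply Cs_root hp2 h1
      rw [← hw3]
      exact hθ
    obtain ⟨v, hv⟩ := ih w h3
    refine ⟨v, ?_⟩
    rw [← hw, hv, ← pow_mul, ← pow_succ]

theorem kbs (hp2 : p ≠ 2) {S : Set (k →+* ℂ_[p])} (hun : Ur S) (hTop : TopS S) :
    ∃ B : ℕ, ∀ j : ℕ, KBs k S B j := by
  classical
  have hp : p.Prime := hpf.out
  obtain ⟨M₀, hM₀⟩ := hTop 1
  let M := M₀ + 1
  have hT : ∀ u : (𝓞 k)ˣ, Cs S M ((u : 𝓞 k) : k) → ∃ w : (𝓞 k)ˣ, w ^ p = u := by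
    intro u hu
    obtain ⟨w, hw⟩ := hM₀ u (hu.mono (Nat.le_succ _))
    exact ⟨w, by simpa using hw⟩
  obtain ⟨T, hTf⟩ := Pool.Agent.Y847.LC.fin_pow k (p ^ M) (pow_pos hp.pos _)
  refine ⟨T.card, fun j => ?_⟩
  rcases Nat.lt_or_ge (j + 1) M with hj | hj
  · refine ⟨T, le_rfl, fun θ _ => ?_⟩
    obtain ⟨r, hr1, u, hu⟩ := hTf θ
    refine ⟨r, hr1, u ^ p ^ (M - j), ?_⟩
    have h5 : p ^ M = p ^ (M - j) * p ^ j := by
      rw [← pow_add]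
      congr 1
      omega
    rw [hu, ← pow_mul, h5]
  · obtain ⟨s, hs⟩ : ∃ s, j + 1 = M + s := ⟨j + 1 - M, by omega⟩
    refine ⟨T.image (fun r => r ^ p ^ (s + 1)), Finset.card_image_le, fun θ hθ => ?_⟩
    rw [hs] at hθ
    obtain ⟨w, hw⟩ := iter' hp2 hun (M := M) (by omega) hT s θ hθ
    obtain ⟨r, hr1, u, hu⟩ := hTf w
    refine ⟨r ^ p ^ (s + 1), Finset.mem_image.2 ⟨r, hr1, rfl⟩, u ^ p ^ 2, ?_⟩
    have h5 : p ^ M * p ^ (s + 1) = p ^ 2 * p ^ j := by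
      rw [← pow_add, ← pow_add]
      congr 1
      omega
    rw [hw, hu, mul_pow, ← pow_mul u, h5, ← pow_mul u]

end Pool.Agent.K7.H76.LC
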