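import Mathlib
import Pool.Agent.W254.PA.LeoE
import Pool.Agent.Y944.LC.BRU
import Pool.Agent.K7.H76.LC.KB
import Pool.Agent.K7.H76.SL.Quad

/-!
# The theorem of Baker and Brumer for abelian extensions of imaginary quadratic fields
-/

set_option autoImplicit false

namespace Pool.Agent.K7.H76.LC

open Module Finset NumberField NumberField.Units Pool.Agent.W254.PA Pool.Agent.W254.Ab
open Pool.Agent.W245.PB (IsIwasawaLog brumer)

section rel

variable {k E : Type} [Field k] [NumberField k] [Field E] [NumberField E] [Algebra k E]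

theorem dirichlet_rel [IsTotallyComplex k] (h2 : finrank ℚ k = 2) [IsGalois k E] (τ : E →+* ℂ)
    (c : Fin (rank E) → ℂ)
    (h : ∀ g : E ≃ₐ[k] E, ∑ i, c i * (Real.log ‖τ (g (fundSystem E i : E))‖ : ℂ) = 0) : c = 0 := by
  classical
  apply dirichlet_complex E
  intro w
  have hex : ∃ e : E →+* ℂ, (∀ x, ‖e x‖ = w x) ∧
      τ.comp (algebraMap k E) = e.comp (algebraMap k E) := by
    by_cases h1 : τ.comp (algebraMap k E) = w.embedding.comp (algebraMap k E)
    · exact ⟨w.embedding, fun x => InfinitePlace.norm_embedding_eq w x, h1⟩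
    · refine ⟨ComplexEmbedding.conjugate w.embedding, fun x => ?_, ?_⟩
      · rw [ComplexEmbedding.conjugate_coe_eq, RCLike.norm_conj]
        exact InfinitePlace.norm_embedding_eq w x
      · by_contra h3
        set ρ : k →+* ℂ := w.embedding.comp (algebraMap k E) with hρ
        have h4 : (ComplexEmbedding.conjugate w.embedding).comp (algebraMap k E) =
            ComplexEmbedding.conjugate ρ := by
          ext x
          rfl
        rw [h4] at h3
        have h5 : ρ ≠ ComplexEmbedding.conjugate ρ := by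
          intro h6
          have h7 : ComplexEmbedding.IsReal ρ := by
            rw [ComplexEmbedding.isReal_iff]
            exact h6.symm
          have h8 : InfinitePlace.IsReal (InfinitePlace.mk ρ) := ⟨ρ, h7, rfl⟩
          exact (InfinitePlace.not_isReal_iff_isComplex.2
            (IsTotallyComplex.isComplex (InfinitePlace.mk ρ))) h8
        have h6 : ({ρ, ComplexEmbedding.conjugate ρ, τ.comp (algebraMap k E)} :
            Finset (k →+* ℂ)).card = 3 := by
          rw [Finset.card_eq_three]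
          exact ⟨_, _, _, h5, Ne.symm h1, Ne.symm h3, rfl⟩
        have h7 := Finset.card_le_univ ({ρ, ComplexEmbedding.conjugate ρ,
          τ.comp (algebraMap k E)} : Finset (k →+* ℂ))
        rw [h6, Embeddings.card k ℂ, h2] at h7
        omega
  obtain ⟨e, he, hek⟩ := hex
  obtain ⟨g, hg⟩ := NumberField.ComplexEmbedding.exists_comp_symm_eq_of_comp_eq (k := k) τ e hek
  rw [← h g.symm]
  apply Finset.sum_congr rfl
  intro i _
  congr 3
  rw [← he, ← hg]
  rfl

/-- restriction of scalars -/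
def rs : (E ≃ₐ[k] E) →* (E ≃ₐ[ℚ] E) where
  toFun g := g.restrictScalars ℚ
  map_one' := rfl
  map_mul' _ _ := rfl

lemma rs_apply (g : E ≃ₐ[k] E) (x : E) : rs g x = g x := rfl

variable {p : ℕ} [hp : Fact p.Prime] {L : PadicAlgCl p → PadicAlgCl p} (hL : IsIwasawaLog p L)
  (σ₀ : E →+* PadicAlgCl p)

include hL in
/-- **Common eigenvectors do not exist.** -/
theorem no_eigen' [IsTotallyComplex k] (h2 : finrank ℚ k = 2) [IsGalois k E]
    (b : Fin (rank E) → PadicAlgCl p) (hb0 : b ≠ 0)
    (hb : ∀ g : E ≃ₐ[k] E, ∃ c : PadicAlgCl p, Tm p (rs g) b = c • b) (hP : Pg L σ₀ 1 b = 0) :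
    False := by
  classical
  have : Fintype (E ≃ₐ[k] E) := Fintype.ofFinite _
  choose c hc using hb
  -- the eigenvalues are algebraic
  have hcpow : ∀ g : E ≃ₐ[k] E, ∀ n : ℕ, Tm p (rs (g ^ n)) b = (c g) ^ n • b := by
    intro g n
    induction n with
    | zero => rw [pow_zero, pow_zero, map_one, Tm_one, one_smul]
    | succ n ih => rw [pow_succ, map_mul, Tm_mul, hc, map_smul, ih, smul_smul, pow_succ, mul_comm]
  obtain ⟨k₀, hk₀⟩ : ∃ k, b k ≠ 0 := by
    by_contra hcon
    push Not at hcon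
    exact hb0 (funext hcon)
  have hcalg : ∀ g, IsAlgebraic ℚ (c g) := by
    intro g
    have h1 := hcpow g (Fintype.card (E ≃ₐ[k] E))
    rw [pow_card_eq_one, map_one, Tm_one] at h1
    have h2 := congrFun h1 k₀
    rw [Pi.smul_apply, smul_eq_mul] at h2
    have h3 : (c g) ^ Fintype.card (E ≃ₐ[k] E) = 1 := by
      have h4 : ((c g) ^ Fintype.card (E ≃ₐ[k] E) - 1) * b k₀ = 0 := by linear_combination -h2
      exact sub_eq_zero.mp ((mul_eq_zero.mp h4).resolve_right hk₀)
    refine IsAlgebraic.of_pow (n := Fintype.card (E ≃ₐ[k] E)) Fintype.card_pos ?_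
    rw [h3]
    exact isAlgebraic_one
  -- an eigenvector with algebraic coordinates
  obtain ⟨φ, hφ, -⟩ := exists_functional (⊥ : Submodule (QA (PadicAlgCl p)) (PadicAlgCl p)) (b k₀)
    (by rw [Submodule.mem_bot]; exact hk₀)
  let b' : Fin (rank E) → PadicAlgCl p := fun k => ((φ (b k) : QA (PadicAlgCl p)) : PadicAlgCl p)
  have hb' : ∀ g, Tm p (rs g) b' = c g • b' := by
    intro g
    funext l
    rw [Tm_apply, Pi.smul_apply, smul_eq_mul]
    have h1 := congrFun (hc g) l
    rw [Tm_apply, Pi.smul_apply, smul_eq_mul] at h1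
    have h2 : φ (∑ k, b k * ((Cm (rs g) k l : ℤ) : PadicAlgCl p)) =
        ∑ k, φ (b k) * ((Cm (rs g) k l : ℤ) : QA (PadicAlgCl p)) := by
      rw [map_sum]
      apply Finset.sum_congr rfl
      intro k _
      have h3 : b k * ((Cm (rs g) k l : ℤ) : PadicAlgCl p) =
          ((Cm (rs g) k l : ℤ) : QA (PadicAlgCl p)) • b k := by
        rw [Algebra.smul_def, map_intCast, mul_comm]
      rw [h3, map_smul, smul_eq_mul, mul_comm]
    have h4 : φ (c g * b l) = (⟨c g, mem_QA.mpr (hcalg g)⟩ : QA (PadicAlgCl p)) * φ (b l) := by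
      have h5 : c g * b l = (⟨c g, mem_QA.mpr (hcalg g)⟩ : QA (PadicAlgCl p)) • b l := by
        rw [Algebra.smul_def]; rfl
      rw [h5, map_smul, smul_eq_mul]
    rw [h1] at h2
    rw [h4] at h2
    have h6 := congrArg (fun z : QA (PadicAlgCl p) => (z : PadicAlgCl p)) h2
    push_cast at h6
    exact h6.symm
  have hb'0 : b' ≠ 0 := by
    intro h
    apply hφ
    exact Subtype.ext (congrFun h k₀)
  -- transport to the complex numbers
  obtain ⟨θ⟩ := exists_theta' p
  obtain ⟨τ⟩ : Nonempty (E →+* ℂ) := inferInstance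
  have key : ∀ v : Fin (rank E) → PadicAlgCl p, (∀ g : E ≃ₐ[k] E, Tm p (rs g) v = c g • v) →
      ∀ g : E ≃ₐ[k] E,
      ∑ i, θ (v i) * (Real.log ‖τ (g ((fundSystem E i : 𝓞 E) : E))‖ : ℂ) =
      θ (c g) * ∑ i, θ (v i) * (Real.log ‖τ ((fundSystem E i : 𝓞 E) : E)‖ : ℂ) := by
    intro v hv g
    have h1 : ∀ i, (Real.log ‖τ (g ((fundSystem E i : 𝓞 E) : E))‖ : ℂ) =
        ∑ l, ((Cm (rs g) i l : ℤ) : ℂ) * (Real.log ‖τ ((fundSystem E l : 𝓞 E) : E)‖ : ℂ) := by
      intro i
      have h2 := log_unit_real τ (gU (rs g) (fundSystem E i))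
      rw [gU_coe] at h2
      have h3 : (rs g) ((fundSystem E i : 𝓞 E) : E) = g ((fundSystem E i : 𝓞 E) : E) := rfl
      rw [h3] at h2
      rw [h2]
      push_cast
      rfl
    simp only [h1, Finset.mul_sum]
    rw [Finset.sum_comm]
    apply Finset.sum_congr rfl
    intro l _
    have h3 := congrFun (hv g) l
    rw [Tm_apply, Pi.smul_apply, smul_eq_mul] at h3
    have h4 := congrArg θ h3
    rw [map_sum, map_mul] at h4
    rw [← mul_assoc, ← h4, Finset.sum_mul]
    apply Finset.sum_congr rfl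
    intro k _
    rw [map_mul, map_intCast]
    ring
  set s : ℂ := ∑ i, θ (b i) * (Real.log ‖τ ((fundSystem E i : 𝓞 E) : E)‖ : ℂ) with hs
  set s' : ℂ := ∑ i, θ (b' i) * (Real.log ‖τ ((fundSystem E i : 𝓞 E) : E)‖ : ℂ) with hs'
  have hs'0 : s' ≠ 0 := by
    intro h0
    apply hb'0
    have h1 := dirichlet_rel (k := k) h2 τ (fun i => θ (b' i)) (by
      intro g
      rw [key b' hb' g, ← hs', h0, mul_zero])
    funext i
    have h2 := congrFun h1 i
    exact (map_eq_zero θ).mp h2
  have hprop := dirichlet_rel (k := k) h2 τ (fun i => s' * θ (b i) - s * θ (b' i)) (by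
    intro g
    simp only [sub_mul, mul_assoc, Finset.sum_sub_distrib, ← Finset.mul_sum]
    rw [key b hc g, key b' hb' g, ← hs, ← hs']
    ring)
  -- the vector is proportional to an algebraic one
  have hbb : ∀ i, b i = θ.symm (s / s') * b' i := by
    intro i
    apply θ.injective
    rw [map_mul, θ.apply_symm_apply]
    have h1 := congrFun hprop i
    simp only [Pi.zero_apply] at h1
    field_simp
    linear_combination h1
  have hy0 : θ.symm (s / s') ≠ 0 := by
    intro h0
    apply hk₀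
    rw [hbb, h0, zero_mul]
  have hfin : ∑ i, b' i * L (σ₀ ((fundSystem E i : 𝓞 E) : E)) = 0 := by
    unfold Pg at hP
    have h1 : θ.symm (s / s') * ∑ i, b' i * L (σ₀ ((fundSystem E i : 𝓞 E) : E)) = 0 := by
      rw [← hP, Finset.mul_sum]
      apply Finset.sum_congr rfl
      intro i _
      rw [hbb i]
      change _ = _ * L (σ₀ ((fundSystem E i : 𝓞 E) : E))
      ring
    exact (mul_eq_zero.mp h1).resolve_left hy0
  have h2 := brumer hL (ι := Fin (rank E)) (fun i => σ₀ ((fundSystem E i : 𝓞 E) : E))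
    (fun i => ((isU_unit _).map σ₀).ne) (fun i => ((isU_unit _).map σ₀).alg) (fund_indep hL σ₀) 0
    isAlgebraic_zero b' (fun i => mem_QA.mp (φ (b i)).2) (by rw [zero_add, hfin])
  exact hb'0 (funext h2.2)

include hL in
/-- **the theorem of Baker and Brumer** -/
theorem bb_lin [IsTotallyComplex k] (h2 : finrank ℚ k = 2) [IsGalois k E]
    (hcomm : ∀ g h : E ≃ₐ[k] E, g * h = h * g) (b : Fin (rank E) → PadicAlgCl p)
    (h : ∀ g : E ≃ₐ[k] E, Pg L σ₀ (rs g) b = 0) : b = 0 := by
  let W : Submodule (PadicAlgCl p) (Fin (rank E) → PadicAlgCl p) :=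
    { carrier := {b | ∀ g : E ≃ₐ[k] E, Pg L σ₀ (rs g) b = 0}
      add_mem' := by
        intro a b ha hb g
        have h1 := ha g
        have h2 := hb g
        unfold Pg at h1 h2 ⊢
        simp only [Pi.add_apply, add_mul, Finset.sum_add_distrib, h1, h2, add_zero]
      zero_mem' := by
        intro g
        unfold Pg
        simp
      smul_mem' := by
        intro c b hb g
        have h1 := hb g
        unfold Pg at h1 ⊢
        simp only [Pi.smul_apply, smul_eq_mul, mul_assoc, ← Finset.mul_sum, h1, mul_zero] }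
  have hW : ∀ b, b ∈ W ↔ ∀ g : E ≃ₐ[k] E, Pg L σ₀ (rs g) b = 0 := fun b => Iff.rfl
  by_contra hb0
  have hne : W ≠ ⊥ := by
    rw [Submodule.ne_bot_iff]
    exact ⟨b, h, hb0⟩
  obtain ⟨v, hv, hv0, hvc⟩ := common_eigen (fun g : E ≃ₐ[k] E => Tm p (rs g)) _ W
    inferInstance rfl hne (fun g w hw => by
      rw [hW] at hw ⊢
      intro g'
      rw [Pg_Tm hL, ← map_mul]
      exact hw _)
    (fun g h w _ => by
      rw [← Tm_mul, ← Tm_mul, ← map_mul, ← map_mul, hcomm])
  refine no_eigen' hL σ₀ h2 v hv0 hvc ?_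
  have h3 := (hW v).1 hv 1
  rwa [map_one] at h3

end rel

end Pool.Agent.K7.H76.LC
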