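import Mathlib

/-!
# Galois theory of the composite `F = K F₀`, `F₀ / k` Galois
-/

set_option autoImplicit false

namespace Pool.Agent.K7.H76.LC

open NumberField IntermediateField Polynomial Module

variable {k K F : Type} [Field k] [Field K] [Field F] [NumberField k] [NumberField K]
  [NumberField F] [Algebra k K] [Algebra K F] [Algebra k F] [IsScalarTower k K F]
  {F₀ : IntermediateField k F}

theorem gal_comp' (hG : IsGalois k F₀) (htop : IntermediateField.adjoin K (F₀ : Set F) = ⊤) :
    IsGalois K F := by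
  have hsp : ∃ T : k[X], T.Separable ∧ T.IsSplittingField k F₀ :=
    IsGalois.is_separable_splitting_field k F₀
  obtain ⟨T, hT₁, hT₂⟩ := hsp
  let T' := T.map (algebraMap k K)
  suffices T'.IsSplittingField K F from IsGalois.of_separable_splitting_field (p := T') hT₁.map
  have hT₃ := isSplittingField_iff_intermediateField.1 hT₂
  rw [isSplittingField_iff_intermediateField]
  constructor
  · rw [Polynomial.map_map, ← IsScalarTower.algebraMap_eq]
    exact Polynomial.Splits.of_algHom hT₃.1 (IsScalarTower.toAlgHom k F₀ F)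
  · have h' : T'.rootSet F = T.rootSet F := by simp [Set.ext_iff, Polynomial.mem_rootSet', T']
    have h3 := hT₃.2
    rw [← lift_inj, lift_adjoin, ← coe_val, hT₃.1.image_rootSet, lift_top] at h3
    rw [h', eq_top_iff, ← htop, adjoin_le_iff]
    have h2 : F₀ ≤ (adjoin K (T.rootSet F)).restrictScalars k := by
      rw [← h3, adjoin_le_iff]
      exact subset_adjoin _ _
    exact h2

theorem map_mem' (hG : IsGalois k F₀) (g : F ≃ₐ[K] F) {x : F} (hx : x ∈ F₀) : g x ∈ F₀ := by
  haveI : Normal k F₀ := IsGalois.to_normal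
  have h1 := AlgEquiv.restrictNormalHom_apply F₀ (g.restrictScalars k) ⟨x, hx⟩
  have h2 : ((AlgEquiv.restrictNormalHom F₀ (g.restrictScalars k) ⟨x, hx⟩ : F₀) : F) = g x := h1
  rw [← h2]
  exact Subtype.property _

omit [NumberField k] [NumberField K] [NumberField F] [Algebra k K] [IsScalarTower k K F] in
theorem ext_one' (htop : IntermediateField.adjoin K (F₀ : Set F) = ⊤) {g : F ≃ₐ[K] F}
    (h : ∀ x ∈ F₀, g x = x) : g = 1 := by
  ext x
  have hx : x ∈ IntermediateField.adjoin K (F₀ : Set F) := by rw [htop]; trivial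
  show g x = x
  induction hx using IntermediateField.adjoin_induction with
  | mem x hx => exact h x hx
  | algebraMap x => exact g.commutes x
  | add x y _ _ hx hy => rw [map_add, hx, hy]
  | inv x _ hx => rw [map_inv₀, hx]
  | mul x y _ _ hx hy => rw [map_mul, hx, hy]

/-- restriction -/
noncomputable def res' (K : Type) [Field K] [NumberField K] [Algebra k K] [Algebra K F]
    [IsScalarTower k K F] (F₀ : IntermediateField k F) (hG : IsGalois k F₀) :
    (F ≃ₐ[K] F) →* (F₀ ≃ₐ[k] F₀) where
  toFun g := AlgEquiv.ofRingEquiv (f :=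
    { toFun := fun x => ⟨g x, map_mem' hG g x.2⟩
      invFun := fun x => ⟨g⁻¹ x, map_mem' hG g⁻¹ x.2⟩
      left_inv := fun x => Subtype.ext (g.symm_apply_apply x)
      right_inv := fun x => Subtype.ext (g.apply_symm_apply x)
      map_mul' := fun x y => Subtype.ext (map_mul g (x : F) (y : F))
      map_add' := fun x y => Subtype.ext (map_add g (x : F) (y : F)) })
    (fun r => Subtype.ext (by
      show g (algebraMap k F r) = algebraMap k F r
      rw [IsScalarTower.algebraMap_apply k K F]
      exact g.commutes _))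
  map_one' := by ext x; rfl
  map_mul' g h := by ext x; rfl

theorem res'_apply (hG : IsGalois k F₀) (g : F ≃ₐ[K] F) (x : F₀) :
    ((res' K F₀ hG g x : F₀) : F) = g x := rfl

theorem res'_inj (hG : IsGalois k F₀) (htop : IntermediateField.adjoin K (F₀ : Set F) = ⊤) :
    Function.Injective (res' K F₀ hG) := by
  rw [injective_iff_map_eq_one]
  intro g hg
  refine ext_one' htop fun x hx => ?_
  have h1 := res'_apply (K := K) hG g ⟨x, hx⟩
  rw [hg] at h1
  exact h1.symm

theorem fld' {p : ℕ} [Fact p.Prime] {m : ℕ} (hG : IsGalois k F₀)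
    (hcomm : ∀ g h : F₀ ≃ₐ[k] F₀, g * h = h * g) (hexp : ∀ g : F₀ ≃ₐ[k] F₀, g ^ p = 1)
    (hfin : finrank k F₀ = p ^ m) (htop : IntermediateField.adjoin K (F₀ : Set F) = ⊤)
    (hpk : ¬ p ∣ finrank k K) :
  IsGalois K F ∧ (∀ g h : F ≃ₐ[K] F, g * h = h * g) ∧ (∀ g : F ≃ₐ[K] F, g ^ p = 1) ∧
    Nat.card (F ≃ₐ[K] F) = p ^ m ∧ (∀ g : F ≃ₐ[K] F, ∀ x ∈ F₀, g x ∈ F₀) ∧ ¬ p ∣ finrank F₀ F ∧
    ∀ H : Subgroup (F ≃ₐ[K] F), H.index = p → ∃ L₀ : IntermediateField k F, L₀ ≤ F₀ ∧
      finrank k L₀ = p ∧ IntermediateField.adjoin K (L₀ : Set F) = IntermediateField.fixedField H ∧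
      ∀ x ∈ F₀, x ∈ IntermediateField.fixedField H → x ∈ L₀ := by
  have hp : p.Prime := Fact.out
  haveI := hG
  haveI hGk : IsGalois K F := gal_comp' hG htop
  have hinj := res'_inj (K := K) hG htop
  haveI : FiniteDimensional k F := FiniteDimensional.right ℚ k F
  haveI : FiniteDimensional k K := FiniteDimensional.right ℚ k K
  haveI : FiniteDimensional K F := FiniteDimensional.right ℚ K F
  have hc0 : Nat.card (F₀ ≃ₐ[k] F₀) = p ^ m := by
    rw [IsGalois.card_aut_eq_finrank, hfin]
  have hck : Nat.card (F ≃ₐ[K] F) = finrank K F := IsGalois.card_aut_eq_finrank K F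
  have hdvd : Nat.card (F ≃ₐ[K] F) ∣ p ^ m := by
    rw [← hc0]
    exact Subgroup.card_dvd_of_injective (res' K F₀ hG) hinj
  have hm1 : finrank k K * finrank K F = finrank k F := finrank_mul_finrank k K F
  have hm2 : finrank k F₀ * finrank F₀ F = finrank k F := finrank_mul_finrank k F₀ F
  have hcop : Nat.Coprime (p ^ m) (finrank k K) :=
    Nat.Coprime.pow_left _ ((Nat.Prime.coprime_iff_not_dvd hp).2 hpk)
  have hdvd2 : p ^ m ∣ finrank K F := by
    apply hcop.dvd_of_dvd_mul_left
    rw [hm1, ← hm2, hfin]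
    exact Dvd.intro _ rfl
  have hcard : Nat.card (F ≃ₐ[K] F) = p ^ m := by
    apply Nat.dvd_antisymm hdvd
    rw [hck]; exact hdvd2
  have hfk : finrank K F = p ^ m := by rw [← hck, hcard]
  have hff : finrank F₀ F = finrank k K := by
    have h1 : p ^ m * finrank F₀ F = p ^ m * finrank k K := by
      rw [← hfin, hm2, ← hm1, hfk, hfin, mul_comm]
    exact Nat.eq_of_mul_eq_mul_left (pow_pos hp.pos m) h1
  refine ⟨hGk, ?_, ?_, hcard, fun g x hx => map_mem' hG g hx, by rw [hff]; exact hpk, ?_⟩
  · intro g h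
    apply hinj
    rw [map_mul, map_mul, hcomm]
  · intro g
    apply hinj
    rw [map_pow, hexp, map_one]
  · intro H hH
    let r := res' K F₀ hG
    let E₁ : IntermediateField k F₀ := fixedField (H.map r)
    have hE₁ : finrank k E₁ = p := by
      have h1 : finrank E₁ F₀ = Nat.card (H.map r) := finrank_fixedField_eq_card _
      have h2 : finrank k E₁ * finrank E₁ F₀ = finrank k F₀ := finrank_mul_finrank k E₁ F₀
      have h3 : Nat.card (H.map r) = Nat.card H := Nat.card_congr
        (Subgroup.equivMapOfInjective H r hinj).toEquiv.symm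
      have h4 : Nat.card H * H.index = p ^ m := by rw [← hcard]; exact Subgroup.card_mul_index H
      rw [h1, h3, hfin, ← h4, hH, mul_comm] at h2
      haveI : Finite H := inferInstance
      exact Nat.eq_of_mul_eq_mul_left Nat.card_pos h2
    have hmemE : ∀ x : F₀, x ∈ E₁ ↔ ∀ g ∈ H, g (x : F) = x := by
      intro x
      rw [mem_fixedField_iff]
      constructor
      · intro h g hg
        have h1 := h (r g) ⟨g, hg, rfl⟩
        have h2 := congrArg (fun z : F₀ => (z : F)) h1
        exact h2
      · rintro h _ ⟨g, hg, rfl⟩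
        exact Subtype.ext (h g hg)
    let L₀ : IntermediateField k F := F₀ ⊓ (fixedField H).restrictScalars k
    have hmemL : ∀ x : F, x ∈ L₀ ↔ x ∈ F₀ ∧ ∀ g ∈ H, g x = x := by
      intro x
      constructor
      · intro hx
        exact ⟨(mem_inf.1 hx).1, (mem_fixedField_iff H x).1 (mem_inf.1 hx).2⟩
      · rintro ⟨h1, h2⟩
        exact mem_inf.2 ⟨h1, (mem_fixedField_iff H x).2 h2⟩
    refine ⟨L₀, inf_le_left, ?_, ?_, ?_⟩
    · rw [← hE₁]
      let f : L₀ ≃ₗ[k] E₁ :=
        { toFun := fun x => ⟨⟨x, ((hmemL x).1 x.2).1⟩, (hmemE _).2 ((hmemL x).1 x.2).2⟩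
          invFun := fun x => ⟨x, (hmemL _).2 ⟨x.1.2, (hmemE _).1 x.2⟩⟩
          left_inv := fun x => rfl
          right_inv := fun x => rfl
          map_add' := fun x y => rfl
          map_smul' := fun c x => rfl }
      exact f.finrank_eq
    · -- the Galois correspondence
      have hle : adjoin K (L₀ : Set F) ≤ fixedField H := by
        rw [adjoin_le_iff]
        intro x hx
        exact (mem_fixedField_iff H x).2 ((hmemL x).1 hx).2
      have hfs : fixingSubgroup (adjoin K (L₀ : Set F)) ≤ H := by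
        intro g hg
        rw [IntermediateField.mem_fixingSubgroup_iff] at hg
        have h1 : r g ∈ fixingSubgroup E₁ := by
          rw [IntermediateField.mem_fixingSubgroup_iff]
          intro x hx
          apply Subtype.ext
          refine hg x (subset_adjoin _ _ ?_)
          exact (hmemL x).2 ⟨x.2, (hmemE x).1 hx⟩
        rw [fixingSubgroup_fixedField] at h1
        obtain ⟨g', hg', h2⟩ := h1
        rwa [← hinj h2]
      apply le_antisymm hle
      rw [← IsGalois.fixedField_fixingSubgroup (adjoin K (L₀ : Set F))]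
      intro x hx
      rw [mem_fixedField_iff] at hx ⊢
      exact fun g hg => hx g (hfs hg)
    · intro x hx hfx
      exact (hmemL x).2 ⟨hx, (mem_fixedField_iff H x).1 hfx⟩

end Pool.Agent.K7.H76.LC
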