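import Mathlib
import Pool.Agent.K7.H76.LC.Fld

/-!
# Galois theory of the composite over a base `M₀`
-/

set_option autoImplicit false

namespace Pool.Agent.K7.H76.LC

open NumberField IntermediateField Polynomial Module

variable {k K F : Type} [Field k] [Field K] [Field F] [NumberField k] [NumberField K]
  [NumberField F] [Algebra k K] [Algebra K F] [Algebra k F] [IsScalarTower k K F]

omit [NumberField k] [NumberField F] in
/-- the base inside `F₀` -/
theorem exists_base' (M₀ F₀ : IntermediateField k F) :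
    ∃ E₀ : IntermediateField k F₀, ∀ x : F₀, x ∈ E₀ ↔ (x : F) ∈ M₀ :=
  ⟨M₀.comap F₀.val, fun _ => Iff.rfl⟩

omit [NumberField k] [NumberField F] in
theorem finrank_eq_of' (M₀ F₀ : IntermediateField k F)
    (hMF : M₀ ≤ F₀) (E₀ : IntermediateField k F₀) (hE : ∀ x : F₀, x ∈ E₀ ↔ (x : F) ∈ M₀) :
    finrank k E₀ = finrank k M₀ := by
  let f : M₀ ≃ₗ[k] E₀ :=
    { toFun := fun x => ⟨⟨x, hMF x.2⟩, (hE _).2 x.2⟩
      invFun := fun x => ⟨x, (hE _).1 x.2⟩
      left_inv := fun x => rfl
      right_inv := fun x => rfl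
      map_add' := fun x y => rfl
      map_smul' := fun c x => rfl }
  exact f.finrank_eq.symm

theorem fld2' {p : ℕ} [Fact p.Prime] {m r : ℕ} {M₀ F₀ : IntermediateField k F} (hMF : M₀ ≤ F₀)
    (hG : IsGalois k F₀)
    (hcomm : ∀ g h : F₀ ≃ₐ[k] F₀, g * h = h * g) (hexp : ∀ g : F₀ ≃ₐ[k] F₀, g ^ p = 1)
    (hfinM : finrank k M₀ = p ^ r) (hfin : finrank k F₀ = p ^ (r + m))
    (htop : IntermediateField.adjoin K (F₀ : Set F) = ⊤)
    (hMk : (M₀ : Set F) ⊆ Set.range (algebraMap K F))
    (hpk : ∃ n : ℕ, finrank k K = n * p ^ r ∧ ¬ p ∣ n) :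
  IsGalois K F ∧ (∀ g h : F ≃ₐ[K] F, g * h = h * g) ∧ (∀ g : F ≃ₐ[K] F, g ^ p = 1) ∧
    Nat.card (F ≃ₐ[K] F) = p ^ m ∧ (∀ g : F ≃ₐ[K] F, ∀ x ∈ F₀, g x ∈ F₀) ∧ ¬ p ∣ finrank F₀ F ∧
    ∀ H : Subgroup (F ≃ₐ[K] F), H.index = p → ∃ L₀ : IntermediateField k F, M₀ ≤ L₀ ∧ L₀ ≤ F₀ ∧
      finrank k L₀ = p ^ (r + 1) ∧
      IntermediateField.adjoin K (L₀ : Set F) = IntermediateField.fixedField H ∧
      ∀ x ∈ F₀, x ∈ IntermediateField.fixedField H → x ∈ L₀ := by
  obtain ⟨n, hn, hpn⟩ := hpk
  have hp : p.Prime := Fact.out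
  have hrpos : 0 < p ^ r := pow_pos hp.pos r
  haveI := hG
  haveI hGk : IsGalois K F := gal_comp' hG htop
  have hinj := res'_inj (K := K) hG htop
  haveI : FiniteDimensional k F := FiniteDimensional.right ℚ k F
  haveI : FiniteDimensional k K := FiniteDimensional.right ℚ k K
  haveI : FiniteDimensional K F := FiniteDimensional.right ℚ K F
  have hfixM : ∀ (g : F ≃ₐ[K] F), ∀ x ∈ M₀, g x = x := by
    intro g x hx
    obtain ⟨y, rfl⟩ := hMk hx
    exact g.commutes y
  obtain ⟨E₀, hEm⟩ := exists_base' M₀ F₀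
  have hE₀ : finrank k E₀ = p ^ r := by
    rw [← hfinM]
    exact finrank_eq_of' M₀ F₀ hMF E₀ hEm
  have hE₀F : finrank E₀ F₀ = p ^ m := by
    have h1 : finrank k E₀ * finrank E₀ F₀ = finrank k F₀ := finrank_mul_finrank k E₀ F₀
    rw [hE₀, hfin, pow_add] at h1
    exact Nat.eq_of_mul_eq_mul_left hrpos h1
  have hck : Nat.card (F ≃ₐ[K] F) = finrank K F := IsGalois.card_aut_eq_finrank K F
  have hdvd : Nat.card (F ≃ₐ[K] F) ∣ p ^ m := by
    rw [← hE₀F, ← IsGalois.card_fixingSubgroup_eq_finrank E₀]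
    have hmem : ∀ g, res' K F₀ hG g ∈ fixingSubgroup E₀ := by
      intro g
      rw [IntermediateField.mem_fixingSubgroup_iff]
      intro x hx
      exact Subtype.ext (hfixM g x ((hEm x).1 hx))
    refine Subgroup.card_dvd_of_injective ((res' K F₀ hG).codRestrict (fixingSubgroup E₀) hmem) ?_
    intro g h hgh
    apply hinj
    exact congrArg Subtype.val hgh
  have hm1 : finrank k K * finrank K F = finrank k F := finrank_mul_finrank k K F
  have hm2 : finrank k F₀ * finrank F₀ F = finrank k F := finrank_mul_finrank k F₀ F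
  have hm3 : n * finrank K F = p ^ m * finrank F₀ F := by
    have h1 : p ^ r * (n * finrank K F) = p ^ r * (p ^ m * finrank F₀ F) := by
      rw [← mul_assoc, ← mul_assoc, ← pow_add, ← hfin, hm2, ← hm1, hn, mul_comm n]
    exact Nat.eq_of_mul_eq_mul_left hrpos h1
  have hcop : Nat.Coprime (p ^ m) n :=
    Nat.Coprime.pow_left _ ((Nat.Prime.coprime_iff_not_dvd hp).2 hpn)
  have hdvd2 : p ^ m ∣ finrank K F := by
    apply hcop.dvd_of_dvd_mul_left
    rw [hm3]
    exact Dvd.intro _ rfl
  have hcard : Nat.card (F ≃ₐ[K] F) = p ^ m := by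
    apply Nat.dvd_antisymm hdvd
    rw [hck]; exact hdvd2
  have hfk : finrank K F = p ^ m := by rw [← hck, hcard]
  have hff : finrank F₀ F = n := by
    rw [hfk, mul_comm n] at hm3
    exact (Nat.eq_of_mul_eq_mul_left (pow_pos hp.pos m) hm3).symm
  refine ⟨hGk, ?_, ?_, hcard, fun g x hx => map_mem' hG g hx, by rw [hff]; exact hpn, ?_⟩
  · intro g h
    apply hinj
    rw [map_mul, map_mul, hcomm]
  · intro g
    apply hinj
    rw [map_pow, hexp, map_one]
  · intro H hH
    let r' := res' K F₀ hG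
    let E₁ : IntermediateField k F₀ := fixedField (H.map r')
    have hE₁ : finrank k E₁ = p ^ (r + 1) := by
      have h1 : finrank E₁ F₀ = Nat.card (H.map r') := finrank_fixedField_eq_card _
      have h2 : finrank k E₁ * finrank E₁ F₀ = finrank k F₀ := finrank_mul_finrank k E₁ F₀
      have h3 : Nat.card (H.map r') = Nat.card H := Nat.card_congr
        (Subgroup.equivMapOfInjective H r' hinj).toEquiv.symm
      have h4 : Nat.card H * H.index = p ^ m := by rw [← hcard]; exact Subgroup.card_mul_index H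
      have h5 : p ^ (r + m) = p ^ (r + 1) * Nat.card H := by
        rw [pow_add, ← h4, hH, pow_succ]
        ring
      rw [h1, h3, hfin, h5] at h2
      haveI : Finite H := inferInstance
      exact Nat.eq_of_mul_eq_mul_right Nat.card_pos h2
    have hmemE : ∀ x : F₀, x ∈ E₁ ↔ ∀ g ∈ H, g (x : F) = x := by
      intro x
      rw [mem_fixedField_iff]
      constructor
      · intro h g hg
        have h1 := h (r' g) ⟨g, hg, rfl⟩
        have h2 := congrArg (fun z : F₀ => (z : F)) h1
        exact h2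
      · rintro h _ ⟨g, hg, rfl⟩
        exact Subtype.ext (h g hg)
    let L₀ : IntermediateField k F := F₀ ⊓ (fixedField H).restrictScalars k
    have hmemL : ∀ x : F, x ∈ L₀ ↔ x ∈ F₀ ∧ ∀ g ∈ H, g x = x := by
      intro x
      constructor
      · intro hx
        exact ⟨(mem_inf.1 hx).1, (mem_fixedField_iff H x).1 (mem_inf.1 hx).2⟩
      · rintro ⟨h1, h2⟩
        exact mem_inf.2 ⟨h1, (mem_fixedField_iff H x).2 h2⟩
    refine ⟨L₀, ?_, inf_le_left, ?_, ?_, ?_⟩
    · intro x hx
      exact (hmemL x).2 ⟨hMF hx, fun g _ => hfixM g x hx⟩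
    · rw [← hE₁]
      exact (finrank_eq_of' L₀ F₀ inf_le_left E₁ (fun x => by
        rw [hmemE, hmemL]
        exact ⟨fun h => ⟨x.2, h⟩, fun h => h.2⟩)).symm
    · -- the Galois correspondence
      have hle : adjoin K (L₀ : Set F) ≤ fixedField H := by
        rw [adjoin_le_iff]
        intro x hx
        exact (mem_fixedField_iff H x).2 ((hmemL x).1 hx).2
      have hfs : fixingSubgroup (adjoin K (L₀ : Set F)) ≤ H := by
        intro g hg
        rw [IntermediateField.mem_fixingSubgroup_iff] at hg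
        have h1 : r' g ∈ fixingSubgroup E₁ := by
          rw [IntermediateField.mem_fixingSubgroup_iff]
          intro x hx
          apply Subtype.ext
          refine hg x (subset_adjoin _ _ ?_)
          exact (hmemL x).2 ⟨x.2, (hmemE x).1 hx⟩
        rw [fixingSubgroup_fixedField] at h1
        obtain ⟨g', hg', h2⟩ := h1
        rwa [← hinj h2]
      apply le_antisymm hle
      rw [← IsGalois.fixedField_fixingSubgroup (adjoin K (L₀ : Set F))]
      intro x hx
      rw [mem_fixedField_iff] at hx ⊢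
      exact fun g hg => hx g (hfs hg)
    · intro x hx hfx
      exact (hmemL x).2 ⟨hx, (mem_fixedField_iff H x).1 hfx⟩

end Pool.Agent.K7.H76.LC
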