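import Mathlib
import Pool.Agent.Y447.LC.RAM
import Pool.Agent.Y944.LC.UNR
import Pool.Agent.K7.H76.LC.Fld
import Pool.Agent.K7.H76.LC.Good
import Pool.Agent.K7.H76.SL.Abv

/-!
# Unramified primes of composites
-/

set_option autoImplicit false

namespace Pool.Agent.K7.H76.LC

open Module NumberField IsDedekindDomain Pool.Agent.Y447.LC
open Pool.Agent.Y419.LC.LcpP Pool.Agent.W289.SL Pool.Agent.K7.H76.SL

section

variable {K E : Type} [Field K] [NumberField K] [Field E] [NumberField E] [Algebra K E]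

lemma liesOver_of_above {v : HeightOneSpectrum (𝓞 K)} {w : HeightOneSpectrum (𝓞 E)}
    (h : Above v w) : w.asIdeal.LiesOver v.asIdeal := by
  refine ⟨?_⟩
  ext x
  rw [Ideal.under_def, Ideal.mem_comap]
  exact (h x).symm

lemma above_of_liesOver {v : HeightOneSpectrum (𝓞 K)} {w : HeightOneSpectrum (𝓞 E)}
    (h : w.asIdeal.LiesOver v.asIdeal) : Above v w := by
  intro x
  rw [h.over, Ideal.under_def, Ideal.mem_comap]

/-- exact valuations mean ramification index one -/
lemma idx_one_of_val {v : HeightOneSpectrum (𝓞 K)} {w : HeightOneSpectrum (𝓞 E)}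
    (h : ∀ x : K, w.valuation E (algebraMap K E x) = v.valuation K x) :
    w.asIdeal.ramificationIdx (𝓞 K) = 1 := by
  have hover := liesOver_of_above (above_of_val h)
  obtain ⟨x, hx⟩ := v.valuation_exists_uniformizer K
  have h1 := HeightOneSpectrum.valuation_liesOver E v w x
  rw [h x, hx, Ideal.ramificationIdx'_eq_ramificationIdx v.asIdeal w.asIdeal v.ne_bot,
    ← WithZero.exp_nsmul] at h1
  have h2 := WithZero.exp_injective h1
  simpa using h2

lemma val_of_idx_one {v : HeightOneSpectrum (𝓞 K)} {w : HeightOneSpectrum (𝓞 E)}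
    (hover : w.asIdeal.LiesOver v.asIdeal) (h : w.asIdeal.ramificationIdx (𝓞 K) = 1) (x : K) :
    w.valuation E (algebraMap K E x) = v.valuation K x := by
  rw [← HeightOneSpectrum.valuation_liesOver E v w x,
    Ideal.ramificationIdx'_eq_ramificationIdx v.asIdeal w.asIdeal v.ne_bot, h, pow_one]

/-- in a Galois extension all primes above an unramified prime have ramification index one -/
lemma idx_one_gal [IsGalois K E] {v : HeightOneSpectrum (𝓞 K)} (h : Unr E v)
    (P : Ideal (𝓞 E)) [P.IsPrime] (hP : P.LiesOver v.asIdeal) :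
    P.ramificationIdx (𝓞 K) = 1 := by
  obtain ⟨w, hw⟩ := h
  have hover := liesOver_of_above (above_of_val hw)
  have h1 := idx_one_of_val hw
  haveI := galGroup (K := K) (E := E)
  rw [← Ideal.ramificationIdxIn_eq_ramificationIdx v.asIdeal P (E ≃ₐ[K] E),
    Ideal.ramificationIdxIn_eq_ramificationIdx v.asIdeal w.asIdeal (E ≃ₐ[K] E), h1]

end

section

variable {k K F : Type} [Field k] [Field K] [Field F] [NumberField k] [NumberField K]
  [NumberField F] [Algebra k K] [Algebra K F] [Algebra k F] [IsScalarTower k K F]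
  {F₀ : IntermediateField k F}

/-- base change of unramified primes -/
theorem ram' (hG : IsGalois k F₀) (htop : IntermediateField.adjoin K (F₀ : Set F) = ⊤)
    {𝔮 : HeightOneSpectrum (𝓞 k)} (hU : Unr F₀ 𝔮) {v : HeightOneSpectrum (𝓞 K)}
    (hv : Above 𝔮 v) {w : HeightOneSpectrum (𝓞 F)} (hw : Above v w) (x : K) :
    w.valuation F (algebraMap K F x) = v.valuation K x := by
  haveI := hG
  haveI : IsGalois K F := gal_comp' hG htop
  apply val_of_idx_one (liesOver_of_above hw)
  have h1 := card_in (K := K) (E := F) w.asIdeal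
  rw [← h1]
  rw [Nat.card_eq_one_iff_unique]
  refine ⟨⟨?_⟩, ⟨1⟩⟩
  -- the inertia group is trivial
  let w₀ : Ideal (𝓞 F₀) := w.asIdeal.comap (algebraMap (𝓞 F₀) (𝓞 F))
  haveI : w₀.IsPrime := Ideal.comap_isPrime _ _
  have hover : w₀.LiesOver 𝔮.asIdeal := by
    refine ⟨?_⟩
    ext y
    rw [Ideal.under_def, Ideal.mem_comap, Ideal.mem_comap]
    have h2 : algebraMap (𝓞 F₀) (𝓞 F) (algebraMap (𝓞 k) (𝓞 F₀) y) =
        algebraMap (𝓞 K) (𝓞 F) (algebraMap (𝓞 k) (𝓞 K) y) := by
      apply RingOfIntegers.ext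
      show algebraMap F₀ F (algebraMap k F₀ (y : k)) = algebraMap K F (algebraMap k K (y : k))
      rw [← IsScalarTower.algebraMap_apply k F₀ F, ← IsScalarTower.algebraMap_apply k K F]
    rw [h2, hw, hv]
  have h2 := card_in (K := k) (E := F₀) w₀
  rw [idx_one_gal hU w₀ hover, Nat.card_eq_one_iff_unique] at h2
  have key : ∀ g : w.asIdeal.inertia (F ≃ₐ[K] F), (g : F ≃ₐ[K] F) = 1 := by
    intro g
    have hg : res' K F₀ hG (g : F ≃ₐ[K] F) ∈ w₀.inertia (F₀ ≃ₐ[k] F₀) := by
      intro x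
      have h3 := g.2 (algebraMap (𝓞 F₀) (𝓞 F) x)
      show algebraMap (𝓞 F₀) (𝓞 F) (res' K F₀ hG (g : F ≃ₐ[K] F) • x - x) ∈ w.asIdeal
      have h4 : algebraMap (𝓞 F₀) (𝓞 F) (res' K F₀ hG (g : F ≃ₐ[K] F) • x - x) =
          (g : F ≃ₐ[K] F) • (algebraMap (𝓞 F₀) (𝓞 F) x) - algebraMap (𝓞 F₀) (𝓞 F) x := by
        rw [map_sub]
        congr 1
      rw [h4]
      exact h3
    have h5 : (⟨_, hg⟩ : w₀.inertia (F₀ ≃ₐ[k] F₀)) = ⟨1, one_mem _⟩ := h2.1.elim _ _
    have h6 : res' K F₀ hG (g : F ≃ₐ[K] F) = 1 := congrArg Subtype.val h5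
    exact res'_inj hG htop (by rw [h6, map_one])
  intro a b
  exact Subtype.ext ((key a).trans (key b).symm)

end

section ur

variable {p : ℕ} [hpf : Fact p.Prime]
variable {K F : Type} [Field K] [Field F] [NumberField K] [NumberField F] [Algebra K F]

/-- going up at an unramified place -/
lemma ur_up {τ : F →+* ℂ_[p]} {v : HeightOneSpectrum (𝓞 K)} {w : HeightOneSpectrum (𝓞 F)}
    (hw : Induced w τ) (h : ∀ x : K, w.valuation F (algebraMap K F x) = v.valuation K x)
    (hK : ∀ x : K, ‖τ (algebraMap K F x)‖ < 1 → ‖τ (algebraMap K F x)‖ ≤ (p : ℝ)⁻¹) (y : F)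
    (hy : ‖τ y‖ < 1) : ‖τ y‖ ≤ (p : ℝ)⁻¹ := by
  by_cases hy0 : y = 0
  · rw [hy0, map_zero, norm_zero]
    exact pinv_pos.le
  obtain ⟨π, hπ⟩ := v.valuation_exists_uniformizer K
  have hπ0 : π ≠ 0 := by
    rintro rfl
    rw [map_zero] at hπ
    exact WithZero.exp_ne_zero hπ.symm
  have hπF : w.valuation F (algebraMap K F π) = WithZero.exp (-1) := by rw [h, hπ]
  have hπF0 : algebraMap K F π ≠ 0 := by rwa [Ne, map_eq_zero]
  have hτπ : ‖τ (algebraMap K F π)‖ < 1 := by
    -- `π` is a quotient of integers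
    obtain ⟨v', hv', -⟩ := exists_ind (τ.comp (algebraMap K F))
    have hvv : v' = v := by
      have h1 : Above v' w := fun x => by
        rw [hw, hv']
        rfl
      exact above_unique h1 (above_of_val h)
    subst hvv
    obtain ⟨n, d, hnd⟩ := v'.exists_primeCompl_mul_eq_of_integer π (by
      rw [hπ, ← WithZero.exp_zero, WithZero.exp_le_exp]
      norm_num)
    have hd : (d : 𝓞 K) ∉ v'.asIdeal := d.2
    have hd1 : ‖τ (algebraMap K F ((d : 𝓞 K) : K))‖ = 1 := by
      rw [hv'] at hd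
      exact le_antisymm (norm_emb_le (τ.comp (algebraMap K F)) (d : 𝓞 K)) (not_lt.1 hd)
    have hn : n ∈ v'.asIdeal := by
      rw [← v'.valuation_lt_one_iff_mem (K := K)]
      show v'.valuation K (algebraMap (𝓞 K) K n) < 1
      rw [← hnd, map_mul, hπ, v'.valuation_eq_one_iff_notMem.2 hd, mul_one, ← WithZero.exp_zero,
        WithZero.exp_lt_exp]
      norm_num
    rw [hv'] at hn
    have h2 := congrArg (fun t => ‖τ (algebraMap K F t)‖) hnd
    simp only [map_mul, norm_mul] at h2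
    have h3 : ‖τ (algebraMap K F (algebraMap (𝓞 K) K (d : 𝓞 K)))‖ = 1 := hd1
    rw [h3, mul_one] at h2
    rw [h2]
    exact hn
  have hπp := hK π hτπ
  -- the valuation of `y`
  have hwy : w.valuation F y ≠ 0 := (Valuation.ne_zero_iff _).2 hy0
  set a : ℤ := WithZero.log (w.valuation F y) with ha
  have hya : w.valuation F y = WithZero.exp a := (WithZero.exp_log hwy).symm
  have h1 : w.valuation F (y * (algebraMap K F π) ^ a) = 1 := by
    rw [map_mul, hya, map_zpow₀, hπF, ← WithZero.exp_zsmul, ← WithZero.exp_add]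
    simp
  have h2 := norm_of_val hw _ h1
  rw [map_mul, norm_mul, map_zpow₀, norm_zpow] at h2
  have hπpos : 0 < ‖τ (algebraMap K F π)‖ := by
    rw [norm_pos_iff, Ne, map_eq_zero]
    exact hπF0
  have h3 : ‖τ y‖ = ‖τ (algebraMap K F π)‖ ^ (-a) := by
    rw [zpow_neg]
    exact eq_inv_of_mul_eq_one_left h2
  have ha0 : a < 0 := by
    by_contra hcon
    push Not at hcon
    have h4 : (1 : ℝ) ≤ ‖τ (algebraMap K F π)‖ ^ (-a) := by
      rw [zpow_neg, ← inv_zpow]
      exact one_le_zpow₀ ((one_le_inv₀ hπpos).2 hτπ.le) hcon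
    rw [← h3] at h4
    linarith
  obtain ⟨n, hn⟩ : ∃ n : ℕ, -a = (n + 1 : ℕ) := ⟨(-a - 1).toNat, by omega⟩
  rw [h3, hn, zpow_natCast, pow_succ]
  calc ‖τ (algebraMap K F π)‖ ^ n * ‖τ (algebraMap K F π)‖
      ≤ 1 * ‖τ (algebraMap K F π)‖ := by
        gcongr
        exact pow_le_one₀ hπpos.le hτπ.le
    _ ≤ (p : ℝ)⁻¹ := by rw [one_mul]; exact hπp

end ur

end Pool.Agent.K7.H76.LC
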