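import Mathlib
import Pool.Agent.Y758.LC.NSB
import Pool.Agent.K7.H76.LC.Ram

/-!
# A prime which is nonsplit in `K` is nonsplit in `K M₀ / M₀`
-/

set_option autoImplicit false

namespace Pool.Agent.K7.H76.LC

open NumberField IsDedekindDomain Module Ideal
open scoped Pointwise
open Pool.Agent.Y758.LC Pool.Agent.Y447.LC Pool.Agent.K7.H76.SL

variable {k K F : Type} [Field k] [Field K] [Field F] [NumberField k] [NumberField K]
  [NumberField F] [Algebra k K] [Algebra K F] [Algebra k F] [IsScalarTower k K F]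

/-- restriction and intersection with `𝓞 M₀` -/
theorem under_smul' {M₀ : IntermediateField k F} (hG : IsGalois k M₀) (g : F ≃ₐ[K] F)
    (W : Ideal (𝓞 F)) :
    (g • W).comap (algebraMap (𝓞 M₀) (𝓞 F)) =
      (res' K M₀ hG g) • (W.comap (algebraMap (𝓞 M₀) (𝓞 F))) := by
  ext x
  rw [mem_pointwise_smul_iff_inv_smul_mem, mem_comap, mem_comap,
    mem_pointwise_smul_iff_inv_smul_mem]
  have h1 : g⁻¹ • algebraMap (𝓞 M₀) (𝓞 F) x =
      algebraMap (𝓞 M₀) (𝓞 F) ((res' K M₀ hG g)⁻¹ • x) := by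
    rw [← map_inv]
    apply RingOfIntegers.ext
    rfl
  rw [h1]

theorem nsb' {p : ℕ} [Fact p.Prime] {r : ℕ} {M₀ : IntermediateField k F} (hG : IsGalois k M₀)
    (hM₀ : finrank k M₀ = p ^ r) (htop : IntermediateField.adjoin K (M₀ : Set F) = ⊤)
    (hpk : ¬ p ∣ finrank k K) (𝔮 : HeightOneSpectrum (𝓞 k))
    (hv : ∀ v v' : HeightOneSpectrum (𝓞 K), Above 𝔮 v → Above 𝔮 v' → v = v')
    (w w' : HeightOneSpectrum (𝓞 F)) {v : HeightOneSpectrum (𝓞 K)} (hqv : Above 𝔮 v)
    (hvw : Above v w)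
    (hww : w'.asIdeal.comap (algebraMap (𝓞 M₀) (𝓞 F)) =
      w.asIdeal.comap (algebraMap (𝓞 M₀) (𝓞 F))) : w' = w := by
  have hp : p.Prime := Fact.out
  haveI hGk : IsGalois K F := gal_comp' hG htop
  haveI := hG
  haveI := galGroup (K := K) (E := F)
  haveI := galGroup (K := k) (E := M₀)
  have hinj := res'_inj (K := K) hG htop
  haveI : FiniteDimensional K F := FiniteDimensional.right ℚ K F
  haveI : FiniteDimensional k M₀ := by
    apply FiniteDimensional.of_finrank_pos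
    rw [hM₀]
    exact pow_pos hp.pos r
  have hc0 : Nat.card (M₀ ≃ₐ[k] M₀) = p ^ r := by
    rw [IsGalois.card_aut_eq_finrank, hM₀]
  have htw1 : IsScalarTower (𝓞 k) (𝓞 K) (𝓞 F) := inferInstance
  have htw2 : IsScalarTower (𝓞 k) (𝓞 M₀) (𝓞 F) := inferInstance
  set W := w.asIdeal with hW
  set V := W.under (𝓞 K) with hV
  set P := W.under (𝓞 M₀) with hP
  set Q := V.under (𝓞 k) with hQ
  haveI : W.IsPrime := w.isPrime
  haveI : Q.IsPrime := inferInstance
  haveI : W.LiesOver V := ⟨rfl⟩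
  haveI : W.LiesOver P := ⟨rfl⟩
  haveI : V.LiesOver Q := ⟨rfl⟩
  haveI : W.LiesOver Q := LiesOver.trans W V Q
  haveI : P.LiesOver Q := by
    constructor
    have h1 : Q = W.under (𝓞 k) := over_def W Q
    rw [h1, hP, under_under]
  have hVv : V = v.asIdeal := ((liesOver_of_above hvw).over).symm
  have hQq : Q = 𝔮.asIdeal := by
    rw [hQ, hVv]
    exact ((liesOver_of_above hqv).over).symm
  -- `V` is the only prime over `Q`
  have huniq : ∀ V' : Ideal (𝓞 K), V'.IsPrime → V'.LiesOver Q → V' = V := by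
    intro V' hV' hl
    have hne : V' ≠ ⊥ := by
      rintro rfl
      apply 𝔮.ne_bot
      rw [← hQq, hl.over, Ideal.under_def]
      exact Ideal.comap_bot_of_injective _ (FaithfulSMul.algebraMap_injective _ _)
    have h2 : Above 𝔮 ⟨V', hV', hne⟩ := above_of_liesOver (by rw [← hQq]; exact hl)
    rw [hVv]
    exact congrArg HeightOneSpectrum.asIdeal (hv _ _ h2 hqv)
  have hover : primesOver Q (𝓞 K) = {V} := by
    ext V'
    rw [Set.mem_singleton_iff]
    constructor
    · rintro ⟨h1, h2⟩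
      exact huniq V' h1 h2
    · rintro rfl
      exact ⟨inferInstance, inferInstance⟩
  -- the sum formula
  have hfr : finrank k K = finrank (𝓞 k) (𝓞 K) := IsFractionRing.finrank_eq (𝓞 k) k (𝓞 K) K
  have hsum : V.ramificationIdx (𝓞 k) * V.inertiaDeg (𝓞 k) = finrank k K := by
    haveI : Fintype (primesOver Q (𝓞 K)) := by rw [hover]; infer_instance
    have h1 := sum_ramification_inertia_eq_finrank Q (𝓞 K)
    haveI : Subsingleton (primesOver Q (𝓞 K)) := by rw [hover]; infer_instance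
    rw [Fintype.sum_subsingleton _ (⟨V, inferInstance, inferInstance⟩ : primesOver Q (𝓞 K)),
      ← hfr] at h1
    exact h1
  have hSW := card_stab (G := F ≃ₐ[K] F) V W
  have hSP := card_stab (G := M₀ ≃ₐ[k] M₀) Q P
  have ht1 := ramificationIdx_tower (R := 𝓞 k) V W
  have ht2 := inertiaDeg_tower (R := 𝓞 k) V W
  have ht3 := ramificationIdx_tower (R := 𝓞 k) P W
  have ht4 := inertiaDeg_tower (R := 𝓞 k) P W
  have hprod : finrank k K * Nat.card (MulAction.stabilizer (F ≃ₐ[K] F) W) =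
      Nat.card (MulAction.stabilizer (M₀ ≃ₐ[k] M₀) P) *
        (W.ramificationIdx (𝓞 M₀) * W.inertiaDeg (𝓞 M₀)) := by
    rw [hSW, hSP, ← hsum]
    calc _ = (V.ramificationIdx (𝓞 k) * W.ramificationIdx (𝓞 K)) *
          (V.inertiaDeg (𝓞 k) * W.inertiaDeg (𝓞 K)) := by ring
      _ = (P.ramificationIdx (𝓞 k) * W.ramificationIdx (𝓞 M₀)) *
          (P.inertiaDeg (𝓞 k) * W.inertiaDeg (𝓞 M₀)) := by rw [← ht1, ← ht2, ht3, ht4]
      _ = _ := by ring
  have hdP : Nat.card (MulAction.stabilizer (M₀ ≃ₐ[k] M₀) P) ∣ p ^ r := by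
    rw [← hc0]
    exact Subgroup.card_subgroup_dvd_card _
  have hcop : Nat.Coprime (Nat.card (MulAction.stabilizer (M₀ ≃ₐ[k] M₀) P)) (finrank k K) :=
    Nat.Coprime.coprime_dvd_left hdP
      (Nat.Coprime.pow_left _ ((Nat.Prime.coprime_iff_not_dvd hp).2 hpk))
  have hdvd : Nat.card (MulAction.stabilizer (M₀ ≃ₐ[k] M₀) P) ∣
      Nat.card (MulAction.stabilizer (F ≃ₐ[K] F) W) := by
    apply hcop.dvd_of_dvd_mul_left
    rw [hprod]
    exact Dvd.intro _ rfl
  have hle : (MulAction.stabilizer (F ≃ₐ[K] F) W).map (res' K M₀ hG) ≤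
      MulAction.stabilizer (M₀ ≃ₐ[k] M₀) P := by
    rintro _ ⟨g, hg, rfl⟩
    have hg' : g • W = W := hg
    show res' K M₀ hG g • P = P
    have h1 := under_smul' hG g W
    rw [hg'] at h1
    exact h1.symm
  have hmap : (MulAction.stabilizer (F ≃ₐ[K] F) W).map (res' K M₀ hG) =
      MulAction.stabilizer (M₀ ≃ₐ[k] M₀) P := by
    apply Subgroup.eq_of_le_of_card_ge hle
    have h1 : Nat.card ((MulAction.stabilizer (F ≃ₐ[K] F) W).map (res' K M₀ hG)) =
        Nat.card (MulAction.stabilizer (F ≃ₐ[K] F) W) :=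
      Nat.card_congr (Subgroup.equivMapOfInjective _ (res' K M₀ hG) hinj).toEquiv.symm
    rw [h1]
    exact Nat.le_of_dvd Nat.card_pos hdvd
  -- conclusion
  set W' := w'.asIdeal with hW'
  haveI : W'.IsPrime := w'.isPrime
  have hQ' : (W'.under (𝓞 K)).LiesOver Q := by
    constructor
    have h1 : W'.under (𝓞 M₀) = P := hww
    rw [under_under, ← under_under (B := 𝓞 M₀), h1]
    exact over_def P Q
  have hV' : W'.under (𝓞 K) = V := huniq _ inferInstance hQ'
  haveI : W'.LiesOver V := ⟨hV'.symm⟩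
  obtain ⟨g, hg⟩ := exists_smul_eq_of_isGaloisGroup V W W' (F ≃ₐ[K] F)
  have hgP : res' K M₀ hG g ∈ MulAction.stabilizer (M₀ ≃ₐ[k] M₀) P := by
    show res' K M₀ hG g • P = P
    have h1 := under_smul' hG g W
    rw [hg] at h1
    exact h1.symm.trans hww
  rw [← hmap] at hgP
  obtain ⟨g', hg', h2⟩ := hgP
  have h3 : g' = g := hinj h2
  have h4 : g • W = W := by rw [← h3]; exact hg'
  have h5 : W' = W := by rw [← hg, h4]
  exact HeightOneSpectrum.ext h5

end Pool.Agent.K7.H76.LC
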