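import Mathlib
import Pool.Agent.Y944.LC.TA
import Pool.Agent.K7.H76.LC.Bru
import Pool.Agent.K7.H76.SL.Coord
import Pool.Agent.K7.H76.SL.Rel

/-!
# Units close to `1` and logarithms
-/

set_option autoImplicit false

namespace Pool.Agent.K7.H76.LC

open Module Finset NumberField NumberField.Units Filter Topology
open Pool.Agent.Y419.LC.LcpP Pool.Agent.W289.SL Pool.Agent.K7.H76.SL

variable {p : ℕ} [hpf : Fact p.Prime]

section emb

variable {E : Type} [Field E] [NumberField E]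

/-- embeddings into `ℂ_p` have values in the algebraic closure of `ℚ_p` -/
lemma factor (σ : E →+* ℂ_[p]) : ∃ σ₀ : E →+* PadicAlgCl p,
    (Pool.Agent.W254.PA.ic p).comp σ₀ = σ := by
  have h1 : Function.Injective
      (fun σ₀ : E →+* PadicAlgCl p => (Pool.Agent.W254.PA.ic p).comp σ₀) := by
    intro a b h
    ext x
    exact (Pool.Agent.W254.PA.ic p).injective (congrArg (fun f : E →+* ℂ_[p] => f x) h)
  have h2 := (Fintype.bijective_iff_injective_and_card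
    (fun σ₀ : E →+* PadicAlgCl p => (Pool.Agent.W254.PA.ic p).comp σ₀)).2
    ⟨h1, by rw [Embeddings.card E (PadicAlgCl p), Embeddings.card E ℂ_[p]]⟩
  exact h2.2 σ

/-- the logarithms are independent over `ℤ_p` -/
def LIz (S : Set (E →+* ℂ_[p])) : Prop :=
  ∀ (L : ℂ_[p] → ℂ_[p]), IsIwasawaLog p L → ∀ a : Fin (rank E) → PadicInt p,
    (∀ σ ∈ S, ∑ i, algebraMap ℚ_[p] ℂ_[p] (a i : ℚ_[p]) *
      L (σ ((fundSystem E i : 𝓞 E) : E)) = 0) → a = 0

end emb

section bb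

variable {k E : Type} [Field k] [NumberField k] [Field E] [NumberField E] [Algebra k E]

/-- **the theorem of Baker and Brumer** -/
theorem bb_liz [IsTotallyComplex k] (h2 : finrank ℚ k = 2) [IsGalois k E]
    (hcomm : ∀ g h : E ≃ₐ[k] E, g * h = h * g) (φ : k →+* ℂ_[p]) :
    LIz (upS E ({φ} : Set (k →+* ℂ_[p]))) := by
  intro L hL a ha
  have hLa := Pool.Agent.Y944.LC.isLog_La hL
  obtain ⟨σ₁, hσ₁⟩ := exists_ext (H := E) φ
  obtain ⟨σ₀, rfl⟩ := factor σ₁
  set b : Fin (rank E) → PadicAlgCl p := fun i => algebraMap ℚ_[p] (PadicAlgCl p) (a i : ℚ_[p])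
    with hb
  have hb0 : b = 0 := by
    refine bb_lin hLa σ₀ h2 hcomm b fun g => ?_
    apply (Pool.Agent.W254.PA.ic p).injective
    unfold Pool.Agent.W254.PA.Pg
    have h1 := ha (((Pool.Agent.W254.PA.ic p).comp σ₀).comp (g : E →+* E)) (by
      show _ ∈ ({φ} : Set (k →+* ℂ_[p]))
      rw [Set.mem_singleton_iff, ← hσ₁]
      ext x
      show Pool.Agent.W254.PA.ic p (σ₀ (g (algebraMap k E x))) =
        Pool.Agent.W254.PA.ic p (σ₀ (algebraMap k E x))
      rw [g.commutes])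
    rw [map_sum, map_zero, ← h1]
    refine Finset.sum_congr rfl fun i _ => ?_
    have hne : σ₀ ((rs g) ((fundSystem E i : 𝓞 E) : E)) ≠ 0 := by
      rw [map_ne_zero, map_ne_zero]
      exact_mod_cast (fundSystem E i).ne_zero
    rw [map_mul, Pool.Agent.Y944.LC.ic_La hL _ hne]
    rfl
  funext i
  have h1 := congrFun hb0 i
  simp only [hb, Pi.zero_apply, map_eq_zero] at h1
  exact PadicInt.coe_eq_zero.1 h1

end bb

section top

variable {E : Type} [Field E] [NumberField E] {S : Set (E →+* ℂ_[p])}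

/-- the logarithms of units which converge to `1` -/
lemma log_tendsto {L : ℂ_[p] → ℂ_[p]} (hL : IsIwasawaLog p L) (y : ℕ → (𝓞 E)ˣ)
    (hy : ∀ N : ℕ, ∀ᶠ k in atTop, Cs S N (((y k : (𝓞 E)ˣ) : 𝓞 E) : E)) {σ : E →+* ℂ_[p]}
    (hσ : σ ∈ S) : Tendsto (fun k => L (σ ((y k : 𝓞 E) : E))) atTop (𝓝 0) := by
  rw [Metric.tendsto_atTop']
  intro δ hδ
  have hlim : Tendsto (fun N : ℕ => ((p : ℝ)⁻¹) ^ N) atTop (𝓝 0) :=
    tendsto_pow_atTop_nhds_zero_of_lt_one pinv_pos.le pinv_lt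
  obtain ⟨N, hN⟩ := (hlim.eventually (gt_mem_nhds
    (show (0 : ℝ) < min (1 / 8) (δ / 2) from lt_min (by norm_num) (by linarith)))).exists
  obtain ⟨k₀, hk₀⟩ := eventually_atTop.1 (hy N)
  refine ⟨k₀, fun k hk => ?_⟩
  have h4 := hk₀ k hk.le σ hσ
  have h5 := lt_min_iff.1 hN
  have h6 : σ ((y k : 𝓞 E) : E) = 1 + (σ ((y k : 𝓞 E) : E) - 1) := by ring
  rw [dist_zero_right, h6]
  refine (Pool.Agent.W253.LF.norm_L_le hL (h4.trans h5.1.le)).trans_lt ?_
  linarith [h5.2]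

open Pool.Agent.Y944.LC in
/-- units close to `1` are powers -/
theorem top_of_liz (htors : ∀ ζ : (𝓞 E)ˣ, ζ ^ p = 1 → ζ = 1) (hS : LIz S) : TopS S := by
  intro n
  have hp : p.Prime := hpf.out
  by_contra hcon
  push Not at hcon
  choose u hu1 hu2 using hcon
  obtain ⟨L, hL⟩ := exists_iwasawaLog p
  -- compactness
  obtain ⟨a, φ, hφ, hlim⟩ := CompactSpace.tendsto_subseq
    (fun M : ℕ => fun i : Fin (rank E) => ((ex E (u M) i : ℤ) : ℤ_[p]))
  have ha : a = 0 := by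
    apply hS L hL
    intro σ hσ
    have hj : Continuous (fun x : PadicInt p => algebraMap ℚ_[p] ℂ_[p] (x : ℚ_[p])) :=
      (continuous_algebraMap ℚ_[p] ℂ_[p]).comp continuous_subtype_val
    have h1 := log_tendsto hL (S := S) (fun k => u (φ k)) (fun N => by
      filter_upwards [eventually_ge_atTop N] with k hk
      exact (hu1 (φ k)).mono (hk.trans (hφ.id_le k))) hσ
    have h2 : ∀ k, L (σ ((u (φ k) : 𝓞 E) : E)) =
        ∑ i, algebraMap ℚ_[p] ℂ_[p] (((ex E (u (φ k)) i : ℤ) : PadicInt p) : ℚ_[p]) *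
          L (σ ((fundSystem E i : 𝓞 E) : E)) := by
      intro k
      have h3 := ex_spec E (u (φ k))
      have h4 : L (σ ((u (φ k) : 𝓞 E) : E)) = L (σ (((tp E (u (φ k)) : (𝓞 E)ˣ) : 𝓞 E) : E)) +
          L (σ (((∏ i, fundSystem E i ^ ex E (u (φ k)) i : (𝓞 E)ˣ) : 𝓞 E) : E)) := by
        have h5 : ((u (φ k) : 𝓞 E) : E) = (((tp E (u (φ k)) : (𝓞 E)ˣ) : 𝓞 E) : E) *
            (((∏ i, fundSystem E i ^ ex E (u (φ k)) i : (𝓞 E)ˣ) : 𝓞 E) : E) := by
          conv_lhs => rw [h3]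
          rw [Units.val_mul]
          simp only [map_mul]
        rw [h5, map_mul, hL.mul]
        · rw [map_ne_zero]
          exact_mod_cast (Units.ne_zero _)
        · rw [map_ne_zero]
          exact_mod_cast (Units.ne_zero _)
      have h6 : L (σ (((tp E (u (φ k)) : (𝓞 E)ˣ) : 𝓞 E) : E)) = 0 := by
        obtain ⟨m, hm, hm1⟩ := isOfFinOrder_iff_pow_eq_one.1
          (show IsOfFinOrder ((tp E (u (φ k)) : (𝓞 E)ˣ)) from (tp E (u (φ k))).2)
        have h7 := log_pow σ hL ((tp E (u (φ k)) : (𝓞 E)ˣ)) m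
        rw [hm1] at h7
        have h8 : σ (((1 : (𝓞 E)ˣ) : 𝓞 E) : E) = 1 := by
          rw [Units.val_one]
          simp only [map_one]
        rw [h8, hL.one] at h7
        rcases mul_eq_zero.1 h7.symm with h9 | h9
        · exact absurd (by exact_mod_cast h9) hm.ne'
        · exact h9
      rw [h4, h6, zero_add, log_prod σ hL]
      refine Finset.sum_congr rfl fun i _ => ?_
      congr 1
      simp
    simp only [h2] at h1
    have h4 : Tendsto (fun k => ∑ i, algebraMap ℚ_[p] ℂ_[p]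
        (((ex E (u (φ k)) i : ℤ) : PadicInt p) : ℚ_[p]) *
          L (σ ((fundSystem E i : 𝓞 E) : E))) atTop
        (𝓝 (∑ i, algebraMap ℚ_[p] ℂ_[p] (a i : ℚ_[p]) *
          L (σ ((fundSystem E i : 𝓞 E) : E)))) := by
      refine tendsto_finsetSum _ fun i _ => ?_
      exact ((hj.tendsto (a i)).comp (tendsto_pi_nhds.1 hlim i)).mul_const _
    exact tendsto_nhds_unique h4 h1
  rw [ha] at hlim
  have h1 : ∀ i, ∀ᶠ k in atTop, (p : ℤ) ^ n ∣ ex E (u (φ k)) i := by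
    intro i
    have h2 : Tendsto (fun k => ‖((ex E (u (φ k)) i : ℤ) : ℤ_[p])‖) atTop (𝓝 0) := by
      have h3 := (tendsto_pi_nhds.1 hlim i).norm
      simpa using h3
    have hpos : (0 : ℝ) < (p : ℝ) ^ (-(n : ℤ)) := by
      have : (0 : ℝ) < p := by exact_mod_cast hp.pos
      positivity
    filter_upwards [h2.eventually_lt_const hpos] with k hk
    have h4 := hk.le
    rw [PadicInt.norm_int_le_pow_iff_dvd] at h4
    exact_mod_cast h4
  obtain ⟨k, hk⟩ := (eventually_all.2 h1).exists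
  choose d hd using hk
  obtain ⟨w, hw⟩ := torsion_pth E p hp htors n (tp E (u (φ k))) (tp E (u (φ k))).2
  refine hu2 (φ k) (w * ∏ i, fundSystem E i ^ d i) ?_
  conv_rhs => rw [ex_spec E (u (φ k))]
  rw [mul_pow, hw, ← Finset.prod_pow]
  congr 1
  refine Finset.prod_congr rfl fun i _ => ?_
  rw [hd i, ← zpow_natCast, ← zpow_mul, mul_comm]
  push_cast
  rfl

end top

section inj

variable {K H : Type} [Field K] [NumberField K] [Field H] [NumberField H] [Algebra K H]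

/-- descent of the relations to `ℤ_p` -/
theorem rel_desc0 {S : Set (K →+* ℂ_[p])} (hS : PlaceStable S)
    {L : ℂ_[p] → ℂ_[p]} (hL : IsIwasawaLog p L) {r : ℕ}
    (ε : Fin r → (𝓞 H)ˣ) (w : Fin r → ℂ_[p])
    (hrel : ∀ τ ∈ upS H S, ∑ i, w i * L (τ ((ε i : 𝓞 H) : H)) = 0) (a : Fin r → PadicInt p)
    (hΦ : ∀ c : Fin r → PadicInt p, ∑ i, algebraMap ℚ_[p] ℂ_[p] (c i : ℚ_[p]) * w i = 0 →
        ∑ i, c i * a i = 0)
    {τ : H →+* ℂ_[p]} (hτ : τ ∈ upS H S) :
    ∑ i, algebraMap ℚ_[p] ℂ_[p] (a i : ℚ_[p]) * L (τ ((ε i : 𝓞 H) : H)) = 0 := by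
  classical
  set b := Module.finBasis ℚ_[p] (Loc p τ) with hb
  have hlm := fun i => log_mem τ hL (ε i)
  choose hmem hs using hlm
  set x : Fin r → Loc p τ := fun i => ⟨L (τ ((ε i : 𝓞 H) : H)), hmem i⟩ with hx
  have hxs : ∀ (s : Loc p τ →ₐ[ℚ_[p]] ℂ_[p]) (i : Fin r),
      s (x i) = ∑ k, algebraMap ℚ_[p] ℂ_[p] (b.repr (x i) k) * s (b k) := by
    intro s i
    conv_lhs => rw [← b.sum_repr (x i)]
    rw [map_sum]
    refine Finset.sum_congr rfl fun k _ => ?_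
    rw [Algebra.smul_def, map_mul, AlgHom.commutes]
  have hcoef : (fun k => ∑ i, w i * algebraMap ℚ_[p] ℂ_[p] (b.repr (x i) k)) = 0 := by
    apply emb_inj b
    intro s
    have h1 := hrel _ (compS_mem hS hτ s)
    have h2 : ∀ i, L (compS τ s ((ε i : 𝓞 H) : H)) =
        ∑ k, algebraMap ℚ_[p] ℂ_[p] (b.repr (x i) k) * s (b k) := by
      intro i
      rw [← hxs, ← hs i s]
    rw [← h1]
    simp only [h2, Finset.mul_sum, Finset.sum_mul]
    rw [Finset.sum_comm]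
    refine Finset.sum_congr rfl fun i _ => Finset.sum_congr rfl fun k _ => ?_
    ring
  have hcoef2 : ∀ k, ∑ i, (a i : ℚ_[p]) * b.repr (x i) k = 0 := by
    intro k
    obtain ⟨N, hN⟩ := exists_scale (Fin r) (fun i => b.repr (x i) k)
    obtain ⟨c', hc'⟩ : ∃ c' : Fin r → PadicInt p, ∀ i,
        (c' i : ℚ_[p]) = ((p : ℕ) : ℚ_[p]) ^ N * b.repr (x i) k :=
      ⟨fun i => ⟨((p : ℕ) : ℚ_[p]) ^ N * b.repr (x i) k, hN i⟩, fun i => rfl⟩
    have h1 := hΦ c' (by
      have h2 := congrFun hcoef k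
      simp only [Pi.zero_apply] at h2
      simp only [hc', map_mul, map_pow, map_natCast]
      have h3 : ∑ i, ((p : ℕ) : ℂ_[p]) ^ N * algebraMap ℚ_[p] ℂ_[p] (b.repr (x i) k) * w i =
          ((p : ℕ) : ℂ_[p]) ^ N * ∑ i, w i * algebraMap ℚ_[p] ℂ_[p] (b.repr (x i) k) := by
        rw [Finset.mul_sum]
        refine Finset.sum_congr rfl fun i _ => ?_
        ring
      rw [h3, h2, mul_zero])
    have h2 : ∑ i, ((p : ℕ) : ℚ_[p]) ^ N * b.repr (x i) k * (a i : ℚ_[p]) = 0 := by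
      have h5 : ((∑ i, c' i * a i : PadicInt p) : ℚ_[p]) = 0 := by
        rw [h1]
        rfl
      rw [PadicInt.coe_sum] at h5
      rw [← h5]
      refine Finset.sum_congr rfl fun i _ => ?_
      rw [PadicInt.coe_mul, hc']
    have h3 : ∑ i, ((p : ℕ) : ℚ_[p]) ^ N * b.repr (x i) k * (a i : ℚ_[p]) =
        ((p : ℕ) : ℚ_[p]) ^ N * ∑ i, (a i : ℚ_[p]) * b.repr (x i) k := by
      rw [Finset.mul_sum]
      refine Finset.sum_congr rfl fun i _ => ?_
      ring
    rw [h3] at h2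
    rcases mul_eq_zero.1 h2 with h4 | h4
    · exfalso
      have h5 : ((p : ℕ) : ℚ_[p]) ≠ 0 := by exact_mod_cast hpf.out.ne_zero
      exact pow_ne_zero _ h5 h4
    · exact h4
  have h3 : ∑ i, (a i : ℚ_[p]) • x i = 0 := by
    have h4 : ∀ i, x i = ∑ k, b.repr (x i) k • b k := fun i => (b.sum_repr (x i)).symm
    have h5 : ∑ i, (a i : ℚ_[p]) • x i = ∑ i, ∑ k, ((a i : ℚ_[p]) * b.repr (x i) k) • b k := by
      refine Finset.sum_congr rfl fun i _ => ?_
      conv_lhs => rw [h4 i]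
      rw [Finset.smul_sum]
      refine Finset.sum_congr rfl fun k _ => ?_
      rw [smul_smul]
    rw [h5, Finset.sum_comm]
    refine Finset.sum_eq_zero fun k _ => ?_
    rw [← Finset.sum_smul, hcoef2 k, zero_smul]
  have h4 : ((∑ i, (a i : ℚ_[p]) • x i : Loc p τ) : ℂ_[p]) = 0 := by
    rw [h3]
    rfl
  rw [← h4, AddSubmonoidClass.coe_finsetSum]
  refine Finset.sum_congr rfl fun i _ => ?_
  rw [Algebra.smul_def]
  rfl

/-- **if the units close to `1` are powers then the regulator is injective** -/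
theorem inj_of_top {S : Set (K →+* ℂ_[p])} (hS : PlaceStable S) (hT : TopS (upS H S))
    {L : ℂ_[p] → ℂ_[p]} (hL : IsIwasawaLog p L) (x : UM p H)
    (hx : ∀ τ ∈ upS H S, logLin hL τ x = 0) : x = 0 := by
  classical
  have hp : p.Prime := hpf.out
  by_contra hx0
  set w' : Fin (rank H) → ℂ_[p] := fun i => coordLin i x with hw'
  have hw'x : Th p H w' = x := Th_coord x
  have hw'0 : w' ≠ 0 := by
    intro h
    rw [h, map_zero] at hw'x
    exact hx0 hw'x.symm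
  have hne : Nonempty (Fin (rank H)) := by
    by_contra hcon
    rw [not_nonempty_iff] at hcon
    exact hw'0 (Subsingleton.elim _ _)
  obtain ⟨i₀, hi₀⟩ := Finite.exists_max (fun i => ‖w' i‖)
  have hwi₀ : w' i₀ ≠ 0 := by
    intro h
    apply hw'0
    funext i
    have h1 := hi₀ i
    rw [h, norm_zero] at h1
    exact norm_le_zero_iff.1 h1
  set w : Fin (rank H) → ℂ_[p] := fun i => (w' i₀)⁻¹ * w' i with hw
  have hw1 : ∀ i, ‖w i‖ ≤ 1 := by
    intro i
    rw [hw]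
    simp only
    rw [norm_mul, norm_inv, ← div_eq_inv_mul]
    exact div_le_one_of_le₀ (hi₀ i) (norm_nonneg _)
  have hwi : w i₀ = 1 := inv_mul_cancel₀ hwi₀
  have hrel : ∀ τ ∈ upS H S, ∑ i, w i * L (τ ((fundSystem H i : 𝓞 H) : H)) = 0 := by
    intro τ hτ
    have h1 := hx τ hτ
    rw [← hw'x, log_Th] at h1
    have h2 : ∀ i, w i * L (τ ((fundSystem H i : 𝓞 H) : H)) =
        (w' i₀)⁻¹ * (w' i * L (τ ((fundSystem H i : 𝓞 H) : H))) := fun i => mul_assoc _ _ _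
    simp only [h2]
    rw [← Finset.mul_sum, h1, mul_zero]
  obtain ⟨ψ, hψ1, hψadd, hψlt⟩ := exists_psi p
  obtain ⟨a, ha, hΦ⟩ := exists_Phi ψ hψadd hψlt w hw1
  have hrel2 : ∀ τ ∈ upS H S, ∑ i, algebraMap ℚ_[p] ℂ_[p] (a i : ℚ_[p]) *
      L (τ ((fundSystem H i : 𝓞 H) : H)) = 0 := fun τ hτ =>
    rel_desc0 hS hL (fundSystem H) w hrel a hΦ hτ
  have ha1 : PadicInt.toZMod (a i₀) = 1 := by rw [ha, hwi, hψ1]
  -- integers
  choose c hc using fun i => exists_seq (a i)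
  set u : ℕ → (𝓞 H)ˣ := fun k => ∏ i, fundSystem H i ^ c i k with hu
  obtain ⟨n, hn, hnU⟩ := exists_pow_U4 H p
  have hj : Continuous (fun x : PadicInt p => algebraMap ℚ_[p] ℂ_[p] (x : ℚ_[p])) :=
    (continuous_algebraMap ℚ_[p] ℂ_[p]).comp continuous_subtype_val
  have hlog : ∀ τ ∈ upS H S, Tendsto (fun k => L (τ (((u k : (𝓞 H)ˣ) : 𝓞 H) : H))) atTop
      (𝓝 0) := by
    intro τ hτ
    have h1 : ∀ k, L (τ (((u k : (𝓞 H)ˣ) : 𝓞 H) : H)) =
        ∑ i, algebraMap ℚ_[p] ℂ_[p] (((c i k : ℤ) : PadicInt p) : ℚ_[p]) *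
          L (τ ((fundSystem H i : 𝓞 H) : H)) := by
      intro k
      rw [hu, log_prod τ hL]
      refine Finset.sum_congr rfl fun i _ => ?_
      congr 1
      simp
    simp only [h1]
    rw [← hrel2 τ hτ]
    refine tendsto_finsetSum _ fun i _ => ?_
    exact ((hj.tendsto (a i)).comp (hc i)).mul_const _
  have hCs : ∀ M : ℕ, ∀ᶠ k in atTop, Cs (upS H S) M (((u k ^ n : (𝓞 H)ˣ) : 𝓞 H) : H) := by
    intro M
    have h1 : ∀ τ : H →+* ℂ_[p], ∀ᶠ k in atTop, τ ∈ upS H S →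
        ‖τ (((u k ^ n : (𝓞 H)ˣ) : 𝓞 H) : H) - 1‖ ≤ ((p : ℝ)⁻¹) ^ M := by
      intro τ
      by_cases hτ : τ ∈ upS H S
      · have h2 : Tendsto (fun k => 2 * ‖(n : ℂ_[p]) * L (τ (((u k : (𝓞 H)ˣ) : 𝓞 H) : H))‖) atTop
            (𝓝 0) := by
          have h3 := (((hlog τ hτ).const_mul (n : ℂ_[p])).norm).const_mul 2
          rwa [mul_zero, norm_zero, mul_zero] at h3
        have h3 : (0 : ℝ) < ((p : ℝ)⁻¹) ^ M := pow_pos pinv_pos _
        filter_upwards [h2.eventually_lt_const h3] with k hk _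
        refine (dist_U4 τ hL (u k ^ n) (hnU _)).trans ?_
        rw [log_pow τ hL]
        exact hk.le
      · exact Eventually.of_forall fun k h => absurd h hτ
    have h2 := eventually_all.2 h1
    filter_upwards [h2] with k hk τ hτ
    exact hk τ hτ
  obtain ⟨M, hM⟩ := hT n
  -- the exponent of `i₀` is prime to `p`
  have hcop : ∀ᶠ k in atTop, ¬ (p : ℤ) ∣ c i₀ k := by
    have h1 : ∀ᶠ k in atTop, ‖((c i₀ k : ℤ) : PadicInt p) - a i₀‖ < 1 := by
      have h2 := ((hc i₀).sub_const (a i₀)).norm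
      rw [sub_self, norm_zero] at h2
      exact h2.eventually_lt_const one_pos
    filter_upwards [h1] with k hk hdvd
    have h2 : ((c i₀ k : ℤ) : PadicInt p) - a i₀ ∈ RingHom.ker (PadicInt.toZMod (p := p)) := by
      rw [PadicInt.ker_toZMod, PadicInt.maximalIdeal_eq_span_p, Ideal.mem_span_singleton]
      exact zp_dvd_of_norm hk
    rw [RingHom.mem_ker, map_sub, map_intCast, ha1, sub_eq_zero] at h2
    rw [← ZMod.intCast_zmod_eq_zero_iff_dvd _ p, h2] at hdvd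
    exact one_ne_zero hdvd
  obtain ⟨k, hk1, hk2⟩ := ((hCs M).and hcop).exists
  obtain ⟨y, hy⟩ := hM _ hk1
  have h1 : cf H i₀ (Additive.ofMul (u k ^ n)) = (n : ℤ) * c i₀ k := by
    rw [ofMul_pow, map_nsmul, hu, cf_prod, nsmul_eq_mul]
  have h2 : cf H i₀ (Additive.ofMul (y ^ p ^ n)) = ((p ^ n : ℕ) : ℤ) * cf H i₀ (Additive.ofMul y) := by
    rw [ofMul_pow, map_nsmul, nsmul_eq_mul]
  rw [hy, h1] at h2
  have h3 : ((p ^ n : ℕ) : ℤ) ∣ (n : ℤ) := by
    have h4 : IsCoprime ((p ^ n : ℕ) : ℤ) (c i₀ k) := by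
      push_cast
      apply IsCoprime.pow_left
      exact ((Nat.prime_iff_prime_int.1 hp).coprime_iff_not_dvd).2 hk2
    exact h4.dvd_of_dvd_mul_right ⟨_, h2⟩
  have h4 : p ^ n ∣ n := by exact_mod_cast h3
  have h5 := Nat.le_of_dvd (Nat.pos_of_ne_zero hn) h4
  have h6 : n < p ^ n := Nat.lt_pow_self hp.one_lt
  omega

end inj

end Pool.Agent.K7.H76.LC
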