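import Mathlib
import Pool.Agent.Y44.LC.ANN
import Pool.Agent.Y548.LC.UNC
import Pool.Agent.Y847.LC.CLS
import Pool.Agent.Y447.LC.NRM
import Pool.Agent.Y447.LC.SUB
import Pool.Agent.Y37.LC.NSP2
import Pool.Agent.K7.H76.LC.KB
import Pool.Agent.K7.H76.LC.Top
import Pool.Agent.K7.H76.LC.Ram

/-!
# The field-level statement
-/

set_option autoImplicit false

namespace Pool.Agent.K7.H76.LC

open Finset NumberField IsDedekindDomain Module Pool.Agent.Y18.LC
open Pool.Agent.Y419.LC.LcpP Pool.Agent.W289.SL Pool.Agent.K7.H76.SL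

variable {p : ℕ} [hpf : Fact p.Prime]

/-- the prime below -/
lemma exists_below' {k K : Type} [Field k] [NumberField k] [Field K] [NumberField K] [Algebra k K]
    (v : HeightOneSpectrum (𝓞 K)) : ∃ 𝔮 : HeightOneSpectrum (𝓞 k), Above 𝔮 v := by
  have h0 : v.asIdeal.comap (algebraMap (𝓞 k) (𝓞 K)) ≠ ⊥ := Ideal.IsIntegral.comap_ne_bot _ v.ne_bot
  exact ⟨⟨v.asIdeal.comap (algebraMap (𝓞 k) (𝓞 K)), Ideal.comap_isPrime _ _, h0⟩, fun x => Iff.rfl⟩

/-- a prime above -/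
lemma exists_above {k K : Type} [Field k] [NumberField k] [Field K] [NumberField K] [Algebra k K]
    (v : HeightOneSpectrum (𝓞 k)) : ∃ w : HeightOneSpectrum (𝓞 K), Above v w := by
  obtain ⟨⟨w, hwp, hwv⟩⟩ : Nonempty (v.asIdeal.primesOver (𝓞 K)) := inferInstance
  have hw0 : w ≠ ⊥ := by
    rintro rfl
    apply v.ne_bot
    rw [hwv.over, Ideal.under_def]
    exact Ideal.comap_bot_of_injective _ (FaithfulSMul.algebraMap_injective _ _)
  exact ⟨⟨w, hwp, hw0⟩, above_of_liesOver hwv⟩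

/-- no `p`-torsion in the subfields -/
lemma no_tors_sub {F : Type} [Field F] [NumberField F] {E : Type} [Field E] [NumberField E]
    (f : E →+* F) (hp2 : p ≠ 2) {S : Set (F →+* ℂ_[p])} (hne : S.Nonempty) (hun : Ur S)
    (ζ : (𝓞 E)ˣ) (h : ζ ^ p = 1) : ζ = 1 := by
  let u : Fˣ := Units.map f.toMonoidHom (uH E ζ)
  have hu : u ∈ EU F := by
    rw [mem_EU]
    exact ⟨Units.map (RingOfIntegers.mapRingHom f).toMonoidHom ζ, rfl⟩
  have h1 : u = 1 := by
    apply eq_one_of_pow' hp2 hne hun 1 hu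
    rw [pow_one, ← map_pow, ← map_pow, h, map_one, map_one]
  have h2 : f ((ζ : 𝓞 E) : E) = f 1 := by
    rw [map_one]
    exact congrArg (fun t : Fˣ => (t : F)) h1
  have h3 := f.injective h2
  apply Units.ext
  apply RingOfIntegers.ext
  rw [h3]
  simp

variable {k K : Type} [Field k] [NumberField k] [Field K] [NumberField K] [Algebra k K]

/-- the places of the composite are unramified -/
lemma ur_comp {F : Type} [Field F] [NumberField F] [Algebra k F] [Algebra K F]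
    [IsScalarTower k K F] {F₀ : IntermediateField k F} (hG : IsGalois k F₀)
    (htop : IntermediateField.adjoin K (F₀ : Set F) = ⊤) {φ : k →+* ℂ_[p]}
    {v₀ : HeightOneSpectrum (𝓞 k)} (hv₀ : Induced v₀ φ) (hU : Unr F₀ v₀)
    (hUr : Ur (upS K ({φ} : Set (k →+* ℂ_[p])))) :
    Ur (upS F (upS K ({φ} : Set (k →+* ℂ_[p])))) := by
  intro τ hτ y hy
  obtain ⟨w, hw, -⟩ := exists_ind τ
  obtain ⟨v, hv, -⟩ := exists_ind (τ.comp (algebraMap K F))
  have h1 : Above v w := fun x => by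
    rw [hw, hv]
    rfl
  have h2 : Above v₀ v := fun x => by
    have h3 : (τ.comp (algebraMap K F)).comp (algebraMap k K) = φ := hτ
    rw [hv, hv₀, ← h3]
    rfl
  exact ur_up hw (ram' hG htop hU h2 h1) (hUr _ hτ) y hy

/-- **the field-level statement** -/
theorem stepK (hp2 : p ≠ 2) [IsTotallyComplex k] (h2k : finrank ℚ k = 2) (φ : k →+* ℂ_[p])
    {v₀ : HeightOneSpectrum (𝓞 k)} (hv₀ : Induced v₀ φ)
    (hTK : TopS (upS K ({φ} : Set (k →+* ℂ_[p]))))
    (hUr : Ur (upS K ({φ} : Set (k →+* ℂ_[p])))) (hpk : ¬ p ∣ finrank k K) :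
    ∃ W : ℕ, ∀ (m : ℕ) (F : Type) [Field F] [NumberField F] [Algebra k F] [Algebra K F]
      [IsScalarTower k K F] (F₀ : IntermediateField k F), IsGalois k F₀ →
      (∀ g h : F₀ ≃ₐ[k] F₀, g * h = h * g) → (∀ g : F₀ ≃ₐ[k] F₀, g ^ p = 1) →
      finrank k F₀ = p ^ m → IntermediateField.adjoin K (F₀ : Set F) = ⊤ → Unr F₀ v₀ →
      (∀ 𝔮 : HeightOneSpectrum (𝓞 k), Unr F₀ 𝔮 ∨
        ∀ v v' : HeightOneSpectrum (𝓞 K), Above 𝔮 v → Above 𝔮 v' → v = v') →
      ∃ 𝓖 : Finset (IntermediateField k F), p ^ (m - W) ≤ 1 + (p - 1) * 𝓖.card ∧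
        ∀ L₀ ∈ 𝓖, L₀ ≤ F₀ ∧ finrank k L₀ = p ∧
          TopS (upS ↥(IntermediateField.adjoin K (L₀ : Set F))
            (upS K ({φ} : Set (k →+* ℂ_[p])))) := by
  classical
  have hp : p.Prime := hpf.out
  have hneK : (upS K ({φ} : Set (k →+* ℂ_[p]))).Nonempty := by
    obtain ⟨τ, hτ⟩ := exists_ext (H := K) φ
    exact ⟨τ, hτ⟩
  obtain ⟨B, hB⟩ := kbs hp2 hUr hTK
  obtain ⟨W, hW⟩ := core' Pool.Agent.Y44.LC.ann Pool.Agent.Y548.LC.unc Pool.Agent.Y447.LC.nrm
    Pool.Agent.Y847.LC.cls Pool.Agent.Y37.LC.nsp2 K hp2 (upS K ({φ} : Set (k →+* ℂ_[p]))) hneK B hB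
  refine ⟨W, ?_⟩
  intro m F _ _ _ _ _ F₀ hGF hcF heF hF htop hv₀F hram
  obtain ⟨hG, hcomm, hexp, hcard, hst, hn, hH⟩ := fld' (K := K) hGF hcF heF hF htop hpk
  obtain ⟨n, hWn⟩ := hW m
  have hne : (upS F (upS K ({φ} : Set (k →+* ℂ_[p])))).Nonempty := by
    obtain ⟨σ, hσ⟩ := hneK
    obtain ⟨τ, hτ⟩ := exists_ext (H := F) σ
    refine ⟨τ, ?_⟩
    show τ.comp (algebraMap K F) ∈ upS K ({φ} : Set (k →+* ℂ_[p]))
    rw [hτ]
    exact hσ
  have hun : Ur (upS F (upS K ({φ} : Set (k →+* ℂ_[p])))) :=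
    ur_comp hGF htop hv₀ hv₀F hUr
  have hram' : Ram k K F := by
    intro v
    obtain ⟨𝔮, h𝔮⟩ := exists_below' (k := k) v
    rcases hram 𝔮 with h | h
    · left
      obtain ⟨w, hw⟩ := exists_above (K := F) v
      exact ⟨w, fun x => ram' hGF htop h h𝔮 hw x⟩
    · right
      intro v' hv'
      apply h v' v _ h𝔮
      intro x
      rw [← h𝔮 x, ← Ideal.mem_comap, ← Ideal.mem_comap, hv']
  let F₁ : IntermediateField ℚ F := F₀.restrictScalars ℚ
  have hF₁ : ∀ x : F, x ∈ F₁ ↔ x ∈ F₀ := fun x => Iff.rfl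
  letI : Fintype (F ≃ₐ[K] F) := Fintype.ofFinite _
  letI : Fintype (Subgroup (F ≃ₐ[K] F)) := Fintype.ofFinite _
  set 𝓢 : Finset (Subgroup (F ≃ₐ[K] F)) := univ.filter (fun H => H.index = p) with h𝓢
  set 𝓗 : Finset (Subgroup (F ≃ₐ[K] F)) :=
    𝓢.filter (fun H => BadS F₁ (upS F (upS K ({φ} : Set (k →+* ℂ_[p])))) n H) with h𝓗
  set 𝓖' : Finset (Subgroup (F ≃ₐ[K] F)) :=
    𝓢.filter (fun H => ¬ BadS F₁ (upS F (upS K ({φ} : Set (k →+* ℂ_[p])))) n H) with h𝓖'
  have hS : 𝓢.card * (p - 1) + 1 = p ^ m := by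
    letI : CommGroup (F ≃ₐ[K] F) := { (inferInstance : Group (F ≃ₐ[K] F)) with mul_comm := hcomm }
    have h1 := Pool.Agent.Y447.LC.sub p m (F ≃ₐ[K] F) hexp
      (by rw [← Nat.card_eq_fintype_card]; exact hcard)
    have h2 : Nat.card {H : Subgroup (F ≃ₐ[K] F) // H.index = p} = 𝓢.card := by
      rw [Nat.card_eq_fintype_card, Fintype.card_subtype]
    rw [← h2]
    exact h1
  have hn1 : ¬ p ∣ finrank F₁ F := hn
  have hst1 : ∀ g : F ≃ₐ[K] F, ∀ x ∈ F₁, g x ∈ F₁ := hst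
  have hbad : 𝓗.card * (p - 1) + p ^ (m - W) ≤ p ^ m := by
    refine hWn F F₁ k (fun x => ?_) hG hcomm hexp hcard hst1 hn1 hun hram' 𝓗 (fun H hH' => ?_)
    · rw [hF₁, ← IsScalarTower.algebraMap_apply k K F]
      exact F₀.algebraMap_mem x
    · rw [h𝓗, mem_filter, h𝓢, mem_filter] at hH'
      exact ⟨hH'.1.2, hH'.2⟩
  have hsum : 𝓗.card + 𝓖'.card = 𝓢.card := Finset.card_filter_add_card_filter_not _
  have hgood : p ^ (m - W) ≤ 1 + (p - 1) * 𝓖'.card := by
    have h1 : 𝓢.card * (p - 1) = 𝓗.card * (p - 1) + 𝓖'.card * (p - 1) := by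
      rw [← hsum, add_mul]
    rw [mul_comm (p - 1)]
    omega
  have hch : ∀ H : Subgroup (F ≃ₐ[K] F), ∃ L₀ : IntermediateField k F, H ∈ 𝓖' →
      L₀ ≤ F₀ ∧ finrank k L₀ = p ∧
      IntermediateField.adjoin K (L₀ : Set F) = IntermediateField.fixedField H ∧
      ∀ x ∈ F₀, x ∈ IntermediateField.fixedField H → x ∈ L₀ := by
    intro H
    by_cases hH' : H ∈ 𝓖'
    · have h1 : H.index = p := by
        rw [h𝓖', mem_filter, h𝓢, mem_filter] at hH'
        exact hH'.1.2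
      obtain ⟨L₀, h2⟩ := hH H h1
      exact ⟨L₀, fun _ => h2⟩
    · exact ⟨⊥, fun h => absurd h hH'⟩
  choose Lf hLf using hch
  refine ⟨𝓖'.image Lf, ?_, ?_⟩
  · rw [Finset.card_image_of_injOn]
    · exact hgood
    · intro H1 hH1 H2 hH2 heq
      have heq' : Lf H1 = Lf H2 := heq
      have h1 := (hLf H1 hH1).2.2.1
      have h2 := (hLf H2 hH2).2.2.1
      rw [heq', h2] at h1
      have h3 := congrArg IntermediateField.fixingSubgroup h1
      rw [IntermediateField.fixingSubgroup_fixedField,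
        IntermediateField.fixingSubgroup_fixedField] at h3
      exact h3.symm
  · intro L₀ hL₀
    obtain ⟨H, hH', rfl⟩ := Finset.mem_image.1 hL₀
    obtain ⟨h2, h3, h4, h5⟩ := hLf H hH'
    refine ⟨h2, h3, ?_⟩
    have hbad' : ¬ BadS F₁ (upS F (upS K ({φ} : Set (k →+* ℂ_[p])))) n H := by
      rw [h𝓖', mem_filter] at hH'
      exact hH'.2
    have hab : IsAbelianGalois k F₀ :=
      { toIsGalois := hGF
        toIsMulCommutative := ⟨⟨hcF⟩⟩ }
    have hab2 : IsAbelianGalois k (Lf H) :=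
      @IsAbelianGalois.of_algHom k (Lf H) F₀ _ _ _ _ _ (IntermediateField.inclusion h2) hab
    have hT : TopS (upS (Lf H) ({φ} : Set (k →+* ℂ_[p]))) := by
      apply top_of_liz (no_tors_sub (algebraMap (Lf H) F) hp2 hne hun)
      exact bb_liz h2k (fun g h => mul_comm' g h) φ
    have hLE : ∀ x ∈ Lf H, x ∈ IntermediateField.adjoin K (Lf H : Set F) :=
      fun x hx => IntermediateField.subset_adjoin _ _ hx
    refine top_of_good' (F₀ := F₁) (S := upS F (upS K ({φ} : Set (k →+* ℂ_[p]))))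
      (L₀ := (Lf H).restrictScalars ℚ) (SL := upS (Lf H) ({φ} : Set (k →+* ℂ_[p])))
      Pool.Agent.Y447.LC.nrm hst1 hp2 hn1 ?_ hbad' h4 hLE h5 ?_ ?_ hT
    · intro τ hτ τ' h
      have h6 : (τ.comp (algebraMap K F)).comp (algebraMap k K) = φ := hτ
      show (τ'.comp (algebraMap K F)).comp (algebraMap k K) = φ
      rw [← h6]
      ext x
      show τ' (algebraMap K F (algebraMap k K x)) = τ (algebraMap K F (algebraMap k K x))
      apply h
      rw [hF₁, ← IsScalarTower.algebraMap_apply k K F]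
      exact F₀.algebraMap_mem x
    · intro τ hτ
      have h6 : (τ.comp (algebraMap (Lf H) F)).comp (algebraMap k (Lf H)) = φ := hτ
      show (τ.comp (algebraMap K F)).comp (algebraMap k K) = φ
      rw [← h6]
      ext x
      show τ (algebraMap K F (algebraMap k K x)) = τ (algebraMap (Lf H) F (algebraMap k (Lf H) x))
      rw [← IsScalarTower.algebraMap_apply k K F, ← IsScalarTower.algebraMap_apply k (Lf H) F]
    · intro τ hτ
      exact hτ

end Pool.Agent.K7.H76.LC
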