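import Mathlib
import Pool.Agent.K7.H76.LC.Step2

/-!
# Subfields of a large field, over the base `k`
-/

set_option autoImplicit false

namespace Pool.Agent.K7.H76.LC

open NumberField IsDedekindDomain Module
open Pool.Agent.W289.SL Pool.Agent.K7.H76.SL

/-- elementary abelian extensions of `k` -/
def EAk (p : ℕ) (k A : Type) [Field k] [Field A] [Algebra k A] : Prop :=
  IsGalois k A ∧ (∀ g h : A ≃ₐ[k] A, g * h = h * g) ∧ ∀ g : A ≃ₐ[k] A, g ^ p = 1

lemma EAk.congr {p : ℕ} {k A B : Type} [Field k] [Field A] [Field B] [Algebra k A] [Algebra k B]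
    (e : A ≃ₐ[k] B) (h : EAk p k A) : EAk p k B := by
  obtain ⟨h1, h2, h3⟩ := h
  refine ⟨IsGalois.of_algEquiv e, fun g h => ?_, fun g => ?_⟩
  · apply (AlgEquiv.autCongr e).symm.injective
    rw [map_mul, map_mul, h2]
  · apply (AlgEquiv.autCongr e).symm.injective
    rw [map_pow, map_one, h3]

section unr

variable {k A B : Type} [Field k] [NumberField k] [Field A] [NumberField A] [Field B]
  [NumberField B] [Algebra k A] [Algebra k B]

/-- unramified primes descend -/
lemma Unr.of_hom {𝔮 : HeightOneSpectrum (𝓞 k)} (f : A →ₐ[k] B) (h : Unr B 𝔮) : Unr A 𝔮 := by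
  letI : Algebra A B := f.toRingHom.toAlgebra
  haveI : IsScalarTower k A B := IsScalarTower.of_algebraMap_eq' f.comp_algebraMap.symm
  obtain ⟨w, hw⟩ := h
  obtain ⟨v, hv⟩ := exists_below' (k := A) w
  refine ⟨v, ?_⟩
  have hAw : Above 𝔮 w := above_of_val hw
  have hAv : Above 𝔮 v := by
    intro x
    rw [← hAw x, ← hv (algebraMap (𝓞 k) (𝓞 A) x)]
    have h1 : algebraMap (𝓞 A) (𝓞 B) (algebraMap (𝓞 k) (𝓞 A) x) = algebraMap (𝓞 k) (𝓞 B) x := by
      apply RingOfIntegers.ext
      show algebraMap A B (algebraMap k A (x : k)) = algebraMap k B (x : k)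
      rw [← IsScalarTower.algebraMap_apply k A B]
    rw [h1]
  haveI := liesOver_of_above hAv
  haveI := liesOver_of_above hv
  apply val_of_idx_one (liesOver_of_above hAv)
  -- the ramification index
  obtain ⟨π, hπ⟩ := 𝔮.valuation_exists_uniformizer k
  have h1 := HeightOneSpectrum.valuation_liesOver A 𝔮 v π
  have h2 := HeightOneSpectrum.valuation_liesOver B v w (algebraMap k A π)
  rw [← h1, ← IsScalarTower.algebraMap_apply k A B, hw π, hπ, ← pow_mul,
    Ideal.ramificationIdx'_eq_ramificationIdx 𝔮.asIdeal v.asIdeal 𝔮.ne_bot,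
    ← WithZero.exp_nsmul] at h2
  have h3 := WithZero.exp_injective h2
  simp only [smul_neg, nsmul_eq_mul, mul_one, Nat.cast_mul, neg_inj] at h3
  have h4 : v.asIdeal.ramificationIdx (𝓞 k) *
      Ideal.ramificationIdx' v.asIdeal w.asIdeal = 1 := by exact_mod_cast h3
  exact Nat.eq_one_of_mul_eq_one_right h4

end unr

section top

variable {p : ℕ} [hpf : Fact p.Prime]

lemma upS_upS {k K F : Type} [Field k] [Field K] [Field F] [Algebra k K] [Algebra K F]
    [Algebra k F] [IsScalarTower k K F] (S : Set (k →+* ℂ_[p])) :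
    upS F (upS K S) = upS F S := by
  ext τ
  show (τ.comp (algebraMap K F)).comp (algebraMap k K) ∈ S ↔ τ.comp (algebraMap k F) ∈ S
  rw [RingHom.comp_assoc, ← IsScalarTower.algebraMap_eq]

lemma TopS.congr {k A B : Type} [Field k] [Field A] [NumberField A] [Field B] [NumberField B]
    [Algebra k A] [Algebra k B] (e : A ≃ₐ[k] B) {S : Set (k →+* ℂ_[p])}
    (h : TopS (upS A S)) : TopS (upS B S) := by
  intro n
  obtain ⟨M, hM⟩ := h n
  refine ⟨M, fun u hu => ?_⟩
  let f : 𝓞 B →+* 𝓞 A := RingOfIntegers.mapRingHom (e.symm : B →+* A)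
  let g : 𝓞 A →+* 𝓞 B := RingOfIntegers.mapRingHom (e : A →+* B)
  obtain ⟨w, hw⟩ := hM (Units.map f.toMonoidHom u) (fun σ hσ => by
    have h1 : σ.comp (e.symm : B →+* A) ∈ upS B S := by
      show (σ.comp (e.symm : B →+* A)).comp (algebraMap k B) ∈ S
      have h2 : (σ.comp (e.symm : B →+* A)).comp (algebraMap k B) = σ.comp (algebraMap k A) := by
        ext x
        show σ (e.symm (algebraMap k B x)) = σ (algebraMap k A x)
        rw [e.symm.commutes]
      rw [h2]
      exact hσ
    exact hu _ h1)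
  refine ⟨Units.map g.toMonoidHom w, ?_⟩
  rw [← map_pow, hw]
  apply Units.ext
  apply RingOfIntegers.ext
  show e (e.symm ((u : 𝓞 B) : B)) = ((u : 𝓞 B) : B)
  rw [e.apply_symm_apply]

end top

variable {k Ω : Type} [Field k] [NumberField k] [Field Ω] [Algebra k Ω]

/-- finite extensions of `k` in `Ω` are number fields -/
lemma nf_of' (S : IntermediateField k Ω) (h : FiniteDimensional k S) : NumberField S :=
  NumberField.of_module_finite k S

/-- `L / k` is unramified at `𝔮` -/
def UnrF (L : IntermediateField k Ω) (𝔮 : HeightOneSpectrum (𝓞 k)) : Prop :=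
  ∃ _ : NumberField L, Unr L 𝔮

/-- there is only one prime of `K` above `𝔮` -/
def NonSk (K : IntermediateField k Ω) (𝔮 : HeightOneSpectrum (𝓞 k)) : Prop :=
  ∃ _ : NumberField K, ∀ v v' : HeightOneSpectrum (𝓞 K), Above 𝔮 v → Above 𝔮 v' → v = v'

/-- units which are close to one at the places above `φ` are `p`-powers -/
def TopF {p : ℕ} [Fact p.Prime] (H : IntermediateField k Ω) (φ : k →+* ℂ_[p]) : Prop :=
  ∃ _ : NumberField H, TopS (upS H ({φ} : Set (k →+* ℂ_[p])))

lemma UnrF.mono {L L' : IntermediateField k Ω} (h : L ≤ L') {𝔮 : HeightOneSpectrum (𝓞 k)}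
    (hL : FiniteDimensional k L) (h' : UnrF L' 𝔮) : UnrF L 𝔮 := by
  obtain ⟨h1, h2⟩ := h'
  have h3 := nf_of' L hL
  exact ⟨h3, Unr.of_hom (IntermediateField.inclusion h) h2⟩

lemma TopF.of_hom {p : ℕ} [Fact p.Prime] {A : Type} [Field A] [NumberField A] [Algebra k A]
    (j : A →ₐ[k] Ω) {H : IntermediateField k Ω} (hH : ∀ x, x ∈ H ↔ ∃ y, j y = x)
    {φ : k →+* ℂ_[p]} (hT : TopS (upS A ({φ} : Set (k →+* ℂ_[p])))) : TopF H φ := by
  let f : A →ₐ[k] H := j.codRestrict H.toSubalgebra (fun x => (hH _).2 ⟨x, rfl⟩)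
  have hf : Function.Bijective f := by
    refine ⟨f.toRingHom.injective, fun x => ?_⟩
    obtain ⟨y, hy⟩ := (hH x).1 x.2
    exact ⟨y, Subtype.ext hy⟩
  let e : A ≃ₐ[k] H := AlgEquiv.ofBijective f hf
  haveI : FiniteDimensional k A := FiniteDimensional.right ℚ k A
  have h1 : FiniteDimensional k H := LinearEquiv.finiteDimensional e.toLinearEquiv
  have h2 : NumberField H := nf_of' H h1
  exact ⟨h2, TopS.congr e hT⟩

lemma finite_sub' (F₀ : IntermediateField k Ω) (h : FiniteDimensional k F₀) :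
    Finite {L : IntermediateField k Ω // L ≤ F₀} := by
  have hnf : NumberField F₀ := nf_of' F₀ h
  have h1 : Finite (IntermediateField k F₀) :=
    Field.finite_intermediateField_of_exists_primitive_element k F₀
      (Field.exists_primitive_element k F₀)
  refine Finite.of_injective (fun L : {L : IntermediateField k Ω // L ≤ F₀} =>
    IntermediateField.restrict L.2) ?_
  intro L L' h
  have h' : IntermediateField.restrict L.2 = IntermediateField.restrict L'.2 := h
  apply Subtype.ext
  rw [← IntermediateField.lift_restrict L.2, h', IntermediateField.lift_restrict]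

end Pool.Agent.K7.H76.LC
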