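import Mathlib
import Pool.Agent.K7.H76.LC.Omega

/-!
# Descent of Kummer extensions
-/

set_option autoImplicit false

namespace Pool.Agent.K7.H76.LC

open IntermediateField Module

section kummer

variable {p : ℕ} [hpf : Fact p.Prime] {k Ω : Type} [Field k] [Field Ω] [Algebra k Ω]

/-- the elements of the eigenspace of the cyclotomic character -/
def Eig (p : ℕ) (k : Type) {Ω : Type} [Field k] [Field Ω] [Algebra k Ω] (ζ α : Ω) : Prop :=
  ∀ (σ : Ω ≃ₐ[k] Ω) (t : ℕ), σ ζ = ζ ^ t → ∃ β ∈ adjoin k {ζ}, σ α = α ^ t * β ^ p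

/-- roots of unity -/
lemma pow_eq_exists {K : Type} [Field K] {ζ : K} (hζ : IsPrimitiveRoot ζ p) {x y : K} (hy : y ≠ 0)
    (h : x ^ p = y ^ p) : ∃ j : ℕ, x = ζ ^ j * y := by
  have h1 : (x / y) ^ p = 1 := by rw [div_pow, h, div_self (pow_ne_zero _ hy)]
  obtain ⟨j, -, hj⟩ := hζ.eq_pow_of_pow_eq_one h1
  exact ⟨j, by rw [hj, div_mul_cancel₀ _ hy]⟩

/-- automorphisms map primitive roots of unity to powers -/
lemma aut_pow {K : Type} [Field K] [Algebra k K] {ζ : K} (hζ : IsPrimitiveRoot ζ p)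
    (σ : K ≃ₐ[k] K) : ∃ t : ℕ, σ ζ = ζ ^ t := by
  obtain ⟨j, hj⟩ := pow_eq_exists hζ (y := 1) (x := σ ζ) one_ne_zero (by
    rw [← map_pow, hζ.pow_eq_one, map_one, one_pow])
  exact ⟨j, by rw [hj, mul_one]⟩

variable [CharZero k] [IsAlgClosed Ω] [Algebra.IsAlgebraic k Ω]

theorem kummer {ζ α a : Ω} (hζ : IsPrimitiveRoot ζ p) (hα : α ∈ adjoin k {ζ})
    (hα0 : α ≠ 0) (ha : a ^ p = α) (hEig : Eig p k ζ α) :
    ∃ E L : IntermediateField k Ω, FiniteDimensional k E ∧ IsGalois k E ∧ ζ ∈ E ∧ a ∈ E ∧ L ≤ E ∧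
      EAk p k L ∧ E ≤ adjoin k {ζ} ⊔ L ∧
      (∀ g : E ≃ₐ[k] E, (∀ x : E, (x : Ω) = ζ → g x = x) → (∀ x : E, (x : Ω) = a → g x = x) →
        g = 1) := by
  classical
  have hp : p.Prime := hpf.out
  haveI : NeZero p := ⟨hp.ne_zero⟩
  have hno : Normal k Ω := ⟨fun x => IsAlgClosed.splits _⟩
  have hΩ : IsGalois k Ω := { to_isSeparable := inferInstance, to_normal := hno }
  have ha0 : a ≠ 0 := by
    rintro rfl
    rw [zero_pow hp.ne_zero] at ha
    exact hα0 ha.symm
  set E : IntermediateField k Ω := adjoin k ({ζ, a} : Set Ω) with hE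
  have hζE : ζ ∈ E := subset_adjoin _ _ (Or.inl rfl)
  have haE : a ∈ E := subset_adjoin _ _ (Or.inr rfl)
  have hkE : adjoin k {ζ} ≤ E := by
    rw [adjoin_simple_le_iff]
    exact hζE
  have hfd : FiniteDimensional k E := by
    apply IntermediateField.finiteDimensional_adjoin
    intro x _
    exact (Algebra.IsAlgebraic.isAlgebraic x).isIntegral
  -- the images of `a`
  have himg : ∀ (σ : Ω ≃ₐ[k] Ω) (t : ℕ), σ ζ = ζ ^ t → ∃ β ∈ adjoin k {ζ}, ∃ j : ℕ,
      σ a = ζ ^ j * (a ^ t * β) := by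
    intro σ t ht
    obtain ⟨β, hβ, h1⟩ := hEig σ t ht
    have hβ0 : a ^ t * β ≠ 0 := by
      intro h
      have h2 : σ α = 0 := by
        rw [h1, ← ha, ← pow_mul, mul_comm p t, pow_mul, ← mul_pow, h, zero_pow hp.ne_zero]
      rw [map_eq_zero] at h2
      exact hα0 h2
    refine ⟨β, hβ, pow_eq_exists hζ hβ0 ?_⟩
    rw [← map_pow, ha, h1, mul_pow, ← pow_mul, mul_comm t p, pow_mul, ha]
  have hnormal : Normal k E := by
    rw [normal_iff_forall_map_le']
    intro σ
    obtain ⟨t, ht⟩ := aut_pow hζ σ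
    have ht' : σ ζ = ζ ^ t := ht
    rw [hE, adjoin_map, adjoin_le_iff]
    rintro _ ⟨x, hx, rfl⟩
    rcases hx with rfl | hx
    · show σ _ ∈ E
      rw [ht']
      exact pow_mem hζE t
    · have hx' : x = a := hx
      subst hx'
      obtain ⟨β, hβ, j, hj⟩ := himg σ t ht'
      show σ _ ∈ E
      rw [hj]
      exact mul_mem (pow_mem hζE j) (mul_mem (pow_mem haE t) (hkE hβ))
  have hgal : IsGalois k E := { to_isSeparable := inferInstance, to_normal := hnormal }
  -- the generators in `E`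
  set z : E := ⟨ζ, hζE⟩ with hz
  set b : E := ⟨a, haE⟩ with hb
  have hb0 : b ≠ 0 := by
    intro h
    exact ha0 (congrArg Subtype.val h)
  have hzp : IsPrimitiveRoot z p := by
    rw [← IsPrimitiveRoot.map_iff_of_injective (f := (algebraMap E Ω)) (algebraMap E Ω).injective]
    exact hζ
  have hext : ∀ g : E ≃ₐ[k] E, g z = z → g b = b → g = 1 := by
    intro g h1 h2
    apply AlgEquiv.ext
    intro x
    let T : IntermediateField k Ω := (fixedField (Subgroup.zpowers g)).map E.val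
    have hT : ∀ y : E, g y = y → (y : Ω) ∈ T := by
      intro y hy
      refine ⟨y, ?_, rfl⟩
      rintro ⟨h, n, rfl⟩
      have h4 : g ∈ MulAction.stabilizer (E ≃ₐ[k] E) y := hy
      exact Subgroup.zpow_mem _ h4 n
    have hET : E ≤ T := by
      rw [hE, adjoin_le_iff]
      rintro y (rfl | hy)
      · exact hT z h1
      · have hy' : y = a := hy
        rw [hy']
        exact hT b h2
    obtain ⟨y, hy, hyx⟩ := hET x.2
    have h3 : y = x := Subtype.ext hyx
    subst h3
    exact hy ⟨g, Subgroup.mem_zpowers g⟩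
  -- the action of `g` on `b`
  have hgb : ∀ (g : E ≃ₐ[k] E) (t : ℕ), g z = z ^ t → ∃ (β : E) (j : ℕ),
      (β : Ω) ∈ adjoin k {ζ} ∧ g b = z ^ j * (b ^ t * β) := by
    intro g t ht
    have h1 : g.liftNormal Ω ζ = ζ ^ t := by
      have h2 := g.liftNormal_commutes Ω z
      rw [ht] at h2
      exact h2
    obtain ⟨β, hβ, j, hj⟩ := himg _ t h1
    refine ⟨⟨β, hkE hβ⟩, j, hβ, ?_⟩
    apply Subtype.ext
    have h2 := g.liftNormal_commutes Ω b
    have h3 : ((g b : E) : Ω) = g.liftNormal Ω a := h2.symm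
    rw [h3, hj]
    rfl
  have hτk : ∀ τ : E ≃ₐ[k] E, τ z = z → ∀ β : E, (β : Ω) ∈ adjoin k {ζ} → τ β = β := by
    intro τ hτ β hβ
    let T : IntermediateField k Ω := (fixedField (Subgroup.zpowers τ)).map E.val
    have hET : adjoin k {ζ} ≤ T := by
      rw [adjoin_simple_le_iff]
      refine ⟨z, ?_, rfl⟩
      rintro ⟨h, n, rfl⟩
      have h4 : τ ∈ MulAction.stabilizer (E ≃ₐ[k] E) z := hτ
      exact Subgroup.zpow_mem _ h4 n
    obtain ⟨y, hy, hyx⟩ := hET hβ
    have h3 : y = β := Subtype.ext hyx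
    subst h3
    exact hy ⟨τ, Subgroup.mem_zpowers τ⟩
  have hτb : ∀ τ : E ≃ₐ[k] E, τ z = z → ∃ c : ℕ, τ b = z ^ c * b := by
    intro τ hτ
    apply pow_eq_exists hzp hb0
    rw [← map_pow]
    have h1 : ((b ^ p : E) : Ω) ∈ adjoin k {ζ} := by
      have h2 : ((b ^ p : E) : Ω) = a ^ p := rfl
      rw [h2, ha]
      exact hα
    exact hτk τ hτ _ h1
  -- the cyclotomic character
  let f : (E ≃ₐ[k] E) →* (ZMod p)ˣ := hzp.autToPow k
  have hf : ∀ g : E ≃ₐ[k] E, g z = z ^ ((f g : (ZMod p)ˣ) : ZMod p).val :=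
    fun g => (hzp.autToPow_spec k g).symm
  have hker : ∀ τ : E ≃ₐ[k] E, f τ = 1 → τ z = z := by
    intro τ hτ
    rw [hf, hτ, Units.val_one, ZMod.val_one, pow_one]
  have hcomm : ∀ g h : E ≃ₐ[k] E, g * h = h * g := by
    haveI : IsCyclic (ZMod p)ˣ := inferInstance
    refine (f.isMulCommutative_of_isCyclic_of_ker_le_center ?_).is_comm.comm
    intro τ hτ
    rw [Subgroup.mem_center_iff]
    intro g
    have hτz := hker τ hτ
    obtain ⟨c, hc⟩ := hτb τ hτz
    obtain ⟨β, j, hβ, hj⟩ := hgb g _ (hf g)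
    set t := ((f g : (ZMod p)ˣ) : ZMod p).val with ht
    have h5 : (τ * g)⁻¹ * (g * τ) = 1 := by
      apply hext
      · show (τ * g).symm (g (τ z)) = z
        rw [hτz, AlgEquiv.symm_apply_eq]
        show g z = τ (g z)
        rw [hf g, map_pow, hτz]
      · show (τ * g).symm (g (τ b)) = b
        rw [AlgEquiv.symm_apply_eq]
        show g (τ b) = τ (g b)
        rw [hc, hj, map_mul, map_pow, hf g, map_mul, map_mul, map_pow, map_pow, hτz, hc,
          hτk τ hτz β hβ, hj]
        ring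
    rw [inv_mul_eq_one] at h5
    exact h5.symm
  have hpow : ∀ τ : E ≃ₐ[k] E, f τ = 1 → τ ^ p = 1 := by
    intro τ hτ
    have hτz := hker τ hτ
    obtain ⟨c, hc⟩ := hτb τ hτz
    have h1 : ∀ n : ℕ, (τ ^ n) z = z ∧ (τ ^ n) b = z ^ (c * n) * b := by
      intro n
      induction n with
      | zero => simp
      | succ n ih =>
        rw [pow_succ', AlgEquiv.mul_apply, AlgEquiv.mul_apply, ih.1, ih.2, map_mul, map_pow, hτz, hc]
        refine ⟨rfl, ?_⟩
        ring
    apply hext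
    · exact (h1 p).1
    · rw [(h1 p).2, mul_comm c p, pow_mul, hzp.pow_eq_one, one_pow, one_mul]
  have hall : ∀ g : E ≃ₐ[k] E, (g ^ p) ^ (p - 1) = 1 := by
    intro g
    rw [← pow_mul, mul_comm, pow_mul]
    apply hpow
    rw [map_pow]
    exact ZMod.units_pow_card_sub_one_eq_one p (f g)
  -- the subgroup of the elements of order dividing `p - 1`
  let P : Subgroup (E ≃ₐ[k] E) :=
    { carrier := {g | g ^ (p - 1) = 1}
      one_mem' := one_pow _
      mul_mem' := fun {g h} hg hh => by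
        show (g * h) ^ (p - 1) = 1
        have h1 : Commute g h := hcomm g h
        rw [h1.mul_pow, show g ^ (p - 1) = 1 from hg, show h ^ (p - 1) = 1 from hh, one_mul]
      inv_mem' := fun {g} hg => by
        show g⁻¹ ^ (p - 1) = 1
        rw [inv_pow, show g ^ (p - 1) = 1 from hg, inv_one] }
  haveI hPn : P.Normal := ⟨fun g hg h => by
    rw [hcomm h g, mul_assoc, mul_inv_cancel, mul_one]
    exact hg⟩
  let L₀ : IntermediateField k E := fixedField P
  have hGL : IsGalois k L₀ := IsGalois.of_fixedField_normal_subgroup P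
  have hEA : EAk p k L₀ := by
    haveI : Normal k L₀ := hGL.to_normal
    refine ⟨hGL, fun g h => ?_, fun g => ?_⟩
    · obtain ⟨g', rfl⟩ := AlgEquiv.restrictNormalHom_surjective (F := k) (K₁ := L₀) (E := E) g
      obtain ⟨h', rfl⟩ := AlgEquiv.restrictNormalHom_surjective (F := k) (K₁ := L₀) (E := E) h
      rw [← map_mul, hcomm, map_mul]
    · obtain ⟨g', rfl⟩ := AlgEquiv.restrictNormalHom_surjective (F := k) (K₁ := L₀) (E := E) g
      rw [← map_pow]
      apply AlgEquiv.ext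
      intro x
      apply Subtype.ext
      have h1 := AlgEquiv.restrictNormal_commutes (g' ^ p) L₀ x
      have h2 : ((AlgEquiv.restrictNormalHom L₀ (g' ^ p)) x : E) = (g' ^ p) (x : E) := h1
      rw [h2]
      exact x.2 ⟨g' ^ p, hall g'⟩
  refine ⟨E, lift L₀, hfd, hgal, hζE, haE, lift_le L₀, hEA.congr (liftAlgEquiv L₀), ?_, ?_⟩
  · -- `E` is the composite
    have h1 : restrict hkE ⊔ L₀ = ⊤ := by
      rw [← IsGalois.fixedField_fixingSubgroup (restrict hkE ⊔ L₀), fixingSubgroup_sup,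
        fixingSubgroup_fixedField]
      have h2 : (restrict hkE).fixingSubgroup ⊓ P = ⊥ := by
        rw [eq_bot_iff]
        rintro τ ⟨h3, h4⟩
        have h5 : τ z = z := by
          have h6 : z ∈ restrict hkE := by
            rw [mem_restrict]
            exact mem_adjoin_simple_self k ζ
          exact (mem_fixingSubgroup_iff _ _).1 h3 z h6
        have h6 : f τ = 1 := by
          apply Units.ext
          have h7 := hf τ
          rw [h5] at h7
          have h8 : z ^ 1 = z ^ ((f τ : (ZMod p)ˣ) : ZMod p).val := by rw [pow_one]; exact h7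
          have h9 := hzp.pow_inj hp.one_lt (ZMod.val_lt _) h8
          rw [← ZMod.natCast_zmod_val ((f τ : (ZMod p)ˣ) : ZMod p), ← h9]
          simp
        have h7 := hpow τ h6
        have h8 : τ ^ (p - 1) = 1 := h4
        have h9 : τ ^ (p - 1 + 1) = 1 := by rw [Nat.sub_add_cancel hp.one_lt.le]; exact h7
        rw [pow_succ, h8, one_mul] at h9
        rw [Subgroup.mem_bot]
        exact h9
      rw [h2, fixedField_bot]
    intro x hx
    have h2 : lift (restrict hkE ⊔ L₀) ≤ adjoin k {ζ} ⊔ lift L₀ := by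
      have h3 : restrict hkE ⊔ L₀ ≤ (adjoin k {ζ} ⊔ lift L₀).comap E.val := by
        apply sup_le
        · intro y hy
          exact (le_sup_left : adjoin k {ζ} ≤ adjoin k {ζ} ⊔ lift L₀) ((mem_restrict hkE y).1 hy)
        · intro y hy
          exact (le_sup_right : lift L₀ ≤ adjoin k {ζ} ⊔ lift L₀) ((mem_lift y).2 hy)
      intro y hy
      have hyE : y ∈ E := lift_le _ hy
      exact h3 ((mem_lift (⟨y, hyE⟩ : E)).1 hy)
    apply h2
    rw [h1]
    exact (mem_lift (⟨x, hx⟩ : E)).2 trivial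
  · intro g h1 h2
    exact hext g (h1 z rfl) (h2 b rfl)

end kummer

end Pool.Agent.K7.H76.LC
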