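import Mathlib
import Pool.Agent.K7.H76.LC.Kum1

/-!
# Ramification of the descended Kummer extensions
-/

set_option autoImplicit false

namespace Pool.Agent.K7.H76.LC

open NumberField IsDedekindDomain Module
open Pool.Agent.Y447.LC Pool.Agent.K7.H76.SL

section inertia

variable {k E : Type} [Field k] [NumberField k] [Field E] [NumberField E] [Algebra k E]

/-- elements of the inertia group act trivially on the local ring modulo the prime -/
lemma inertia_val {W : HeightOneSpectrum (𝓞 E)} {g : E ≃ₐ[k] E}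
    (hg : g ∈ W.asIdeal.inertia (E ≃ₐ[k] E)) {x : E} (hx : W.valuation E x ≤ 1) :
    W.valuation E (g x - x) < 1 := by
  obtain ⟨n, d, hnd⟩ := W.exists_primeCompl_mul_eq_of_integer x hx
  have hd : (d : 𝓞 E) ∉ W.asIdeal := d.2
  have hg' : ∀ y : 𝓞 E, W.valuation E (g (y : E) - (y : E)) < 1 := by
    intro y
    have h1 := hg y
    have h2 : W.valuation E (algebraMap (𝓞 E) E (g • y - y)) < 1 := by
      rw [W.valuation_lt_one_iff_mem]
      exact h1
    have h3 : algebraMap (𝓞 E) E (g • y - y) = g (y : E) - (y : E) := by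
      rw [map_sub]
      rfl
    rwa [h3] at h2
  have hvd : W.valuation E ((d : 𝓞 E) : E) = 1 := W.valuation_eq_one_iff_notMem.2 hd
  have hvgd : W.valuation E (g ((d : 𝓞 E) : E)) = 1 := by
    have h1 : g ((d : 𝓞 E) : E) = ((d : 𝓞 E) : E) + (g ((d : 𝓞 E) : E) - ((d : 𝓞 E) : E)) := by
      ring
    rw [h1, Valuation.map_add_eq_of_lt_left]
    · exact hvd
    · rw [hvd]
      exact hg' _
  have hd0 : ((d : 𝓞 E) : E) ≠ 0 := by
    intro h
    rw [h, map_zero] at hvd
    exact zero_ne_one hvd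
  have hgd0 : g ((d : 𝓞 E) : E) ≠ 0 := by
    intro h
    rw [h, map_zero] at hvgd
    exact zero_ne_one hvgd
  have hnd' : x * ((d : 𝓞 E) : E) = (n : E) := hnd
  have hgnd : g x * g ((d : 𝓞 E) : E) = g (n : E) := by rw [← map_mul, hnd']
  have h1 : (g x - x) * g ((d : 𝓞 E) : E) =
      (g (n : E) - (n : E)) - x * (g ((d : 𝓞 E) : E) - ((d : 𝓞 E) : E)) := by
    rw [sub_mul, hgnd, mul_sub, hnd']
    ring
  have h2 : W.valuation E ((g x - x) * g ((d : 𝓞 E) : E)) < 1 := by
    rw [h1]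
    apply Valuation.map_sub_lt
    · exact hg' n
    · rw [map_mul]
      exact lt_of_le_of_lt (mul_le_of_le_one_left' hx) (hg' _)
  rwa [map_mul, hvgd, mul_one] at h2

/-- unramified subextensions -/
theorem unr_of_inertia [IsGalois k E] {p : ℕ} [hpf : Fact p.Prime]
    (f : (E ≃ₐ[k] E) →* (ZMod p)ˣ) (L₀ : IntermediateField k E) (hG : IsGalois k L₀) {s : ℕ}
    (hL : finrank k L₀ = p ^ s) {𝔮 : HeightOneSpectrum (𝓞 k)} {W : HeightOneSpectrum (𝓞 E)}
    (hW : Above 𝔮 W) (h : ∀ g ∈ W.asIdeal.inertia (E ≃ₐ[k] E), f g = 1 → g = 1) :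
    Unr L₀ 𝔮 := by
  have hp : p.Prime := hpf.out
  obtain ⟨v, hv⟩ := exists_below' (k := L₀) W
  have h𝔮v : Above 𝔮 v := by
    intro x
    rw [← hW x, ← hv (algebraMap (𝓞 k) (𝓞 L₀) x)]
    exact Iff.rfl
  haveI := liesOver_of_above hv
  haveI := liesOver_of_above h𝔮v
  haveI := hG
  refine ⟨v, val_of_idx_one (liesOver_of_above h𝔮v) ?_⟩
  have htw : IsScalarTower (𝓞 k) (𝓞 L₀) (𝓞 E) := inferInstance
  have h1 := Ideal.ramificationIdx_tower (R := 𝓞 k) v.asIdeal W.asIdeal
  have h2 : W.asIdeal.ramificationIdx (𝓞 k) ∣ p - 1 := by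
    rw [← card_in (K := k) (E := E) W.asIdeal, ← ZMod.card_units p, ← Nat.card_eq_fintype_card]
    apply Subgroup.card_dvd_of_injective
      (f.comp (W.asIdeal.inertia (E ≃ₐ[k] E)).subtype)
    rw [injective_iff_map_eq_one]
    intro g hg
    exact Subtype.ext (h g.1 g.2 hg)
  have h3 : v.asIdeal.ramificationIdx (𝓞 k) ∣ p - 1 := (Dvd.intro _ h1.symm).trans h2
  have h4 : v.asIdeal.ramificationIdx (𝓞 k) ∣ p ^ s := by
    rw [← card_in (K := k) (E := L₀) v.asIdeal, ← hL, ← IsGalois.card_aut_eq_finrank]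
    exact Subgroup.card_subgroup_dvd_card _
  have h5 : Nat.Coprime (p ^ s) (p - 1) := by
    apply Nat.Coprime.pow_left
    rw [hp.coprime_iff_not_dvd]
    intro h6
    have := Nat.le_of_dvd (by have := hp.one_lt; omega) h6
    have := hp.one_lt
    omega
  exact Nat.eq_one_of_dvd_coprimes h5 h4 h3

end inertia

section val

variable {E : Type} [Field E] [NumberField E] {p : ℕ} [hpf : Fact p.Prime]

lemma val_root_le (W : HeightOneSpectrum (𝓞 E)) {z : E} (hz : IsPrimitiveRoot z p) (j : ℕ) :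
    W.valuation E (z ^ j - 1) ≤ W.valuation E (z - 1) := by
  have hp : p.Prime := hpf.out
  have hv : W.valuation E z ≤ 1 := by
    have h1 : (W.valuation E z) ^ p = 1 := by rw [← map_pow, hz.pow_eq_one, map_one]
    by_contra hcon
    push Not at hcon
    exact absurd h1 (one_lt_pow₀ hcon hp.ne_zero).ne'
  have h1 : z ^ j - 1 = (∑ i ∈ Finset.range j, z ^ i) * (z - 1) := (geom_sum_mul z j).symm
  rw [h1, map_mul]
  apply mul_le_of_le_one_left'
  apply Valuation.map_sum_le
  intro i _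
  rw [map_pow]
  exact pow_le_one₀ zero_le hv

lemma val_root (W : HeightOneSpectrum (𝓞 E)) {z : E} (hz : IsPrimitiveRoot z p) {j : ℕ}
    (hj : z ^ j ≠ 1) : W.valuation E (z ^ j - 1) = W.valuation E (z - 1) := by
  have hp : p.Prime := hpf.out
  apply le_antisymm (val_root_le W hz j)
  have h1 : Nat.Coprime j p := by
    rw [Nat.coprime_comm, hp.coprime_iff_not_dvd]
    intro h
    exact hj ((hz.pow_eq_one_iff_dvd j).2 h)
  have hz' : IsPrimitiveRoot (z ^ j) p := hz.pow_of_coprime j h1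
  obtain ⟨i, -, hi⟩ := hz'.eq_pow_of_pow_eq_one hz.pow_eq_one
  have h2 := val_root_le W hz' i
  rwa [hi] at h2

/-- elements whose `p`-th powers are close -/
lemma val_close (W : HeightOneSpectrum (𝓞 E)) {z : E} (hz : IsPrimitiveRoot z p) {b c : E}
    (h : W.valuation E (b ^ p - c ^ p) ≤ (W.valuation E (z - 1)) ^ p) :
    ∃ i : ℕ, W.valuation E (b - z ^ i * c) ≤ W.valuation E (z - 1) := by
  have hp : p.Prime := hpf.out
  by_contra hcon
  push Not at hcon
  have h1 := hz.pow_sub_pow_eq_prod_sub_mul b c hp.pos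
  rw [h1, map_prod] at h
  haveI : NeZero p := ⟨hp.ne_zero⟩
  have h0 : W.valuation E (z - 1) ≠ 0 := by
    rw [Valuation.ne_zero_iff, sub_ne_zero]
    exact hz.ne_one hp.one_lt
  have h2 : ∏ _x ∈ Polynomial.nthRootsFinset p (1 : E), W.valuation E (z - 1) <
      ∏ x ∈ Polynomial.nthRootsFinset p (1 : E), W.valuation E (b - x * c) := by
    apply Finset.prod_lt_prod_of_nonempty
    · intro x _
      exact zero_lt_iff.2 h0
    · intro x hx
      rw [Polynomial.mem_nthRootsFinset hp.pos] at hx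
      obtain ⟨i, -, hi⟩ := hz.eq_pow_of_pow_eq_one hx
      rw [← hi]
      exact hcon i
    · exact ⟨z, by rw [Polynomial.mem_nthRootsFinset hp.pos]; exact hz.pow_eq_one⟩
  rw [Finset.prod_const, hz.card_nthRootsFinset] at h2
  exact absurd h (not_le.2 h2)

end val

section kum

variable {p : ℕ} [hpf : Fact p.Prime]
variable {k E : Type} [Field k] [NumberField k] [Field E] [NumberField E] [Algebra k E]

/-- the inertia group acts trivially on the root -/
lemma kum_inertia {W : HeightOneSpectrum (𝓞 E)} {g : E ≃ₐ[k] E}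
    (hg : g ∈ W.asIdeal.inertia (E ≃ₐ[k] E)) {z b c : E} (hz : IsPrimitiveRoot z p)
    (hgz : g z = z) {j : ℕ} (hgb : g b = z ^ j * b) (hgc : g c = c) (hb : W.valuation E b = 1)
    (hbc : W.valuation E (b - c) ≤ W.valuation E (z - 1)) : g b = b := by
  have hp : p.Prime := hpf.out
  by_cases hj : z ^ j = 1
  · rw [hgb, hj, one_mul]
  exfalso
  have hz0 : z - 1 ≠ 0 := sub_ne_zero.2 (hz.ne_one hp.one_lt)
  have h0 : W.valuation E (z - 1) ≠ 0 := (Valuation.ne_zero_iff _).2 hz0
  have h1 : W.valuation E ((b - c) / (z - 1)) ≤ 1 := by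
    rw [map_div₀]
    exact div_le_one_of_le₀ hbc zero_le
  have h2 := inertia_val hg h1
  have h3 : g ((b - c) / (z - 1)) - (b - c) / (z - 1) = (z ^ j - 1) * b / (z - 1) := by
    rw [map_div₀, map_sub, map_sub, map_one, hgz, hgb, hgc]
    ring
  rw [h3, map_div₀, map_mul, val_root W hz hj, hb, mul_one, div_self h0] at h2
  exact lt_irrefl _ h2

end kum

end Pool.Agent.K7.H76.LC
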