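import Mathlib
import Pool.Agent.K7.H76.LC.Omega

/-!
# The step for subfields of a large field
-/

set_option autoImplicit false

namespace Pool.Agent.K7.H76.LC

open NumberField IsDedekindDomain Module Pool.Agent.Y18.LC
open Pool.Agent.W289.SL Pool.Agent.K7.H76.SL

variable {k Ω : Type} [Field k] [NumberField k] [Field Ω] [Algebra k Ω]

/-- the composite is generated by `S` over a field containing `K` -/
lemma adjoin_top'' {K S C : IntermediateField k Ω} (hC : C = K ⊔ S) (hSC : S ≤ C)
    (k' : Type) [Field k'] [Algebra k' C]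
    (hk' : ∀ x : Ω, x ∈ K → ∃ z : k', ((algebraMap k' C z : C) : Ω) = x)
    : IntermediateField.adjoin k' (IntermediateField.restrict hSC : Set C) = ⊤ := by
  rw [eq_top_iff]
  intro y _
  set E := IntermediateField.adjoin k' (IntermediateField.restrict hSC : Set C) with hE
  have hSE : ∀ x : C, (x : Ω) ∈ S → x ∈ E := by
    intro x hx
    apply IntermediateField.subset_adjoin
    exact (IntermediateField.mem_restrict hSC x).2 hx
  have hKE : ∀ x : C, (x : Ω) ∈ K → x ∈ E := by
    intro x hx
    obtain ⟨z, hz⟩ := hk' x hx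
    have h1 : algebraMap k' C z = x := Subtype.ext hz
    rw [← h1]
    exact E.algebraMap_mem z
  -- the image of `E`
  have hy : (y : Ω) ∈ K ⊔ S := by rw [← hC]; exact y.2
  let T : IntermediateField k Ω := (E.toSubfield.map (algebraMap C Ω)).toIntermediateField
    (fun q => ⟨algebraMap k C q, by
      have h1 : ((algebraMap k C q : C) : Ω) ∈ K := by
        have h2 : ((algebraMap k C q : C) : Ω) = algebraMap k Ω q := rfl
        rw [h2]
        exact K.algebraMap_mem q
      exact hKE _ h1, rfl⟩)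
  have h1 : K ⊔ S ≤ T := by
    apply sup_le
    · intro x hx
      have hxC : x ∈ C := by rw [hC]; exact (le_sup_left : K ≤ K ⊔ S) hx
      exact ⟨⟨x, hxC⟩, hKE _ hx, rfl⟩
    · intro x hx
      have hxC : x ∈ C := hSC hx
      exact ⟨⟨x, hxC⟩, hSE _ hx, rfl⟩
  obtain ⟨z, hz, hzy⟩ := h1 hy
  have h2 : z = y := Subtype.ext hzy
  rw [← h2]
  exact hz

lemma finrank_restrict {S C : IntermediateField k Ω} (h : S ≤ C) :
    finrank k (IntermediateField.restrict h) = finrank k S :=
  (IntermediateField.restrictAlgEquiv h).toLinearEquiv.finrank_eq.symm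

lemma EAk_restrict {p : ℕ} {S C : IntermediateField k Ω} (h : S ≤ C) (hS : EAk p k S) :
    EAk p k (IntermediateField.restrict h) :=
  hS.congr (IntermediateField.restrictAlgEquiv h)

lemma Unr_restrict {S C : IntermediateField k Ω} [NumberField C] (h : S ≤ C)
    {𝔮 : HeightOneSpectrum (𝓞 k)} (hS : UnrF S 𝔮) : Unr (IntermediateField.restrict h) 𝔮 := by
  obtain ⟨h1, h2⟩ := hS
  exact Unr.of_hom (IntermediateField.restrictAlgEquiv h).symm.toAlgHom h2

/-- the composites of `K` and of the subfields `L₀` -/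
lemma topF_adjoin {p : ℕ} [Fact p.Prime] {C₁ C K M : IntermediateField k Ω} [NumberField C₁]
    [NumberField C] [Algebra C₁ C] [IsScalarTower k C₁ C] (hC₁ : C₁ = K ⊔ M)
    (halg : ∀ x : C₁, ((algebraMap C₁ C x : C) : Ω) = x) (L₀ : IntermediateField k C)
    (hML : M ≤ IntermediateField.lift L₀) {φ : k →+* ℂ_[p]}
    (h4 : TopS (upS ↥(IntermediateField.adjoin C₁ (L₀ : Set C))
      (upS C₁ ({φ} : Set (k →+* ℂ_[p]))))) : TopF (K ⊔ IntermediateField.lift L₀) φ := by
  have hC₁C : C₁ ≤ C := fun x hx => by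
    have h1 := halg ⟨x, hx⟩
    rw [← show ((⟨x, hx⟩ : C₁) : Ω) = x from rfl, ← h1]
    exact (algebraMap C₁ C ⟨x, hx⟩).2
  have hKC₁ : K ≤ C₁ := by rw [hC₁]; exact le_sup_left
  have hMC₁ : M ≤ C₁ := by rw [hC₁]; exact le_sup_right
  rw [upS_upS] at h4
  let E := IntermediateField.adjoin C₁ (L₀ : Set C)
  let j : E →ₐ[k] Ω := C.val.comp (E.restrictScalars k).val
  refine TopF.of_hom j (fun x => ⟨fun hx => ?_, ?_⟩) h4
  · let T : IntermediateField k Ω := IntermediateField.lift (E.restrictScalars k)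
    have h5 : K ⊔ IntermediateField.lift L₀ ≤ T := by
      apply sup_le
      · intro x hx
        have hxC : x ∈ C := hC₁C (hKC₁ hx)
        have h6 : algebraMap C₁ C ⟨x, hKC₁ hx⟩ = ⟨x, hxC⟩ := Subtype.ext (halg _)
        have h7 : (⟨x, hxC⟩ : C) ∈ E := by
          rw [← h6]
          exact E.algebraMap_mem _
        have h9 : (⟨x, hxC⟩ : C) ∈ E.restrictScalars k := h7
        exact (IntermediateField.mem_lift (⟨x, hxC⟩ : C)).2 h9
      · intro x hx
        have hxC : x ∈ C := IntermediateField.lift_le L₀ hx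
        have h7 : (⟨x, hxC⟩ : C) ∈ (L₀ : Set C) := (IntermediateField.mem_lift (⟨x, hxC⟩ : C)).1 hx
        have h8 : (⟨x, hxC⟩ : C) ∈ E := IntermediateField.subset_adjoin C₁ (L₀ : Set C) h7
        have h9 : (⟨x, hxC⟩ : C) ∈ E.restrictScalars k := h8
        exact (IntermediateField.mem_lift (⟨x, hxC⟩ : C)).2 h9
    have h6 := h5 hx
    have hxC : x ∈ C := IntermediateField.lift_le _ h6
    exact ⟨⟨⟨x, hxC⟩, (IntermediateField.mem_lift (⟨x, hxC⟩ : C)).1 h6⟩, rfl⟩
  · rintro ⟨y, rfl⟩
    have h5 : ∀ y ∈ E, ((y : C) : Ω) ∈ K ⊔ IntermediateField.lift L₀ := by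
      intro y hy
      induction hy using IntermediateField.adjoin_induction with
      | mem x hx =>
        exact (le_sup_right : IntermediateField.lift L₀ ≤ K ⊔ IntermediateField.lift L₀)
          ((IntermediateField.mem_lift x).2 hx)
      | algebraMap x =>
        rw [halg x]
        have h7 : C₁ ≤ K ⊔ IntermediateField.lift L₀ := by
          rw [hC₁]
          exact sup_le_sup_left hML K
        exact h7 x.2
      | add x y _ _ hx hy => exact add_mem hx hy
      | inv x _ hx => exact inv_mem hx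
      | mul x y _ _ hx hy => exact mul_mem hx hy
    exact h5 y.1 y.2

end Pool.Agent.K7.H76.LC
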