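import Mathlib
import Pool.Agent.K7.H76.LC.Kum2
import Pool.Agent.K7.H76.LC.Omega2

/-!
# Cyclic extensions of degree `p` of `k`
-/

set_option autoImplicit false

namespace Pool.Agent.K7.H76.LC

open NumberField IsDedekindDomain Module IntermediateField
open Pool.Agent.K7.H76.SL

variable {p : ℕ} [hpf : Fact p.Prime] {k Ω : Type} [Field k] [NumberField k] [Field Ω]
  [Algebra k Ω]

lemma fix_kz {E : IntermediateField k Ω} {g : E ≃ₐ[k] E} {z : E} (hz : g z = z) {β : E}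
    (hβ : (β : Ω) ∈ adjoin k {(z : Ω)}) : g β = β := by
  let T : IntermediateField k Ω := (fixedField (Subgroup.zpowers g)).map E.val
  have hET : adjoin k {(z : Ω)} ≤ T := by
    rw [adjoin_simple_le_iff]
    refine ⟨z, ?_, rfl⟩
    rintro ⟨h, n, rfl⟩
    have h4 : g ∈ MulAction.stabilizer (E ≃ₐ[k] E) z := hz
    exact Subgroup.zpow_mem _ h4 n
  obtain ⟨y, hy, hyx⟩ := hET hβ
  have h3 : y = β := Subtype.ext hyx
  subst h3
  exact hy ⟨g, Subgroup.mem_zpowers g⟩

variable [IsAlgClosed Ω] [Algebra.IsAlgebraic k Ω]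

theorem kummer2 {ζ a : Ω} (hζ : IsPrimitiveRoot ζ p) {kz : IntermediateField k Ω}
    (hkz : kz = adjoin k {ζ}) [NumberField kz] (α c z₀ : 𝓞 kz) (hα0 : α ≠ 0)
    (hz₀ : ((z₀ : kz) : Ω) = ζ) (ha : a ^ p = ((α : kz) : Ω))
    (hEig : Eig p k ζ ((α : kz) : Ω)) (hprim : (z₀ - 1) ^ p ∣ α - c ^ p) :
    ∃ L : IntermediateField k Ω, FiniteDimensional k L ∧ EAk p k L ∧ a ∈ kz ⊔ L ∧
      ∀ 𝔮 : HeightOneSpectrum (𝓞 k), (∀ P : HeightOneSpectrum (𝓞 kz), Above 𝔮 P →
        α ∉ P.asIdeal) → UnrF L 𝔮 := by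
  have hp : p.Prime := hpf.out
  haveI : NeZero p := ⟨hp.ne_zero⟩
  have hα0' : ((α : kz) : Ω) ≠ 0 := by
    intro h
    apply hα0
    apply RingOfIntegers.ext
    exact Subtype.ext h
  obtain ⟨E, L, hfd, hgal, hζE, haE, hLE, hEA, hEL, hext⟩ :=
    kummer hζ (by rw [← hkz]; exact (α : kz).2) hα0' ha hEig
  have hfdL : FiniteDimensional k L :=
    FiniteDimensional.of_injective (inclusion hLE).toLinearMap (inclusion hLE).injective
  refine ⟨L, hfdL, hEA, ?_, ?_⟩
  · rw [hkz]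
    exact hEL haE
  intro 𝔮 h𝔮
  have hnfE : NumberField E := nf_of' E hfd
  have hnfL : NumberField L := nf_of' L hfdL
  have hkE : kz ≤ E := by
    rw [hkz, adjoin_simple_le_iff]
    exact hζE
  letI alg : Algebra kz E := (inclusion hkE).toRingHom.toAlgebra
  haveI : IsScalarTower k kz E := IsScalarTower.of_algebraMap_eq' rfl
  set z : E := ⟨ζ, hζE⟩ with hz
  set b : E := ⟨a, haE⟩ with hb
  have hzp : IsPrimitiveRoot z p := by
    rw [← IsPrimitiveRoot.map_iff_of_injective (f := (algebraMap E Ω)) (algebraMap E Ω).injective]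
    exact hζ
  let f : (E ≃ₐ[k] E) →* (ZMod p)ˣ := hzp.autToPow k
  have hf : ∀ g : E ≃ₐ[k] E, g z = z ^ ((f g : (ZMod p)ˣ) : ZMod p).val :=
    fun g => (hzp.autToPow_spec k g).symm
  -- the elements of `kz` in `E`
  have hfix : ∀ g : E ≃ₐ[k] E, g z = z → ∀ x : kz, g (algebraMap kz E x) = algebraMap kz E x := by
    intro g hg x
    apply fix_kz hg
    have h1 : ((algebraMap kz E x : E) : Ω) = x := rfl
    rw [h1]
    have h2 : adjoin k {(z : Ω)} = kz := hkz.symm
    rw [h2]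
    exact x.2
  have hbα : b ^ p = algebraMap kz E (α : kz) := Subtype.ext ha
  -- a prime above `𝔮`
  obtain ⟨W, hW⟩ := exists_above (K := E) 𝔮
  obtain ⟨P, hP⟩ := exists_below' (k := kz) W
  have h𝔮P : Above 𝔮 P := by
    intro x
    rw [← hW x, ← hP (algebraMap (𝓞 k) (𝓞 kz) x)]
    exact Iff.rfl
  have hαP := h𝔮 P h𝔮P
  have hcoe : ∀ x : 𝓞 kz, algebraMap (𝓞 E) E (algebraMap (𝓞 kz) (𝓞 E) x) =
      algebraMap kz E (x : kz) := fun x => rfl
  have hvb : W.valuation E b = 1 := by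
    have h1 : W.valuation E (b ^ p) = 1 := by
      have h2 : algebraMap (𝓞 kz) (𝓞 E) α ∉ W.asIdeal := by
        rw [hP α]
        exact hαP
      rw [hbα, ← hcoe]
      exact W.valuation_eq_one_iff_notMem.2 h2
    rw [map_pow] at h1
    by_contra hne
    rcases lt_or_gt_of_ne hne with h | h
    · exact absurd h1 (pow_lt_one₀ zero_le h hp.ne_zero).ne
    · exact absurd h1 (one_lt_pow₀ h hp.ne_zero).ne'
  have hvbc : W.valuation E (b ^ p - (algebraMap kz E (c : kz)) ^ p) ≤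
      (W.valuation E (z - 1)) ^ p := by
    obtain ⟨d, hd⟩ := hprim
    have h1 : b ^ p - (algebraMap kz E (c : kz)) ^ p =
        (z - 1) ^ p * algebraMap (𝓞 E) E (algebraMap (𝓞 kz) (𝓞 E) d) := by
      have h2 : algebraMap kz E ((α - c ^ p : 𝓞 kz) : kz) =
          algebraMap kz E (((z₀ - 1) ^ p * d : 𝓞 kz) : kz) := by rw [hd]
      have h3 : algebraMap kz E (z₀ : kz) = z := Subtype.ext hz₀
      have h4 : ((α - c ^ p : 𝓞 kz) : kz) = (α : kz) - (c : kz) ^ p := by
        rw [RingOfIntegers.val, map_sub, map_pow]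
      have h5 : (((z₀ - 1) ^ p * d : 𝓞 kz) : kz) = ((z₀ : kz) - 1) ^ p * (d : kz) := by
        rw [RingOfIntegers.val, map_mul, map_pow, map_sub, map_one]
      rw [h4, h5, map_sub, map_pow, map_mul, map_pow, map_sub, map_one, h3, ← hbα, ← hcoe d] at h2
      exact h2
    rw [h1, map_mul, map_pow]
    exact mul_le_of_le_one_right' (W.valuation_le_one _)
  obtain ⟨i, hi⟩ := val_close W hzp hvbc
  have hin : ∀ g ∈ W.asIdeal.inertia (E ≃ₐ[k] E), f g = 1 → g = 1 := by
    intro g hg hfg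
    have hgz : g z = z := by
      rw [hf, hfg, Units.val_one, ZMod.val_one, pow_one]
    have hb0 : b ≠ 0 := by
      intro h
      rw [h, map_zero] at hvb
      exact zero_ne_one hvb
    obtain ⟨j, hj⟩ := pow_eq_exists hzp (x := g b) (y := b) hb0 (by
      rw [← map_pow, hbα, hfix g hgz])
    have h1 : g b = b := by
      refine kum_inertia hg hzp hgz hj ?_ hvb hi
      rw [map_mul, map_pow, hgz, hfix g hgz]
    apply hext g
    · intro x hx
      have h2 : x = z := Subtype.ext hx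
      rw [h2, hgz]
    · intro x hx
      have h2 : x = b := Subtype.ext hx
      rw [h2, h1]
  -- the degree of `L`
  obtain ⟨s, hs⟩ : ∃ s : ℕ, finrank k L = p ^ s := by
    have hPG : IsPGroup p (L ≃ₐ[k] L) := fun g => ⟨1, by rw [pow_one]; exact hEA.2.2 g⟩
    obtain ⟨s, hs⟩ := IsPGroup.iff_card.1 hPG
    haveI := hEA.1
    exact ⟨s, by rw [← IsGalois.card_aut_eq_finrank, hs]⟩
  have h1 := unr_of_inertia f (restrict hLE) (EAk_restrict hLE hEA).1
    (by rw [finrank_restrict, hs]) hW hin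
  exact ⟨hnfL, Unr.of_hom (restrictAlgEquiv hLE).toAlgHom h1⟩

end Pool.Agent.K7.H76.LC
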