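import Mathlib
import Pool.Agent.K7.H76.LC.Kum3

/-!
# Elements of the eigenspace
-/

set_option autoImplicit false

namespace Pool.Agent.K7.H76.LC

open NumberField IsDedekindDomain Module IntermediateField
open Pool.Agent.K7.H76.SL

section eig

variable {p : ℕ} [hpf : Fact p.Prime] {k Ω : Type} [Field k] [Field Ω] [Algebra k Ω]

lemma Eig.mul {ζ α α' : Ω} (h : Eig p k ζ α) (h' : Eig p k ζ α') : Eig p k ζ (α * α') := by
  intro σ t ht
  obtain ⟨β, hβ, h1⟩ := h σ t ht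
  obtain ⟨β', hβ', h2⟩ := h' σ t ht
  exact ⟨β * β', mul_mem hβ hβ', by rw [map_mul, h1, h2, mul_pow, mul_pow]; ring⟩

lemma Eig.pow {ζ α : Ω} (h : Eig p k ζ α) (n : ℕ) : Eig p k ζ (α ^ n) := by
  intro σ t ht
  obtain ⟨β, hβ, h1⟩ := h σ t ht
  exact ⟨β ^ n, pow_mem hβ n, by rw [map_pow, h1, mul_pow, ← pow_mul, ← pow_mul, ← pow_mul,
    ← pow_mul, mul_comm n t, mul_comm n p]⟩

/-- the exponents -/
noncomputable def ex {K : Type} [Field K] [Algebra k K] {z : K} (hz : IsPrimitiveRoot z p)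
    (σ : K ≃ₐ[k] K) : ℕ :=
  haveI : NeZero p := ⟨hpf.out.ne_zero⟩
  (((hz.autToPow k σ)⁻¹ : (ZMod p)ˣ) : ZMod p).val

lemma ex_one {K : Type} [Field K] [Algebra k K] {z : K} (hz : IsPrimitiveRoot z p) :
    ex (k := k) hz 1 = 1 := by
  unfold ex
  haveI : Fact (1 < p) := ⟨hpf.out.one_lt⟩
  rw [map_one, inv_one, Units.val_one, ZMod.val_one]

/-- the exponents of the conjugate -/
lemma ex_mul {K : Type} [Field K] [Algebra k K] {z : K} (hz : IsPrimitiveRoot z p)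
    (τ σ : K ≃ₐ[k] K) {t : ℕ} (ht : τ z = z ^ t) :
    ∃ c : ℤ, (ex hz (τ⁻¹ * σ) : ℤ) = t * ex hz σ + p * c := by
  haveI : NeZero p := ⟨hpf.out.ne_zero⟩
  have h1 : ((hz.autToPow k τ : (ZMod p)ˣ) : ZMod p) = (t : ZMod p) := by
    have h2 := hz.autToPow_spec k τ
    rw [ht, ← pow_mod_orderOf z t, ← hz.eq_orderOf] at h2
    have h3 := hz.pow_inj (ZMod.val_lt _) (Nat.mod_lt _ hpf.out.pos) h2
    rw [← ZMod.natCast_zmod_val ((hz.autToPow k τ : (ZMod p)ˣ) : ZMod p), h3, ZMod.natCast_mod]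
  have h2 : ((ex hz (τ⁻¹ * σ) : ℕ) : ZMod p) = (t : ZMod p) * ((ex hz σ : ℕ) : ZMod p) := by
    unfold ex
    rw [ZMod.natCast_zmod_val, ZMod.natCast_zmod_val, ← h1, map_mul, map_inv, mul_inv, inv_inv,
      Units.val_mul]
  have h3 : (p : ℤ) ∣ (ex hz (τ⁻¹ * σ) : ℤ) - t * ex hz σ := by
    rw [← ZMod.intCast_zmod_eq_zero_iff_dvd]
    push_cast
    rw [h2, sub_self]
  obtain ⟨c, hc⟩ := h3
  exact ⟨c, by linarith⟩

/-- the element of the eigenspace -/
noncomputable def al {K : Type} [Field K] [Algebra k K] [FiniteDimensional k K] {z : K}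
    (hz : IsPrimitiveRoot z p) (x : K) : K := ∏ σ : K ≃ₐ[k] K, (σ x) ^ ex hz σ

lemma al_eig {K : Type} [Field K] [Algebra k K] [FiniteDimensional k K] {z : K}
    (hz : IsPrimitiveRoot z p) {x : K} (hx : x ≠ 0) (τ : K ≃ₐ[k] K) {t : ℕ} (ht : τ z = z ^ t) :
    ∃ β : K, τ (al (k := k) hz x) = (al (k := k) hz x) ^ t * β ^ p := by
  choose c hc using fun σ : K ≃ₐ[k] K => ex_mul hz τ σ ht
  refine ⟨∏ σ : K ≃ₐ[k] K, (σ x) ^ c σ, ?_⟩
  have h1 : τ (al (k := k) hz x) = ∏ σ : K ≃ₐ[k] K, (σ x) ^ ex hz (τ⁻¹ * σ) := by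
    unfold al
    rw [map_prod]
    refine Fintype.prod_equiv (Equiv.mulLeft τ) _ _ fun σ => ?_
    rw [map_pow, Equiv.coe_mulLeft, inv_mul_cancel_left]
    rfl
  rw [h1]
  unfold al
  rw [← Finset.prod_pow, ← Finset.prod_pow, ← Finset.prod_mul_distrib]
  refine Finset.prod_congr rfl fun σ _ => ?_
  have hσ : σ x ≠ 0 := by rwa [Ne, map_eq_zero]
  rw [← zpow_natCast, hc, zpow_add₀ hσ, mul_comm (t : ℤ), zpow_mul, mul_comm (p : ℤ), zpow_mul,
    zpow_natCast, zpow_natCast, zpow_natCast]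

end eig

section dvd

variable {p : ℕ} [hpf : Fact p.Prime]

/-- `(z - 1) ^ p` divides `p ^ 2` -/
lemma dvd_sq {R : Type} [CommRing R] [IsDomain R] {z : R} (hz : IsPrimitiveRoot z p) :
    (z - 1) ^ p ∣ (p : R) ^ 2 := by
  have hp : p.Prime := hpf.out
  have h1 : (p : R) = ∏ μ ∈ primitiveRoots p R, (1 - μ) := by
    rw [← Polynomial.eval_one_cyclotomic_prime (R := R) (p := p),
      Polynomial.cyclotomic_eq_prod_X_sub_primitiveRoots hz, Polynomial.eval_prod]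
    refine Finset.prod_congr rfl fun μ _ => ?_
    rw [Polynomial.eval_sub, Polynomial.eval_X, Polynomial.eval_C]
  have h2 : (z - 1) ^ (p - 1) ∣ (p : R) := by
    have h3 : (p - 1) = (primitiveRoots p R).card := by
      rw [hz.card_primitiveRoots, Nat.totient_prime hp]
    rw [h1, h3, ← Finset.prod_const]
    apply Finset.prod_dvd_prod_of_dvd
    intro μ hμ
    rw [mem_primitiveRoots hp.pos] at hμ
    obtain ⟨i, -, hi⟩ := hz.eq_pow_of_pow_eq_one hμ.pow_eq_one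
    rw [← hi, ← neg_sub (z ^ i) 1, dvd_neg, ← geom_sum_mul]
    exact Dvd.intro_left _ rfl
  have h3 : (z - 1) ∣ (p : R) := by
    refine (dvd_pow_self (z - 1) ?_).trans h2
    have := hp.one_lt
    omega
  have h4 : (z - 1) ^ p = (z - 1) ^ (p - 1) * (z - 1) := by
    rw [← pow_succ, Nat.sub_add_cancel hp.one_lt.le]
  rw [h4, pow_two]
  exact mul_dvd_mul h2 h3

end dvd

end Pool.Agent.K7.H76.LC
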