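import Mathlib
import Pool.Agent.K7.H76.LC.Kum4

/-!
# The choice of the elements
-/

set_option autoImplicit false

namespace Pool.Agent.K7.H76.LC

open NumberField IsDedekindDomain Module WithZero
open Pool.Agent.K7.H76.SL

variable {p : ℕ} [hpf : Fact p.Prime]
variable {k K : Type} [Field k] [NumberField k] [Field K] [NumberField K] [Algebra k K]

/-- primes containing a conjugate of `b` -/
lemma conj_mem {P P₀ R : HeightOneSpectrum (𝓞 K)} {b : 𝓞 K} {n : ℕ}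
    (hb : Ideal.span {b} = P.asIdeal * P₀.asIdeal ^ n) {σ : K ≃ₐ[k] K}
    (h : σ • b ∈ R.asIdeal) : (∀ x : 𝓞 K, σ • x ∈ R.asIdeal ↔ x ∈ P.asIdeal) ∨
      (∀ x : 𝓞 K, σ • x ∈ R.asIdeal ↔ x ∈ P₀.asIdeal) := by
  let s : 𝓞 K →+* 𝓞 K := MulSemiringAction.toRingHom (K ≃ₐ[k] K) (𝓞 K) σ
  have hJ : (R.asIdeal.comap s).IsPrime := Ideal.comap_isPrime s R.asIdeal
  have h1 : P.asIdeal * P₀.asIdeal ^ n ≤ R.asIdeal.comap s := by
    rw [← hb, Ideal.span_singleton_le_iff_mem]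
    exact h
  rcases hJ.mul_le.1 h1 with h2 | h2
  · left
    have h3 := P.isMaximal.eq_of_le hJ.ne_top h2
    intro x
    rw [h3]
    exact Iff.rfl
  · right
    have h3 := P₀.isMaximal.eq_of_le hJ.ne_top (hJ.le_of_pow_le h2)
    intro x
    rw [h3]
    exact Iff.rfl

/-- the element of the eigenspace, integral version -/
noncomputable def alO {z : K} (hz : IsPrimitiveRoot z p) (b : 𝓞 K) : 𝓞 K :=
  ∏ σ : K ≃ₐ[k] K, (σ • b) ^ ex hz σ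

lemma alO_coe {z : K} (hz : IsPrimitiveRoot z p) (b : 𝓞 K) :
    ((alO (k := k) hz b : 𝓞 K) : K) = al (k := k) hz (b : K) := by
  unfold alO al
  rw [RingOfIntegers.val, map_prod]
  refine Finset.prod_congr rfl fun σ _ => ?_
  rw [map_pow]
  rfl

lemma mem_alO {z : K} (hz : IsPrimitiveRoot z p) {b : 𝓞 K} {R : HeightOneSpectrum (𝓞 K)}
    (h : alO (k := k) hz b ∈ R.asIdeal) : ∃ σ : K ≃ₐ[k] K, σ • b ∈ R.asIdeal := by
  unfold alO at h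
  rw [R.isPrime.prod_mem_iff] at h
  obtain ⟨σ, -, hσ⟩ := h
  exact ⟨σ, R.isPrime.mem_of_pow_mem _ hσ⟩

/-- the valuation of the element -/
lemma val_alO {z : K} (hz : IsPrimitiveRoot z p) {b : 𝓞 K} {P : HeightOneSpectrum (𝓞 K)}
    (hb : P.valuation K (b : K) = exp (-1 : ℤ))
    (h : ∀ σ : K ≃ₐ[k] K, σ • b ∈ P.asIdeal → σ = 1) :
    P.valuation K ((alO (k := k) hz b : 𝓞 K) : K) = exp (-1 : ℤ) := by
  classical
  rw [alO_coe]
  unfold al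
  rw [map_prod, ← Finset.prod_erase_mul _ _ (Finset.mem_univ (1 : K ≃ₐ[k] K)), ex_one, pow_one]
  have h1 : ∏ σ ∈ Finset.univ.erase (1 : K ≃ₐ[k] K), P.valuation K ((σ (b : K)) ^ ex hz σ) = 1 := by
    apply Finset.prod_eq_one
    intro σ hσ
    rw [map_pow]
    have h2 : P.valuation K (σ (b : K)) = 1 := by
      have h3 : σ • b ∉ P.asIdeal := fun h4 => (Finset.mem_erase.1 hσ).1 (h σ h4)
      exact P.valuation_eq_one_iff_notMem.2 h3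
    rw [h2, one_pow]
  rw [h1, one_mul]
  exact hb

/-- a prime number in a prime ideal -/
lemma prime_unique {P : HeightOneSpectrum (𝓞 K)} {q q' : ℕ} (hq : q.Prime) (hq' : q'.Prime)
    (h : (q : 𝓞 K) ∈ P.asIdeal) (h' : (q' : 𝓞 K) ∈ P.asIdeal) : q = q' := by
  by_contra hne
  have h1 : IsCoprime (q : ℤ) (q' : ℤ) := Nat.isCoprime_iff_coprime.2 ((Nat.coprime_primes hq hq').2 hne)
  obtain ⟨a, b, hab⟩ := h1
  apply P.isPrime.ne_top
  rw [Ideal.eq_top_iff_one]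
  have h2 : (1 : 𝓞 K) = (a : 𝓞 K) * (q : 𝓞 K) + (b : 𝓞 K) * (q' : 𝓞 K) := by
    exact_mod_cast congrArg (fun t : ℤ => (t : 𝓞 K)) hab.symm
  rw [h2]
  exact Ideal.add_mem _ (Ideal.mul_mem_left _ _ h) (Ideal.mul_mem_left _ _ h')

/-- a prime which divides `b` exactly once -/
lemma val_of_span {P P₀ : HeightOneSpectrum (𝓞 K)} {b : 𝓞 K} {n : ℕ}
    (hb : Ideal.span {b} = P.asIdeal * P₀.asIdeal ^ n) (hne : P ≠ P₀) :
    P.valuation K (b : K) = exp (-1 : ℤ) := by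
  have hb0 : b ≠ 0 := by
    intro h
    rw [h, Ideal.span_singleton_eq_bot.2 rfl] at hb
    exact mul_ne_zero P.ne_bot (pow_ne_zero n P₀.ne_bot) hb.symm
  have h3 : b ∈ P.asIdeal := by
    have h4 : b ∈ Ideal.span {b} := Ideal.mem_span_singleton_self _
    rw [hb] at h4
    have h5 : P.asIdeal * P₀.asIdeal ^ n ≤ P.asIdeal := Ideal.le_of_dvd (Dvd.intro _ rfl)
    exact h5 h4
  have h4 : b ∉ P.asIdeal ^ 2 := by
    intro h5
    rw [← Ideal.dvd_span_singleton, hb, pow_two] at h5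
    have h6 := (mul_dvd_mul_iff_left P.ne_bot).1 h5
    have h7 := P.prime.dvd_of_dvd_pow h6
    have h8 : P₀.asIdeal ≤ P.asIdeal := Ideal.le_of_dvd h7
    exact hne (HeightOneSpectrum.ext (P₀.isMaximal.eq_of_le P.isPrime.ne_top h8)).symm
  have h5 : P.valuation K (b : K) = P.intValuation b := P.valuation_of_algebraMap (K := K) b
  rw [h5]
  rw [← pow_one P.asIdeal, ← P.intValuation_le_pow_iff_mem] at h3
  rw [← P.intValuation_le_pow_iff_mem] at h4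
  rw [P.intValuation_if_neg hb0] at h3 h4 ⊢
  rw [exp_le_exp] at h3 h4
  congr 1
  push_cast at h3 h4
  omega

theorem choose_alpha {z : K} (hz : IsPrimitiveRoot z p) {z₀ : 𝓞 K} (hz₀ : (z₀ : K) = z)
    {Q : Set ℕ} (hQ : Q.Infinite) (hQp : ∀ q ∈ Q, q.Prime) (P : ℕ → HeightOneSpectrum (𝓞 K))
    (hPq : ∀ q ∈ Q, (q : 𝓞 K) ∈ (P q).asIdeal)
    (hdec : ∀ q ∈ Q, ∀ σ : K ≃ₐ[k] K,
      (∀ x : 𝓞 K, σ • x ∈ (P q).asIdeal ↔ x ∈ (P q).asIdeal) → σ = 1) :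
    ∃ Q' ⊆ Q, Q'.Infinite ∧ ∀ q ∈ Q', ∃ (α c : 𝓞 K) (x y : K), x ≠ 0 ∧ y ≠ 0 ∧ α ≠ 0 ∧
      (α : K) = al (k := k) hz x * (al (k := k) hz y) ^ (p - 1) ∧ (z₀ - 1) ^ p ∣ α - c ^ p ∧
      (P q).valuation K (α : K) = exp (-1 : ℤ) ∧
      ∀ R : HeightOneSpectrum (𝓞 K), α ∈ R.asIdeal → ∃ σ : K ≃ₐ[k] K, ∃ q' ∈ Q,
        ∀ x : 𝓞 K, σ • x ∈ R.asIdeal ↔ x ∈ (P q').asIdeal := by
  classical
  have hp : p.Prime := hpf.out
  -- the ideal classes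
  haveI : Infinite Q := hQ.to_subtype
  let cl : Q → ClassGroup (𝓞 K) := fun q => ClassGroup.mk0 ⟨(P q).asIdeal,
    mem_nonZeroDivisors_of_ne_zero (P q).ne_bot⟩
  obtain ⟨C, hC⟩ := Finite.exists_infinite_fiber cl
  set Q₁ : Set ℕ := Subtype.val '' (cl ⁻¹' {C}) with hQ₁
  have hQ₁inf : Q₁.Infinite := by
    rw [hQ₁, Set.infinite_image_iff Subtype.val_injective.injOn]
    exact Set.infinite_coe_iff.1 hC
  have hQ₁Q : Q₁ ⊆ Q := by
    rintro _ ⟨q, -, rfl⟩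
    exact q.2
  have hQ₁C : ∀ q ∈ Q₁, ClassGroup.mk0 ⟨(P q).asIdeal,
      mem_nonZeroDivisors_of_ne_zero (P q).ne_bot⟩ = C := by
    rintro _ ⟨q, hq, rfl⟩
    exact hq
  obtain ⟨q₀, hq₀⟩ := hQ₁inf.nonempty
  set n := Fintype.card (ClassGroup (𝓞 K)) - 1 with hn
  have hprin : ∀ q ∈ Q₁, ∃ b : 𝓞 K, Ideal.span {b} = (P q).asIdeal * (P q₀).asIdeal ^ n := by
    intro q hq
    have h0 : (P q).asIdeal * (P q₀).asIdeal ^ n ∈ nonZeroDivisors (Ideal (𝓞 K)) :=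
      mul_mem (mem_nonZeroDivisors_of_ne_zero (P q).ne_bot)
        (pow_mem (mem_nonZeroDivisors_of_ne_zero (P q₀).ne_bot) n)
    have h1 : ClassGroup.mk0 ⟨(P q).asIdeal * (P q₀).asIdeal ^ n, h0⟩ = 1 := by
      have h2 : (⟨(P q).asIdeal * (P q₀).asIdeal ^ n, h0⟩ : nonZeroDivisors (Ideal (𝓞 K))) =
          ⟨(P q).asIdeal, mem_nonZeroDivisors_of_ne_zero (P q).ne_bot⟩ *
          ⟨(P q₀).asIdeal, mem_nonZeroDivisors_of_ne_zero (P q₀).ne_bot⟩ ^ n := rfl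
      rw [h2, map_mul, map_pow, hQ₁C q hq, hQ₁C q₀ hq₀, ← pow_succ', hn,
        Nat.sub_add_cancel Fintype.card_pos, pow_card_eq_one]
    rw [ClassGroup.mk0_eq_one_iff] at h1
    obtain ⟨b, hb⟩ := h1
    exact ⟨b, hb.symm⟩
  choose! b hb using hprin
  -- the residue classes
  set Q₂ : Set ℕ := Q₁ \ {q₀} with hQ₂
  have hQ₂inf : Q₂.Infinite := hQ₁inf.sdiff (Set.finite_singleton q₀)
  haveI : Infinite Q₂ := hQ₂inf.to_subtype
  have hp0 : Ideal.span {((p : ℕ) : 𝓞 K) ^ 2} ≠ ⊥ := by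
    rw [Ne, Ideal.span_singleton_eq_bot]
    exact pow_ne_zero 2 (by exact_mod_cast hp.ne_zero)
  haveI : Finite (𝓞 K ⧸ Ideal.span {((p : ℕ) : 𝓞 K) ^ 2}) :=
    Ideal.finiteQuotientOfFreeOfNeBot _ hp0
  let rs : Q₂ → 𝓞 K ⧸ Ideal.span {((p : ℕ) : 𝓞 K) ^ 2} :=
    fun q => Ideal.Quotient.mk _ (alO (k := k) hz (b q))
  obtain ⟨D, hD⟩ := Finite.exists_infinite_fiber rs
  set Q₃ : Set ℕ := Subtype.val '' (rs ⁻¹' {D}) with hQ₃
  have hQ₃inf : Q₃.Infinite := by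
    rw [hQ₃, Set.infinite_image_iff Subtype.val_injective.injOn]
    exact Set.infinite_coe_iff.1 hD
  have hQ₃Q : Q₃ ⊆ Q₂ := by
    rintro _ ⟨q, -, rfl⟩
    exact q.2
  have hQ₃D : ∀ q ∈ Q₃, Ideal.Quotient.mk (Ideal.span {((p : ℕ) : 𝓞 K) ^ 2})
      (alO (k := k) hz (b q)) = D := by
    rintro _ ⟨q, hq, rfl⟩
    exact hq
  obtain ⟨q₁, hq₁⟩ := hQ₃inf.nonempty
  have hb0 : ∀ q ∈ Q₁, b q ≠ 0 := by
    intro q hq h
    have h1 := hb q hq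
    rw [h, Ideal.span_singleton_eq_bot.2 rfl] at h1
    exact mul_ne_zero (P q).ne_bot (pow_ne_zero n (P q₀).ne_bot) h1.symm
  have hbK : ∀ q ∈ Q₁, ((b q : 𝓞 K) : K) ≠ 0 := by
    intro q hq h
    exact hb0 q hq (RingOfIntegers.ext h)
  have hal0 : ∀ q ∈ Q₁, alO (k := k) hz (b q) ≠ 0 := by
    intro q hq h
    have h1 := alO_coe (k := k) hz (b q)
    rw [h] at h1
    have h2 : al (k := k) hz ((b q : 𝓞 K) : K) = 0 := h1.symm
    unfold al at h2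
    rw [Finset.prod_eq_zero_iff] at h2
    obtain ⟨σ, -, hσ⟩ := h2
    have h4 : σ ((b q : 𝓞 K) : K) ≠ 0 := by
      rw [Ne, map_eq_zero]
      exact hbK q hq
    exact pow_ne_zero _ h4 hσ
  -- conjugates of `P q'` are different from `P q`
  have hres : ∀ q ∈ Q, ∀ q' ∈ Q, ∀ σ : K ≃ₐ[k] K,
      (∀ x : 𝓞 K, σ • x ∈ (P q).asIdeal ↔ x ∈ (P q').asIdeal) → q = q' := by
    intro q hq q' hq' σ h
    have h1 := (h (q' : 𝓞 K)).2 (hPq q' hq')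
    have h2 : σ • (q' : 𝓞 K) = (q' : 𝓞 K) := by
      apply RingOfIntegers.ext
      show σ ((q' : 𝓞 K) : K) = ((q' : 𝓞 K) : K)
      simp
    rw [h2] at h1
    exact prime_unique (hQp q hq) (hQp q' hq') (hPq q hq) h1
  refine ⟨Q₃ \ {q₁}, ?_, hQ₃inf.sdiff (Set.finite_singleton q₁), ?_⟩
  · intro q hq
    exact hQ₁Q (hQ₃Q hq.1).1
  rintro q ⟨hq3, hqq₁⟩
  have hqq₁' : q ≠ q₁ := hqq₁
  have hq1 : q ∈ Q₁ := (hQ₃Q hq3).1
  have hqq₀ : q ≠ q₀ := (hQ₃Q hq3).2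
  have hq₁1 : q₁ ∈ Q₁ := (hQ₃Q hq₁).1
  have hnotmem : ∀ q' ∈ Q₁, q' ≠ q → ∀ σ : K ≃ₐ[k] K, σ • b q' ∉ (P q).asIdeal := by
    intro q' hq' hne σ h
    rcases conj_mem (hb q' hq') h with h1 | h1
    · exact hne (hres q (hQ₁Q hq1) q' (hQ₁Q hq') σ h1).symm
    · exact hqq₀ (hres q (hQ₁Q hq1) q₀ (hQ₁Q hq₀) σ h1)
  refine ⟨alO (k := k) hz (b q) * (alO (k := k) hz (b q₁)) ^ (p - 1), alO (k := k) hz (b q₁),
    ((b q : 𝓞 K) : K), ((b q₁ : 𝓞 K) : K), hbK q hq1, hbK q₁ hq₁1,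
    mul_ne_zero (hal0 q hq1) (pow_ne_zero _ (hal0 q₁ hq₁1)), ?_, ?_, ?_, ?_⟩
  · rw [← alO_coe, ← alO_coe, RingOfIntegers.val, map_mul, map_pow]
  · have h1 : alO (k := k) hz (b q) * (alO (k := k) hz (b q₁)) ^ (p - 1) -
        (alO (k := k) hz (b q₁)) ^ p =
        (alO (k := k) hz (b q) - alO (k := k) hz (b q₁)) * (alO (k := k) hz (b q₁)) ^ (p - 1) := by
      rw [sub_mul, ← pow_succ', Nat.sub_add_cancel hp.one_lt.le]
    rw [h1]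
    apply Dvd.dvd.mul_right
    have h2 : ((p : ℕ) : 𝓞 K) ^ 2 ∣ alO (k := k) hz (b q) - alO (k := k) hz (b q₁) := by
      rw [← Ideal.mem_span_singleton, ← Ideal.Quotient.eq, hQ₃D q hq3, hQ₃D q₁ hq₁]
    have hz₀p : IsPrimitiveRoot z₀ p := by
      rw [← IsPrimitiveRoot.map_iff_of_injective (f := algebraMap (𝓞 K) K)
        RingOfIntegers.coe_injective]
      rw [← hz₀] at hz
      exact hz
    exact (dvd_sq hz₀p).trans h2
  · -- the valuation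
    rw [RingOfIntegers.val, map_mul, map_pow, map_mul, map_pow]
    have h1 : (P q).valuation K (algebraMap (𝓞 K) K (alO (k := k) hz (b q₁))) = 1 := by
      have h2 : alO (k := k) hz (b q₁) ∉ (P q).asIdeal := by
        intro h
        obtain ⟨σ, hσ⟩ := mem_alO hz h
        exact hnotmem q₁ hq₁1 hqq₁'.symm σ hσ
      exact (P q).valuation_eq_one_iff_notMem.2 h2
    rw [h1, one_pow, mul_one]
    apply val_alO hz
    · apply val_of_span (hb q hq1)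
      intro h
      apply hqq₀
      refine prime_unique (P := P q) (hQp q (hQ₁Q hq1)) (hQp q₀ (hQ₁Q hq₀)) (hPq q (hQ₁Q hq1)) ?_
      rw [h]
      exact hPq q₀ (hQ₁Q hq₀)
    · intro σ hσ
      rcases conj_mem (hb q hq1) hσ with h3 | h3
      · exact hdec q (hQ₁Q hq1) σ h3
      · exact absurd (hres q (hQ₁Q hq1) q₀ (hQ₁Q hq₀) σ h3) hqq₀
  · intro R hR
    have h1 : ∃ q' ∈ Q₁, alO (k := k) hz (b q') ∈ R.asIdeal := by
      rcases R.isPrime.mem_or_mem hR with h | h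
      · exact ⟨q, hq1, h⟩
      · exact ⟨q₁, hq₁1, R.isPrime.mem_of_pow_mem _ h⟩
    obtain ⟨q', hq', h2⟩ := h1
    obtain ⟨σ, hσ⟩ := mem_alO hz h2
    rcases conj_mem (hb q' hq') hσ with h3 | h3
    · exact ⟨σ, q', hQ₁Q hq', h3⟩
    · exact ⟨σ, q₀, hQ₁Q hq₀, h3⟩

end Pool.Agent.K7.H76.LC
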