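import Mathlib
import Pool.Agent.K7.H76.LC.Omega2

/-!
# The step for subfields of a large field, main theorem
-/

set_option autoImplicit false

namespace Pool.Agent.K7.H76.LC

open NumberField IsDedekindDomain Module Pool.Agent.Y18.LC
open Pool.Agent.W289.SL Pool.Agent.K7.H76.SL

variable {k Ω : Type} [Field k] [NumberField k] [Field Ω] [Algebra k Ω]

/-- **the step**, for subfields of `Ω` -/
theorem stepO' {p : ℕ} [hpf : Fact p.Prime] (hp2 : p ≠ 2) [IsTotallyComplex k]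
    (h2k : finrank ℚ k = 2) (φ : k →+* ℂ_[p]) {v₀ : HeightOneSpectrum (𝓞 k)} (hv₀ : Induced v₀ φ)
    (K M : IntermediateField k Ω) [hnfK : NumberField K] (hpk : ¬ p ∣ finrank k K)
    (hUr : Ur (upS K ({φ} : Set (k →+* ℂ_[p])))) (r : ℕ) (hM : finrank k M = p ^ r)
    (hMEA : EAk p k M) (hMun : UnrF M v₀) (hL : TopF (K ⊔ M) φ) :
    ∃ W : ℕ, ∀ (m : ℕ) (F₀ : IntermediateField k Ω), M ≤ F₀ → EAk p k F₀ →
      finrank k F₀ = p ^ (r + m) → UnrF F₀ v₀ →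
      (∀ 𝔮 : HeightOneSpectrum (𝓞 k), UnrF F₀ 𝔮 ∨ NonSk K 𝔮) →
      p ^ (m - W) ≤ 1 + (p - 1) * Nat.card {L : IntermediateField k Ω // M ≤ L ∧ L ≤ F₀ ∧
        finrank k L = p ^ (r + 1) ∧ TopF (K ⊔ L) φ} := by
  classical
  have hp : p.Prime := hpf.out
  obtain ⟨hnf1, hL1⟩ := hL
  haveI hKfd : FiniteDimensional k K := FiniteDimensional.right ℚ k K
  -- the field `K₁`
  letI alg1 : Algebra K ↥(K ⊔ M) :=
    (IntermediateField.inclusion (le_sup_left : K ≤ K ⊔ M)).toRingHom.toAlgebra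
  haveI : IsScalarTower k K ↥(K ⊔ M) := IsScalarTower.of_algebraMap_eq' rfl
  have hMC : M ≤ K ⊔ M := le_sup_right
  have htop1 : IntermediateField.adjoin K (IntermediateField.restrict hMC : Set ↥(K ⊔ M)) = ⊤ :=
    adjoin_top'' rfl hMC K (fun x hx => ⟨⟨x, hx⟩, rfl⟩)
  have hMEA1 := EAk_restrict hMC hMEA
  have hMr : finrank k (IntermediateField.restrict hMC) = p ^ r := by
    rw [finrank_restrict, hM]
  have hUr1 : Ur (upS ↥(K ⊔ M) ({φ} : Set (k →+* ℂ_[p]))) := by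
    rw [← upS_upS (K := K)]
    exact ur_comp hMEA1.1 htop1 hv₀ (Unr_restrict hMC hMun) hUr
  have hn1 : ∃ n : ℕ, finrank k ↥(K ⊔ M) = n * p ^ r ∧ ¬ p ∣ n := by
    obtain ⟨h1, -, -, h2, -⟩ := fld' (K := K) hMEA1.1 hMEA1.2.1 hMEA1.2.2 hMr htop1 hpk
    refine ⟨finrank k K, ?_, hpk⟩
    haveI := h1
    haveI : FiniteDimensional K ↥(K ⊔ M) := FiniteDimensional.right ℚ K ↥(K ⊔ M)
    rw [← h2, IsGalois.card_aut_eq_finrank]
    exact (Module.finrank_mul_finrank k K ↥(K ⊔ M)).symm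
  obtain ⟨W, hW⟩ := stepM hp2 h2k φ hL1 hUr1
  refine ⟨W, ?_⟩
  intro m F₀ hMF hFEA hFfr hFun hFram
  have hfdF₀ : FiniteDimensional k F₀ := by
    apply FiniteDimensional.of_finrank_pos
    rw [hFfr]
    exact pow_pos hp.pos _
  have hnfF : NumberField ↥(K ⊔ F₀) := nf_of' _ inferInstance
  have hFC : F₀ ≤ K ⊔ F₀ := le_sup_right
  have hMC' : M ≤ K ⊔ F₀ := hMF.trans hFC
  letI alg2 : Algebra K ↥(K ⊔ F₀) :=
    (IntermediateField.inclusion (le_sup_left : K ≤ K ⊔ F₀)).toRingHom.toAlgebra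
  haveI : IsScalarTower k K ↥(K ⊔ F₀) := IsScalarTower.of_algebraMap_eq' rfl
  letI alg3 : Algebra ↥(K ⊔ M) ↥(K ⊔ F₀) :=
    (IntermediateField.inclusion (sup_le_sup_left hMF K)).toRingHom.toAlgebra
  haveI : IsScalarTower k ↥(K ⊔ M) ↥(K ⊔ F₀) := IsScalarTower.of_algebraMap_eq' rfl
  have hFEA1 := EAk_restrict hFC hFEA
  have htop3 : IntermediateField.adjoin ↥(K ⊔ M)
      (IntermediateField.restrict hFC : Set ↥(K ⊔ F₀)) = ⊤ :=
    adjoin_top'' rfl hFC ↥(K ⊔ M) (fun x hx => ⟨⟨x, (le_sup_left : K ≤ K ⊔ M) hx⟩, rfl⟩)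
  have hUr2 : Ur (upS ↥(K ⊔ F₀) (upS ↥(K ⊔ M) ({φ} : Set (k →+* ℂ_[p])))) :=
    ur_comp hFEA1.1 htop3 hv₀ (Unr_restrict hFC hFun) hUr1
  have hram : Ram (IntermediateField.restrict hMC) ↥(K ⊔ M) ↥(K ⊔ F₀) := by
    intro v
    obtain ⟨v₁, hv₁⟩ := exists_below' (k := K) v
    obtain ⟨𝔮, h𝔮⟩ := exists_below' (k := k) v₁
    have h𝔮v : Above 𝔮 v := by
      intro x
      rw [← h𝔮 x, ← hv₁ (algebraMap (𝓞 k) (𝓞 K) x)]
      exact Iff.rfl
    rcases hFram 𝔮 with h1 | h1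
    · left
      obtain ⟨w, hw⟩ := exists_above (K := ↥(K ⊔ F₀)) v
      exact ⟨w, fun x => ram' hFEA1.1 htop3 (Unr_restrict hFC h1) h𝔮v hw x⟩
    · right
      obtain ⟨-, h1⟩ := h1
      intro v' hv'
      exact nsb' hMEA1.1 hMr htop1 hpk 𝔮 h1 v v' h𝔮 hv₁ hv'
  obtain ⟨𝓖, h𝓖, h𝓖'⟩ := hW m r ↥(K ⊔ F₀) (IntermediateField.restrict hMC')
    (IntermediateField.restrict hFC) (IntermediateField.restrict hMC)
    (fun x => (IntermediateField.mem_restrict hFC _).2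
      (hMF ((IntermediateField.mem_restrict hMC _).1 x.2)))
    (fun x hx => (IntermediateField.mem_restrict hFC _).2
      (hMF ((IntermediateField.mem_restrict hMC' _).1 hx)))
    hFEA1.1 hFEA1.2.1 hFEA1.2.2 (by rw [finrank_restrict, hM]) (by rw [finrank_restrict, hFfr])
    htop3
    (fun x hx => ⟨⟨x, (le_sup_right : M ≤ K ⊔ M) ((IntermediateField.mem_restrict hMC' _).1 hx)⟩,
      Subtype.ext rfl⟩) hn1 hUr2 hram
  refine h𝓖.trans ?_
  have hfin : Finite {L : IntermediateField k Ω // M ≤ L ∧ L ≤ F₀ ∧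
      finrank k L = p ^ (r + 1) ∧ TopF (K ⊔ L) φ} := by
    have h1 := finite_sub' F₀ hfdF₀
    refine Finite.of_injective (fun L => (⟨L.1, L.2.2.1⟩ : {L : IntermediateField k Ω // L ≤ F₀})) ?_
    intro L L' h
    have h2 := congrArg (fun t : {L : IntermediateField k Ω // L ≤ F₀} => t.1) h
    exact Subtype.ext h2
  have hmain : ∀ L₀ ∈ 𝓖, M ≤ IntermediateField.lift L₀ ∧ IntermediateField.lift L₀ ≤ F₀ ∧
      finrank k (IntermediateField.lift L₀) = p ^ (r + 1) ∧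
        TopF (K ⊔ IntermediateField.lift L₀) φ := by
    intro L₀ hL₀
    obtain ⟨h1, h2, h3, h4⟩ := h𝓖' L₀ hL₀
    have hML : M ≤ IntermediateField.lift L₀ := by
      intro x hx
      have hxC : x ∈ K ⊔ F₀ := hMC' hx
      exact (IntermediateField.mem_lift (⟨x, hxC⟩ : ↥(K ⊔ F₀))).2
        (h1 ((IntermediateField.mem_restrict hMC' _).2 hx))
    refine ⟨hML, ?_, ?_, ?_⟩
    · intro x hx
      have hxC : x ∈ K ⊔ F₀ := IntermediateField.lift_le L₀ hx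
      exact (IntermediateField.mem_restrict hFC (⟨x, hxC⟩ : ↥(K ⊔ F₀))).1
        (h2 ((IntermediateField.mem_lift (⟨x, hxC⟩ : ↥(K ⊔ F₀))).1 hx))
    · rw [← h3]
      exact (IntermediateField.liftAlgEquiv L₀).toLinearEquiv.finrank_eq.symm
    · exact topF_adjoin rfl (fun x => rfl) L₀ hML h4
  have hcard : 𝓖.card ≤ Nat.card {L : IntermediateField k Ω // M ≤ L ∧ L ≤ F₀ ∧
      finrank k L = p ^ (r + 1) ∧ TopF (K ⊔ L) φ} := by
    rw [← Fintype.card_coe, ← Nat.card_eq_fintype_card]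
    refine Nat.card_le_card_of_injective (fun L₀ : 𝓖 => ⟨IntermediateField.lift L₀.1,
      hmain L₀.1 L₀.2⟩) ?_
    intro L L' h
    have h2 := congrArg (fun t : {L : IntermediateField k Ω // M ≤ L ∧ L ≤ F₀ ∧
      finrank k L = p ^ (r + 1) ∧ TopF (K ⊔ L) φ} => t.1) h
    exact Subtype.ext (IntermediateField.lift_injective _ h2)
  exact Nat.add_le_add_left (Nat.mul_le_mul_left _ hcard) 1

end Pool.Agent.K7.H76.LC
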