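import Mathlib
import Pool.Agent.K7.H76.LC.Omega3

/-!
# The injectivity of the logarithms descends
-/

set_option autoImplicit false

namespace Pool.Agent.K7.H76.LC

open NumberField IsDedekindDomain Module TensorProduct
open Pool.Agent.W289.SL Pool.Agent.K7.H76.SL

variable {p : ℕ} [hpf : Fact p.Prime]

/-- the logarithms at the places in `S` are injective on `ℂ_p ⊗ 𝓞_E^×` -/
def LInj {E : Type} [Field E] [NumberField E] (S : Set (E →+* ℂ_[p])) : Prop :=
  ∀ (L : ℂ_[p] → ℂ_[p]) (hL : IsIwasawaLog p L) (x : UM p E),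
    (∀ τ ∈ S, logLin hL τ x = 0) → x = 0

section

variable {k A B : Type} [Field k] [Field A] [NumberField A] [Field B] [NumberField B]
  [Algebra k A] [Algebra k B]

lemma flat_Cp : Module.Flat ℤ ℂ_[p] := by
  infer_instance

/-- the injectivity of the logarithms descends -/
theorem LInj.desc (f : A →ₐ[k] B) {S : Set (k →+* ℂ_[p])} (h : LInj (upS B S)) :
    LInj (upS A S) := by
  intro L hL x hx
  let g : Additive (𝓞 A)ˣ →ₗ[ℤ] Additive (𝓞 B)ˣ :=
    (MonoidHom.toAdditive
      (Units.map (RingOfIntegers.mapRingHom (f : A →+* B)).toMonoidHom)).toIntLinearMap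
  have hg : Function.Injective g := by
    intro a b hab
    have h1 : Units.map (RingOfIntegers.mapRingHom (f : A →+* B)).toMonoidHom a.toMul =
        Units.map (RingOfIntegers.mapRingHom (f : A →+* B)).toMonoidHom b.toMul := hab
    have h2 : f ((a.toMul : 𝓞 A) : A) = f ((b.toMul : 𝓞 A) : A) :=
      congrArg (fun t : (𝓞 B)ˣ => ((t : 𝓞 B) : B)) h1
    have h3 := f.toRingHom.injective h2
    apply Additive.toMul.injective
    apply Units.ext
    apply RingOfIntegers.ext
    exact h3
  haveI := flat_Cp (p := p)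
  have hG : Function.Injective (g.baseChange ℂ_[p]) :=
    Module.Flat.lTensor_preserves_injective_linearMap (M := ℂ_[p]) g hg
  apply hG
  rw [map_zero]
  apply h L hL
  intro τ hτ
  have hτA : τ.comp (f : A →+* B) ∈ upS A S := by
    show (τ.comp (f : A →+* B)).comp (algebraMap k A) ∈ S
    have h2 : (τ.comp (f : A →+* B)).comp (algebraMap k A) = τ.comp (algebraMap k B) := by
      ext x
      show τ (f (algebraMap k A x)) = τ (algebraMap k B x)
      rw [f.commutes]
    rw [h2]
    exact hτ
  rw [← hx _ hτA]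
  have hlin : (logLin hL τ).comp (g.baseChange ℂ_[p]) = logLin hL (τ.comp (f : A →+* B)) := by
    apply TensorProduct.AlgebraTensorModule.ext
    intro a b
    show logLin hL τ (g.baseChange ℂ_[p] (a ⊗ₜ b)) = _
    rw [LinearMap.baseChange_tmul]
    rfl
  exact LinearMap.congr_fun hlin x

end

/-- the logarithms are injective on the units of `L` -/
def LInjF {k Ω : Type} [Field k] [NumberField k] [Field Ω] [Algebra k Ω]
    (H : IntermediateField k Ω) (φ : k →+* ℂ_[p]) : Prop :=
  ∃ _ : NumberField H, LInj (upS H ({φ} : Set (k →+* ℂ_[p])))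

end Pool.Agent.K7.H76.LC
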