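import Mathlib
import Pool.Agent.K7.H76.LC.Kum5
import Pool.Agent.K7.H76.LC.Tower

/-!
# The infinite extension
-/

set_option autoImplicit false

namespace Pool.Agent.K7.H76.LC

open NumberField IsDedekindDomain Module IntermediateField WithZero
open Pool.Agent.K7.H76.SL

variable {p : ℕ} [hpf : Fact p.Prime] {k Ω : Type} [Field k] [NumberField k] [Field Ω]
  [Algebra k Ω]

lemma unrF_bot (𝔮 : HeightOneSpectrum (𝓞 k)) : UnrF (⊥ : IntermediateField k Ω) 𝔮 := by
  have e := (IntermediateField.botEquiv k Ω)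
  haveI : NumberField (⊥ : IntermediateField k Ω) := nf_of' _ inferInstance
  exact ⟨inferInstance, Unr.of_hom (B := k) e.toAlgHom ⟨𝔮, fun x => rfl⟩⟩

/-- composites of unramified extensions are unramified -/
lemma UnrF.sup {L₁ L₂ : IntermediateField k Ω} (hfd : FiniteDimensional k L₂)
    (hG : IsGalois k L₂) {𝔮 : HeightOneSpectrum (𝓞 k)} (h₁ : UnrF L₁ 𝔮) (h₂ : UnrF L₂ 𝔮) :
    UnrF (L₁ ⊔ L₂) 𝔮 := by
  obtain ⟨hnf, v, hv⟩ := h₁
  haveI : FiniteDimensional k L₁ := FiniteDimensional.right ℚ k L₁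
  have hnfF : NumberField ↥(L₁ ⊔ L₂) := nf_of' _ inferInstance
  letI alg : Algebra L₁ ↥(L₁ ⊔ L₂) := (inclusion (le_sup_left : L₁ ≤ L₁ ⊔ L₂)).toRingHom.toAlgebra
  haveI : IsScalarTower k L₁ ↥(L₁ ⊔ L₂) := IsScalarTower.of_algebraMap_eq' rfl
  have hle : L₂ ≤ L₁ ⊔ L₂ := le_sup_right
  have htop : adjoin L₁ (restrict hle : Set ↥(L₁ ⊔ L₂)) = ⊤ :=
    adjoin_top'' rfl hle L₁ (fun x hx => ⟨⟨x, hx⟩, rfl⟩)
  have hG' : IsGalois k (restrict hle) := IsGalois.of_algEquiv (restrictAlgEquiv hle)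
  have h𝔮v : Above 𝔮 v := above_of_val hv
  obtain ⟨w, hw⟩ := exists_above (K := ↥(L₁ ⊔ L₂)) v
  refine ⟨hnfF, w, fun x => ?_⟩
  rw [IsScalarTower.algebraMap_apply k L₁ ↥(L₁ ⊔ L₂),
    ram' hG' htop (Unr_restrict hle h₂) h𝔮v hw, hv]

lemma unrF_finset {ι : Type} (t : ι → IntermediateField k Ω) {𝔮 : HeightOneSpectrum (𝓞 k)}
    (h : ∀ i, FiniteDimensional k (t i) ∧ IsGalois k (t i) ∧ UnrF (t i) 𝔮) (s : Finset ι) :
    FiniteDimensional k ↥(⨆ i ∈ s, t i) ∧ UnrF (⨆ i ∈ s, t i) 𝔮 := by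
  classical
  induction s using Finset.induction_on with
  | empty =>
    have h1 : (⨆ i ∈ (∅ : Finset ι), t i) = ⊥ := by simp
    rw [h1]
    exact ⟨inferInstance, unrF_bot 𝔮⟩
  | insert a s ha ih =>
    rw [Finset.iSup_insert, sup_comm]
    obtain ⟨h1, h2⟩ := ih
    obtain ⟨h3, h4, h5⟩ := h a
    exact ⟨inferInstance, UnrF.sup h3 h4 h2 h5⟩

/-- finite subextensions of unions -/
lemma exists_finset {ι : Type} (t : ι → IntermediateField k Ω) (L : IntermediateField k Ω)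
    (hL : FiniteDimensional k L) (h : L ≤ ⨆ i, t i) : ∃ s : Finset ι, L ≤ ⨆ i ∈ s, t i := by
  have hnf : NumberField L := nf_of' L hL
  obtain ⟨α, hα⟩ := Field.exists_primitive_element k L
  obtain ⟨s, hs⟩ := exists_finset_of_mem_iSup (h α.2)
  refine ⟨s, fun x hx => ?_⟩
  have h2 : adjoin k {α} ≤ (⨆ i ∈ s, t i).comap L.val := by
    rw [adjoin_simple_le_iff]
    exact hs
  have h3 : (⟨x, hx⟩ : L) ∈ adjoin k {α} := by
    rw [hα]
    trivial
  exact h2 h3

/-- automorphisms of a union of subfields -/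
lemma ext_iSup {ι : Type} {t : ι → IntermediateField k Ω} {A : IntermediateField k Ω}
    (hA : A = ⨆ i, t i) {g : A ≃ₐ[k] A} (h : ∀ i, ∀ x : A, (x : Ω) ∈ t i → g x = x) : g = 1 := by
  apply AlgEquiv.ext
  intro x
  let T : IntermediateField k Ω := (fixedField (Subgroup.zpowers g)).map A.val
  have hT : ∀ y : A, g y = y → (y : Ω) ∈ T := by
    intro y hy
    refine ⟨y, ?_, rfl⟩
    rintro ⟨h, n, rfl⟩
    have h4 : g ∈ MulAction.stabilizer (A ≃ₐ[k] A) y := hy
    exact Subgroup.zpow_mem _ h4 n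
  have hET : A ≤ T := by
    conv_lhs => rw [hA]
    apply iSup_le
    intro i y hy
    have hyA : y ∈ A := by
      rw [hA]
      exact (le_iSup t i) hy
    exact hT ⟨y, hyA⟩ (h i _ hy)
  obtain ⟨y, hy, hyx⟩ := hET x.2
  have h3 : y = x := Subtype.ext hyx
  subst h3
  exact hy ⟨g, Subgroup.mem_zpowers g⟩

/-- unions of elementary abelian extensions -/
lemma EAk_iSup {ι : Type} (t : ι → IntermediateField k Ω) (h : ∀ i, EAk p k (t i)) :
    EAk p k ↥(⨆ i, t i) := by
  obtain ⟨A, hA⟩ : ∃ A, A = ⨆ i, t i := ⟨_, rfl⟩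
  rw [← hA]
  have htA : ∀ i, t i ≤ A := fun i => by rw [hA]; exact le_iSup t i
  haveI : ∀ i, Normal k (t i) := fun i => (h i).1.to_normal
  have hn : Normal k A := by
    rw [hA]
    infer_instance
  have hG : IsGalois k A := { to_isSeparable := inferInstance, to_normal := hn }
  -- restriction
  have hres : ∀ i, EAk p k (restrict (htA i)) := fun i => EAk_restrict (htA i) (h i)
  haveI hnr : ∀ i, Normal k (restrict (htA i)) := fun i => (hres i).1.to_normal
  have hcom : ∀ (i : ι) (g : A ≃ₐ[k] A) (x : A) (hx : x ∈ restrict (htA i)),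
      (((AlgEquiv.restrictNormalHom (restrict (htA i)) g) ⟨x, hx⟩ : restrict (htA i)) : A) = g x :=
    fun i g x hx => AlgEquiv.restrictNormal_commutes g (restrict (htA i)) ⟨x, hx⟩
  refine ⟨hG, fun g g' => ?_, fun g => ?_⟩
  · have h1 : (g * g') * (g' * g)⁻¹ = 1 := by
      have h2 : (g' * g)⁻¹ * (g * g') = 1 := by
        apply ext_iSup hA
        intro i x hx
        have hx' : x ∈ restrict (htA i) := (mem_restrict _ _).2 hx
        show (g' * g).symm ((g * g') x) = x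
        rw [AlgEquiv.symm_apply_eq, ← hcom i (g * g') x hx', ← hcom i (g' * g) x hx', map_mul,
          map_mul, (hres i).2.1]
      rw [inv_mul_eq_one] at h2
      rw [h2, mul_inv_cancel]
    rw [mul_inv_eq_one] at h1
    exact h1
  · apply ext_iSup hA
    intro i x hx
    have hx' : x ∈ restrict (htA i) := (mem_restrict _ _).2 hx
    rw [← hcom i (g ^ p) x hx', map_pow, (hres i).2.2]
    rfl

end Pool.Agent.K7.H76.LC
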