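import Mathlib
import Pool.Agent.K7.H76.LC.Kum6

/-!
# Existence of the infinite extension
-/

set_option autoImplicit false

namespace Pool.Agent.K7.H76.LC

open NumberField IsDedekindDomain Module IntermediateField WithZero
open Pool.Agent.K7.H76.SL

variable {p : ℕ} [hpf : Fact p.Prime]

/-- the ramification index one -/
lemma idx_int {B : Type} [Field B] [NumberField B] {q : ℕ} (hq : q.Prime)
    (h : ¬ (q : ℤ) ∣ discr B) (W : HeightOneSpectrum (𝓞 B)) (hW : (q : 𝓞 B) ∈ W.asIdeal) :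
    W.asIdeal.ramificationIdx ℤ = 1 := by
  have hqI : Prime (q : ℤ) := Nat.prime_iff_prime_int.1 hq
  have h1 := (not_dvd_discr_iff_forall_mem B (𝓞 B) hqI).1 h W.asIdeal W.isPrime
    (by exact_mod_cast hW)
  exact Ideal.ramificationIdx_eq_one_iff.2 h1

/-- unramified above unramified prime numbers -/
lemma val_int {A B : Type} [Field A] [NumberField A] [Field B] [NumberField B] [Algebra A B]
    {q : ℕ} (hq : q.Prime) (h : ¬ (q : ℤ) ∣ discr B) {P : HeightOneSpectrum (𝓞 A)}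
    {W : HeightOneSpectrum (𝓞 B)} (hPW : Above P W) (hP : (q : 𝓞 A) ∈ P.asIdeal) (x : A) :
    W.valuation B (algebraMap A B x) = P.valuation A x := by
  have hW : (q : 𝓞 B) ∈ W.asIdeal := by
    have h1 := (hPW (q : 𝓞 A)).2 hP
    rwa [map_natCast] at h1
  haveI := liesOver_of_above hPW
  apply val_of_idx_one (liesOver_of_above hPW)
  have h1 := Ideal.ramificationIdx_tower (R := ℤ) P.asIdeal W.asIdeal
  rw [idx_int hq h W hW] at h1
  exact Nat.eq_one_of_mul_eq_one_left h1.symm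

variable {k Ω : Type} [Field k] [NumberField k] [Field Ω] [Algebra k Ω] [IsAlgClosed Ω]
  [Algebra.IsAlgebraic k Ω]

/-- the elements of `kz` are in the eigenspace -/
lemma eig_al {ζ : Ω} {kz : IntermediateField k Ω} (hkz : kz = adjoin k {ζ}) [NumberField kz]
    (hn : Normal k kz) {z : kz} (hz : IsPrimitiveRoot z p) (hzζ : (z : Ω) = ζ) {x : kz}
    (hx : x ≠ 0) : Eig p k ζ ((al (k := k) hz x : kz) : Ω) := by
  intro σ t ht
  haveI := hn
  have h1 : (σ.restrictNormal kz) z = z ^ t := by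
    apply Subtype.ext
    have h2 : ((σ.restrictNormal kz z : kz) : Ω) = σ (z : Ω) :=
      AlgEquiv.restrictNormal_commutes σ kz z
    rw [h2, hzζ, ht, ← hzζ]
    rfl
  obtain ⟨β, hβ⟩ := al_eig hz hx (σ.restrictNormal kz) h1
  refine ⟨β, by rw [← hkz]; exact β.2, ?_⟩
  have h2 : ((σ.restrictNormal kz (al (k := k) hz x) : kz) : Ω) = σ ((al (k := k) hz x : kz) : Ω) :=
    AlgEquiv.restrictNormal_commutes σ kz _
  rw [← h2, hβ]
  rfl

theorem exists_infinite {ζ : Ω} (hζ : IsPrimitiveRoot ζ p) {kz : IntermediateField k Ω}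
    (hkz : kz = adjoin k {ζ}) [NumberField kz] {Q : Set ℕ} (hQ : Q.Infinite)
    (hQp : ∀ q ∈ Q, q.Prime) (P : ℕ → HeightOneSpectrum (𝓞 kz))
    (hPq : ∀ q ∈ Q, (q : 𝓞 kz) ∈ (P q).asIdeal)
    (hdec : ∀ q ∈ Q, ∀ σ : kz ≃ₐ[k] kz,
      (∀ x : 𝓞 kz, σ • x ∈ (P q).asIdeal ↔ x ∈ (P q).asIdeal) → σ = 1) :
    ∃ A : IntermediateField k Ω, EAk p k A ∧ ¬ FiniteDimensional k A ∧
      ∀ 𝔮 : HeightOneSpectrum (𝓞 k), (∀ q ∈ Q, ¬ Above 𝔮 (P q)) →
        ∀ L : IntermediateField k Ω, L ≤ A → FiniteDimensional k L → UnrF L 𝔮 := by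
  classical
  have hp : p.Prime := hpf.out
  haveI : NeZero p := ⟨hp.ne_zero⟩
  haveI hfdk : FiniteDimensional k kz := FiniteDimensional.right ℚ k kz
  have hζk : ζ ∈ kz := by rw [hkz]; exact mem_adjoin_simple_self k ζ
  have hno : Normal k Ω := ⟨fun x => IsAlgClosed.splits _⟩
  have hn : Normal k kz := by
    rw [normal_iff_forall_map_le']
    intro σ
    obtain ⟨t, ht⟩ := aut_pow hζ σ
    have ht' : σ ζ = ζ ^ t := ht
    conv_lhs => rw [hkz]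
    rw [adjoin_map, adjoin_le_iff]
    rintro _ ⟨x, hx, rfl⟩
    have hx' : x = ζ := hx
    subst hx'
    show σ _ ∈ kz
    rw [ht']
    exact pow_mem hζk t
  let z : kz := ⟨ζ, hζk⟩
  have hz : IsPrimitiveRoot z p := by
    rw [← IsPrimitiveRoot.map_iff_of_injective (f := (algebraMap kz Ω)) (algebraMap kz Ω).injective]
    exact hζ
  let z₀ : 𝓞 kz := hz.toInteger
  have hz₀ : ((z₀ : 𝓞 kz) : kz) = z := rfl
  obtain ⟨Q', hQ'Q, hQ'inf, hQ'⟩ := choose_alpha (k := k) hz hz₀ hQ hQp P hPq hdec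
  -- the fields
  have hL : ∀ q : Q', ∃ (L : IntermediateField k Ω) (α : 𝓞 kz) (a : Ω), FiniteDimensional k L ∧
      EAk p k L ∧ a ^ p = ((α : kz) : Ω) ∧ a ∈ kz ⊔ L ∧
      (P q).valuation kz (α : kz) = exp (-1 : ℤ) ∧
      ∀ 𝔮 : HeightOneSpectrum (𝓞 k), (∀ q ∈ Q, ¬ Above 𝔮 (P q)) → UnrF L 𝔮 := by
    intro q
    obtain ⟨α, c, x, y, hx, hy, hα0, hα, hprim, hval, hR⟩ := hQ' q q.2
    obtain ⟨a, ha⟩ := IsAlgClosed.exists_pow_nat_eq ((α : kz) : Ω) hp.pos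
    have hEig : Eig p k ζ ((α : kz) : Ω) := by
      rw [hα]
      exact (eig_al hkz hn hz rfl hx).mul ((eig_al hkz hn hz rfl hy).pow (p - 1))
    obtain ⟨L, h1, h2, h3, h4⟩ := kummer2 hζ hkz α c z₀ hα0 rfl ha hEig hprim
    refine ⟨L, α, a, h1, h2, ha, h3, hval, fun 𝔮 h𝔮 => h4 𝔮 fun R hR' hαR => ?_⟩
    obtain ⟨σ, q', hq', hσ⟩ := hR R hαR
    apply h𝔮 q' hq'
    intro w
    have h5 : σ • (algebraMap (𝓞 k) (𝓞 kz) w) = algebraMap (𝓞 k) (𝓞 kz) w := by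
      apply RingOfIntegers.ext
      exact σ.commutes (w : k)
    rw [← hσ, h5]
    exact hR' w
  choose L α a hfd hEA haα haL hval hun using hL
  set A : IntermediateField k Ω := ⨆ q : Q', L q with hA
  refine ⟨A, EAk_iSup L hEA, ?_, ?_⟩
  · intro hfin
    have hnfB : NumberField ↥(kz ⊔ A) := nf_of' _ inferInstance
    letI alg : Algebra kz ↥(kz ⊔ A) := (inclusion (le_sup_left : kz ≤ kz ⊔ A)).toRingHom.toAlgebra
    have hd : discr ↥(kz ⊔ A) ≠ 0 := discr_ne_zero _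
    obtain ⟨q, hq, hqd⟩ : ∃ q ∈ Q', ¬ (q : ℤ) ∣ discr ↥(kz ⊔ A) := by
      by_contra hcon
      push Not at hcon
      apply hQ'inf
      refine (Set.finite_Iic (discr ↥(kz ⊔ A)).natAbs).subset fun q hq => ?_
      exact Nat.le_of_dvd (Int.natAbs_pos.2 hd) (Int.natCast_dvd.1 (hcon q hq))
    have haB : a ⟨q, hq⟩ ∈ kz ⊔ A :=
      (sup_le_sup_left (le_iSup L ⟨q, hq⟩) kz) (haL ⟨q, hq⟩)
    obtain ⟨W, hW⟩ := exists_above (K := ↥(kz ⊔ A)) (P q)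
    have h1 := val_int (hQp q (hQ'Q hq)) hqd hW (hPq q (hQ'Q hq)) ((α ⟨q, hq⟩ : 𝓞 kz) : kz)
    rw [hval ⟨q, hq⟩] at h1
    have h2 : algebraMap kz ↥(kz ⊔ A) ((α ⟨q, hq⟩ : 𝓞 kz) : kz) =
        (⟨a ⟨q, hq⟩, haB⟩ : ↥(kz ⊔ A)) ^ p := Subtype.ext (haα ⟨q, hq⟩).symm
    rw [h2, map_pow] at h1
    -- `p` divides `1`
    have h3 : W.valuation ↥(kz ⊔ A) (⟨a ⟨q, hq⟩, haB⟩ : ↥(kz ⊔ A)) ≠ 0 := by
      intro h
      rw [h, zero_pow hp.ne_zero] at h1
      exact exp_ne_zero h1.symm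
    rw [← exp_log h3, ← exp_nsmul] at h1
    have h4 := exp_injective h1
    have h5 : (p : ℤ) ∣ -1 := ⟨_, by rw [← h4, nsmul_eq_mul]⟩
    have h6 : (p : ℤ) ∣ 1 := (dvd_neg).1 h5
    have h7 : p ∣ 1 := by exact_mod_cast h6
    exact hp.one_lt.ne' (Nat.dvd_one.1 h7)
  · intro 𝔮 h𝔮 M hMA hM
    obtain ⟨s, hs⟩ := exists_finset L M hM hMA
    exact UnrF.mono hs hM (unrF_finset L (fun i => ⟨hfd i, (hEA i).1, hun i 𝔮 h𝔮⟩) s).2

end Pool.Agent.K7.H76.LC
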