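import Mathlib
import Pool.Agent.Y287.LC.CHB
import Pool.Agent.K7.H76.LC.Kum7

/-!
# Infinitely many primes of degree one with one prime of `K` above
-/

set_option autoImplicit false

namespace Pool.Agent.K7.H76.LC

open NumberField IsDedekindDomain Module Polynomial
open Pool.Agent.K7.H76.SL

/-- the algebraic closure of `ℚ` -/
abbrev Qb : Type := AlgebraicClosure ℚ

section deg1

variable {q : ℕ} [hq : Fact q.Prime] {R : Type} [CommRing R]

/-- the values of a homomorphism of degree one are integers -/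
lemma deg1 (φ : R →+* AlgebraicClosure (ZMod q)) (h : ∀ x, φ x ^ q = φ x) (x : R) :
    ∃ n : ℕ, φ x = n := by
  obtain ⟨c, hc⟩ := W54.ChTor.frob_fixed q (φ x) (h x)
  refine ⟨c.val, ?_⟩
  rw [← hc]
  conv_lhs => rw [← ZMod.natCast_zmod_val c]
  rw [map_natCast]

/-- two homomorphisms of degree one with the same kernel are equal -/
lemma deg1_eq (φ φ' : R →+* AlgebraicClosure (ZMod q)) (h : ∀ x, φ x ^ q = φ x)
    (hk : ∀ x, φ x = 0 → φ' x = 0) (x : R) : φ' x = φ x := by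
  obtain ⟨n, hn⟩ := deg1 φ h x
  have h1 : φ (x - n) = 0 := by rw [map_sub, map_natCast, hn, sub_self]
  have h2 := hk _ h1
  rw [map_sub, map_natCast, sub_eq_zero] at h2
  rw [h2, hn]

end deg1

/-- distinct embeddings are distinct modulo almost all primes -/
lemma emb_mod (k L : Type) [Field k] [NumberField k] [Field L] [NumberField L] :
    ∃ S : Set ℕ, S.Finite ∧ ∀ (q : ℕ) [Fact q.Prime], q ∉ S →
      ∀ φ : 𝓞 L →+* AlgebraicClosure (ZMod q), ∀ τ τ' : k →+* L,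
      (∀ x : 𝓞 k, φ (RingOfIntegers.mapRingHom τ x) = φ (RingOfIntegers.mapRingHom τ' x)) →
      τ = τ' := by
  classical
  have h1 : ∀ t : (k →+* L) × (k →+* L), ∃ n : ℕ, n ≠ 0 ∧ (t.1 ≠ t.2 → ∀ (q : ℕ) [Fact q.Prime],
      ¬ q ∣ n → ∀ φ : 𝓞 L →+* AlgebraicClosure (ZMod q), ∃ x : 𝓞 k,
      φ (RingOfIntegers.mapRingHom t.1 x) ≠ φ (RingOfIntegers.mapRingHom t.2 x)) := by
    rintro ⟨τ, τ'⟩
    by_cases ht : τ = τ'
    · exact ⟨1, one_ne_zero, fun h => absurd ht h⟩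
    obtain ⟨x, hx⟩ : ∃ x : 𝓞 k, τ (x : k) ≠ τ' (x : k) := by
      by_contra hcon
      push Not at hcon
      apply ht
      ext y
      obtain ⟨n, d, hd, hy⟩ := IsFractionRing.div_surjective (A := 𝓞 k) y
      rw [← hy, map_div₀, map_div₀]
      have e1 := hcon n
      have e2 := hcon d
      rw [show τ (algebraMap (𝓞 k) k n) = τ' (algebraMap (𝓞 k) k n) from e1,
        show τ (algebraMap (𝓞 k) k d) = τ' (algebraMap (𝓞 k) k d) from e2]
    set δ : 𝓞 L := RingOfIntegers.mapRingHom τ x - RingOfIntegers.mapRingHom τ' x with hδ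
    have hδ0 : δ ≠ 0 := by
      intro h
      apply hx
      have h2 := congrArg (fun t : 𝓞 L => (t : L)) h
      have h3 : τ (x : k) - τ' (x : k) = 0 := h2
      exact sub_eq_zero.1 h3
    have hN : Ideal.absNorm (Ideal.span {δ}) ≠ 0 := by
      rw [Ne, Ideal.absNorm_eq_zero_iff, Ideal.span_singleton_eq_bot]
      exact hδ0
    refine ⟨Ideal.absNorm (Ideal.span {δ}), hN, fun _ q _ hqn φ => ⟨x, fun h => ?_⟩⟩
    apply hqn
    have h2 : φ δ = 0 := by rw [hδ, map_sub, h, sub_self]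
    obtain ⟨y, hy⟩ := Ideal.mem_span_singleton.1 (Ideal.absNorm_mem (Ideal.span {δ}))
    have h5 : ((Ideal.absNorm (Ideal.span {δ}) : ℕ) : AlgebraicClosure (ZMod q)) = 0 := by
      rw [← map_natCast φ, hy, map_mul, h2, zero_mul]
    exact (CharP.cast_eq_zero_iff (AlgebraicClosure (ZMod q)) q _).1 h5
  choose n hn0 hn using h1
  refine ⟨⋃ t, {q | q ∣ n t}, ?_, ?_⟩
  · apply Set.finite_iUnion
    intro t
    exact (Set.finite_Iic (n t)).subset fun q hq => Nat.le_of_dvd (Nat.pos_of_ne_zero (hn0 t)) hq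
  · intro q _ hq φ τ τ' h
    by_contra hne
    have h1 : ¬ q ∣ n (τ, τ') := fun h => hq (Set.mem_iUnion.2 ⟨(τ, τ'), h⟩)
    obtain ⟨x, hx⟩ := hn (τ, τ') hne q h1 φ
    exact hx (h x)

section main

variable {k K L kz : Type} [Field k] [NumberField k] [Field K] [NumberField K] [Algebra k K]
  [Field L] [NumberField L] [IsGalois ℚ L] [Field kz] [NumberField kz] [Algebra k kz]

/-- the primes of `K` above the prime `𝔮` of degree one -/
lemma one_above {q : ℕ} [hq : Fact q.Prime] {h : Gal(L/ℚ)} {τ₀ : K →+* L}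
    (hτ : ∀ τ : K →+* L, τ.comp (algebraMap k K) = τ₀.comp (algebraMap k K) →
      ∃ j : ℕ, ∀ x, (h ^ j) (τ₀ x) = τ x)
    {φ : 𝓞 L →+* AlgebraicClosure (ZMod q)} (hφ : ∀ x : 𝓞 L, φ (h • x) = φ x ^ q)
    (htor : ∀ φ' : 𝓞 L →+* AlgebraicClosure (ZMod q), ∃ σ : Gal(L/ℚ), ∀ x : 𝓞 L,
      φ' x = φ (σ • x))
    (hemb : ∀ τ τ' : k →+* L,
      (∀ x : 𝓞 k, φ (RingOfIntegers.mapRingHom τ x) = φ (RingOfIntegers.mapRingHom τ' x)) → τ = τ')
    {θ : 𝓞 k →+* 𝓞 L}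
    (hθ : ∀ x : 𝓞 k, θ x = RingOfIntegers.mapRingHom (τ₀.comp (algebraMap k K)) x)
    (hdeg : ∀ x : 𝓞 k, φ (θ x) ^ q = φ (θ x)) {𝔮 : HeightOneSpectrum (𝓞 k)}
    (h𝔮 : ∀ x : 𝓞 k, x ∈ 𝔮.asIdeal ↔ φ (θ x) = 0) {w : HeightOneSpectrum (𝓞 K)}
    (hw : Above 𝔮 w) (x : 𝓞 K) :
    x ∈ w.asIdeal ↔ φ (RingOfIntegers.mapRingHom τ₀ x) = 0 := by
  have hinj : Function.Injective (RingOfIntegers.mapRingHom τ₀) := by
    intro a b hab
    have h1 := congrArg (fun y : 𝓞 L => (y : L)) hab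
    exact RingOfIntegers.ext (τ₀.injective h1)
  obtain ⟨Q, hQ, hQP⟩ : ∃ Q : Ideal (𝓞 L), Q.IsPrime ∧
      Q.comap (RingOfIntegers.mapRingHom τ₀) = w.asIdeal := by
    let : Algebra (𝓞 K) (𝓞 L) := (RingOfIntegers.mapRingHom τ₀).toAlgebra
    have : Algebra.IsIntegral (𝓞 K) (𝓞 L) := Algebra.IsIntegral.tower_top ℤ
    refine Ideal.exists_ideal_over_prime_of_isIntegral_of_isDomain w.asIdeal ?_
    have h1 : RingHom.ker (algebraMap (𝓞 K) (𝓞 L)) = ⊥ :=
      (RingHom.injective_iff_ker_eq_bot _).1 hinj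
    rw [h1]
    exact bot_le
  have hq𝔮 : (q : 𝓞 k) ∈ 𝔮.asIdeal := by
    rw [h𝔮, map_natCast, map_natCast]
    exact CharP.cast_eq_zero _ q
  have hqw : (q : 𝓞 K) ∈ w.asIdeal := by
    have h1 := (hw (q : 𝓞 k)).2 hq𝔮
    rwa [map_natCast] at h1
  have hqQ : (q : 𝓞 L) ∈ Q := by
    rw [← hQP, Ideal.mem_comap, map_natCast] at hqw
    exact hqw
  obtain ⟨ψ, hψ⟩ := Pool.Agent.Y287.LC.exHom (𝓞 L) q Q hqQ
  obtain ⟨σ, hσ⟩ := htor ψ
  -- `σ` is trivial on `k`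
  have hcoe : ∀ x : 𝓞 k, RingOfIntegers.mapRingHom τ₀ (algebraMap (𝓞 k) (𝓞 K) x) = θ x := by
    intro x
    rw [hθ]
    rfl
  have hker : ∀ x : 𝓞 k, φ (θ x) = 0 → φ (σ • θ x) = 0 := by
    intro x hx
    rw [← h𝔮, ← hw x, ← hQP, Ideal.mem_comap, hcoe, ← hψ, hσ] at hx
    exact hx
  let s : 𝓞 L →+* 𝓞 L := MulSemiringAction.toRingHom Gal(L/ℚ) (𝓞 L) σ
  have h1 : ∀ x : 𝓞 k, (φ.comp (s.comp θ)) x = (φ.comp θ) x :=
    deg1_eq (φ.comp θ) (φ.comp (s.comp θ)) hdeg hker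
  have h2 : ((σ : L →+* L).comp τ₀).comp (algebraMap k K) = τ₀.comp (algebraMap k K) := by
    apply hemb
    intro x
    have h3 : φ (σ • θ x) = φ (θ x) := h1 x
    have h4 : RingOfIntegers.mapRingHom (((σ : L →+* L).comp τ₀).comp (algebraMap k K)) x =
        σ • θ x := by
      rw [hθ]
      rfl
    rw [← hθ, h4, h3]
  obtain ⟨j, hj⟩ := hτ ((σ : L →+* L).comp τ₀) h2
  have e1 : σ • RingOfIntegers.mapRingHom τ₀ x = (h ^ j) • RingOfIntegers.mapRingHom τ₀ x := by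
    apply RingOfIntegers.ext
    exact (hj (x : K)).symm
  have e2 : ∀ (i : ℕ) (y : 𝓞 L), φ ((h ^ i) • y) = φ y ^ (q ^ i) := by
    intro i
    induction i with
    | zero => intro y; rw [pow_zero, one_smul, pow_zero, pow_one]
    | succ i ih =>
      intro y
      rw [pow_succ, mul_smul, ih, hφ, ← pow_mul, pow_succ']
  have e3 : x ∈ w.asIdeal ↔ RingOfIntegers.mapRingHom τ₀ x ∈ Q := by rw [← hQP, Ideal.mem_comap]
  rw [e3, ← hψ, hσ, e1, e2]
  exact pow_eq_zero_iff (pow_ne_zero _ hq.out.ne_zero)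

/-- a generated field -/
lemma gen_top {z : kz} (hgen : IntermediateField.adjoin k {z} = ⊤) (T : Subfield kz)
    (hT : ∀ x : k, algebraMap k kz x ∈ T) (hz : z ∈ T) (x : kz) : x ∈ T := by
  have h1 : IntermediateField.adjoin k {z} ≤ T.toIntermediateField hT := by
    rw [IntermediateField.adjoin_simple_le_iff]
    exact hz
  have h2 : x ∈ IntermediateField.adjoin k {z} := by rw [hgen]; trivial
  exact h1 h2

theorem chb_rel {p : ℕ} (hp : p.Prime) (g : Qb ≃+* Qb)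
    (hgk : ∀ (τ : k →+* Qb) (x : k), g (τ x) = τ x)
    (hg : ∀ τ τ' : K →+* Qb, τ'.comp (algebraMap k K) = τ.comp (algebraMap k K) →
      ∃ j : ℕ, ∀ x, (⇑g)^[j] (τ x) = τ' x)
    (hζ : ∀ ζ : Qb, ζ ^ p = 1 → g ζ = ζ) {z : kz} (hz : IsPrimitiveRoot z p)
    (hgen : IntermediateField.adjoin k {z} = ⊤) :
    ∃ (Q : Set ℕ) (P : ℕ → HeightOneSpectrum (𝓞 kz)), Q.Infinite ∧ ∀ q ∈ Q, q.Prime ∧ q ≠ p ∧
      (q : 𝓞 kz) ∈ (P q).asIdeal ∧
      (∀ σ : kz ≃ₐ[k] kz, (∀ x : 𝓞 kz, σ • x ∈ (P q).asIdeal ↔ x ∈ (P q).asIdeal) → σ = 1) ∧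
      ∀ 𝔮 : HeightOneSpectrum (𝓞 k), Above 𝔮 (P q) →
        (∀ c : k ≃+* k, (∀ x : 𝓞 k, RingOfIntegers.mapRingHom (c : k →+* k) x ∈ 𝔮.asIdeal ↔
          x ∈ 𝔮.asIdeal) → c = RingEquiv.refl k) ∧
        ∀ w w' : HeightOneSpectrum (𝓞 K), Above 𝔮 w → Above 𝔮 w' → w = w' := by
  classical
  obtain ⟨L, i1, i2, i3, ι, hL1, hL2, hL3⟩ := Pool.Agent.Y287.LC.exL K p hp
  obtain ⟨h, hh⟩ := hL3 g
  obtain ⟨D, hD0, hD⟩ := Pool.Agent.W401.Cheb.torsor L
  obtain ⟨S, hS, hSq⟩ := emb_mod k L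
  obtain ⟨τ₀, -⟩ : ∃ τ₀ : K →+* L, True := by
    have e : K →ₐ[ℚ] AlgebraicClosure ℚ := IsAlgClosed.lift
    obtain ⟨τ', -⟩ := hL1 (e : K →+* AlgebraicClosure ℚ)
    exact ⟨τ', trivial⟩
  have hit : ∀ (j : ℕ) (x : L), ι ((h ^ j) x) = (⇑g)^[j] (ι x) := by
    intro j
    induction j with
    | zero => intro x; rfl
    | succ j ih =>
      intro x
      rw [Function.iterate_succ_apply, ← hh, ← ih, pow_succ]
      rfl
  have hτ : ∀ τ : K →+* L, τ.comp (algebraMap k K) = τ₀.comp (algebraMap k K) →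
      ∃ j : ℕ, ∀ x, (h ^ j) (τ₀ x) = τ x := by
    intro τ hτ
    obtain ⟨j, hj⟩ := hg (ι.comp τ₀) (ι.comp τ) (by
      rw [RingHom.comp_assoc, RingHom.comp_assoc, hτ])
    refine ⟨j, fun x => ι.injective ?_⟩
    rw [hit]
    exact hj x
  -- the embedding of `kz`
  obtain ⟨ρ', hρ'⟩ : ∃ ρ' : kz →+* Qb, ∀ x : k, ρ' (algebraMap k kz x) =
      ι (τ₀ (algebraMap k K x)) := by
    letI : Algebra k Qb := ((ι.comp τ₀).comp (algebraMap k K)).toAlgebra
    haveI : FiniteDimensional k kz := FiniteDimensional.right ℚ k kz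
    have e : kz →ₐ[k] Qb := IsAlgClosed.lift
    exact ⟨(e : kz →+* Qb), fun x => e.commutes x⟩
  have hρz : (ρ' z) ^ p = 1 := by rw [← map_pow, hz.pow_eq_one, map_one]
  have hin : ∀ x : kz, ∃ y : L, ι y = ρ' x := by
    intro x
    exact gen_top hgen (ι.fieldRange.comap ρ') (fun y => ⟨_, (hρ' y).symm⟩) (hL2 _ hρz) x
  choose ρf hρf using hin
  let ρ : kz →+* L :=
    { toFun := ρf
      map_one' := ι.injective (by rw [hρf, map_one, map_one])
      map_mul' := fun a b => ι.injective (by rw [hρf, map_mul, map_mul, hρf, hρf])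
      map_zero' := ι.injective (by rw [hρf, map_zero, map_zero])
      map_add' := fun a b => ι.injective (by rw [hρf, map_add, map_add, hρf, hρf]) }
  have hρ : ∀ x, ι (ρ x) = ρ' x := hρf
  have hρk : ∀ x : k, ρ (algebraMap k kz x) = τ₀ (algebraMap k K x) := by
    intro x
    apply ι.injective
    rw [hρ, hρ']
  have hfix : ∀ x : kz, h (ρ x) = ρ x := by
    intro x
    apply ι.injective
    rw [hh, hρ]
    refine gen_top hgen (((g : Qb →+* Qb).comp ρ').eqLocusField ρ') (fun y => ?_) ?_ x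
    · show g (ρ' (algebraMap k kz y)) = ρ' (algebraMap k kz y)
      exact hgk (ρ'.comp (algebraMap k kz)) y
    · exact hζ _ hρz
  -- the prime numbers
  have hfin : ({q : ℕ | q ∣ D ∨ q = p} ∪ S).Finite := by
    refine Set.Finite.union ?_ hS
    refine (Set.finite_Iic (D + p)).subset fun q hq => ?_
    rcases hq with hq | hq
    · exact (Nat.le_of_dvd hD0 hq).trans (Nat.le_add_right _ _)
    · exact hq.le.trans (Nat.le_add_left _ _)
  have hinf := (Pool.Agent.W401.Cheb.infinite_frob L h).sdiff hfin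
  set Q : Set ℕ := {q : ℕ | q.Prime ∧ Pool.Agent.W401.Cheb.xp L h q ≠ 0} \
    ({q : ℕ | q ∣ D ∨ q = p} ∪ S) with hQ
  have key : ∀ q ∈ Q, ∃ P : HeightOneSpectrum (𝓞 kz), q.Prime ∧ q ≠ p ∧
      (q : 𝓞 kz) ∈ P.asIdeal ∧
      (∀ σ : kz ≃ₐ[k] kz, (∀ x : 𝓞 kz, σ • x ∈ P.asIdeal ↔ x ∈ P.asIdeal) → σ = 1) ∧
      ∀ 𝔮 : HeightOneSpectrum (𝓞 k), Above 𝔮 P →
        (∀ c : k ≃+* k, (∀ x : 𝓞 k, RingOfIntegers.mapRingHom (c : k →+* k) x ∈ 𝔮.asIdeal ↔
          x ∈ 𝔮.asIdeal) → c = RingEquiv.refl k) ∧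
        ∀ w w' : HeightOneSpectrum (𝓞 K), Above 𝔮 w → Above 𝔮 w' → w = w' := by
    rintro q ⟨⟨hq, hx⟩, hn⟩
    have hqD : ¬ q ∣ D := fun h => hn (Or.inl (Or.inl h))
    have hqp : q ≠ p := fun h => hn (Or.inl (Or.inr h))
    have hqS : q ∉ S := fun h => hn (Or.inr h)
    have hF : Fact q.Prime := ⟨hq⟩
    obtain ⟨φ, hφ⟩ : ∃ φ : 𝓞 L →+* AlgebraicClosure (ZMod q),
        Pool.Agent.W401.Cheb.HasFrob q φ h := by
      unfold Pool.Agent.W401.Cheb.xp at hx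
      rw [dif_pos hq] at hx
      have h1 : Nonempty {φ : 𝓞 L →+* AlgebraicClosure (ZMod q) //
          Pool.Agent.W401.Cheb.HasFrob q φ h} := by
        by_contra hcon
        rw [not_nonempty_iff] at hcon
        exact hx Nat.card_of_isEmpty
      obtain ⟨φ, hφ⟩ := h1
      exact ⟨φ, hφ⟩
    have htor : ∀ φ' : 𝓞 L →+* AlgebraicClosure (ZMod q), ∃ σ : Gal(L/ℚ), ∀ x : 𝓞 L,
        φ' x = φ (σ • x) := fun φ' => ((hD q hqD).2.1 φ φ').exists
    have hemb := fun τ τ' => hSq q hqS φ τ τ'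
    -- the homomorphism of degree one
    let ψ : 𝓞 kz →+* AlgebraicClosure (ZMod q) := φ.comp (RingOfIntegers.mapRingHom ρ)
    have hψ1 : ∀ x, ψ x ^ q = ψ x := by
      intro x
      show φ (RingOfIntegers.mapRingHom ρ x) ^ q = φ (RingOfIntegers.mapRingHom ρ x)
      rw [← hφ]
      congr 1
      apply RingOfIntegers.ext
      exact hfix (x : kz)
    have hqψ : ψ (q : 𝓞 kz) = 0 := by
      rw [map_natCast]
      exact CharP.cast_eq_zero _ q
    let P : HeightOneSpectrum (𝓞 kz) := ⟨RingHom.ker ψ, RingHom.ker_isPrime ψ, by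
      intro hbot
      have h1 : (q : 𝓞 kz) ∈ RingHom.ker ψ := hqψ
      rw [hbot, Ideal.mem_bot] at h1
      exact hq.ne_zero (by exact_mod_cast h1)⟩
    have hP : ∀ x : 𝓞 kz, x ∈ P.asIdeal ↔ ψ x = 0 := fun x => Iff.rfl
    -- the image of the root of unity
    have : NeZero p := ⟨hp.ne_zero⟩
    let z₀ : 𝓞 kz := hz.toInteger
    have hz₀ : IsPrimitiveRoot z₀ p := hz.toInteger_isPrimitiveRoot
    have hord : orderOf (ψ z₀) = p := by
      have hFp : Fact p.Prime := ⟨hp⟩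
      refine orderOf_eq_prime (by rw [← map_pow, hz₀.pow_eq_one, map_one]) ?_
      intro h1
      have h3 := congrArg ψ (hz₀.geom_sum_eq_zero hp.one_lt)
      rw [map_sum, map_zero] at h3
      have h4 : ∀ i ∈ Finset.range p, ψ (z₀ ^ i) = 1 := fun i _ => by rw [map_pow, h1, one_pow]
      rw [Finset.sum_congr rfl h4, Finset.sum_const, Finset.card_range, nsmul_eq_mul, mul_one] at h3
      have h5 : q ∣ p := (CharP.cast_eq_zero_iff (AlgebraicClosure (ZMod q)) q p).1 h3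
      exact hqp ((Nat.prime_dvd_prime_iff_eq hq hp).1 h5)
    refine ⟨P, hq, hqp, hqψ, ?_, ?_⟩
    · intro σ hσ
      have h1 : ∀ x : 𝓞 kz, ψ (σ • x) = ψ x := by
        let s : 𝓞 kz →+* 𝓞 kz := MulSemiringAction.toRingHom (kz ≃ₐ[k] kz) (𝓞 kz) σ
        exact deg1_eq ψ (ψ.comp s) hψ1 (fun x hx => (hσ x).2 hx)
      have h2 : (σ z) ^ p = 1 := by rw [← map_pow, hz.pow_eq_one, map_one]
      obtain ⟨t, -, ht⟩ := hz.eq_pow_of_pow_eq_one h2
      have h3 : σ • z₀ = z₀ ^ t := by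
        apply RingOfIntegers.ext
        have h4 : ((z₀ ^ t : 𝓞 kz) : kz) = z ^ t := by
          rw [RingOfIntegers.val, map_pow]
          rfl
        rw [h4, ht]
        rfl
      have h4 : ψ z₀ ^ t = ψ z₀ := by rw [← map_pow, ← h3, h1]
      have h5 : ψ z₀ ^ (t + (p - 1)) = 1 := by
        rw [pow_add, h4, ← pow_succ', Nat.sub_add_cancel hp.one_lt.le, ← map_pow, hz₀.pow_eq_one,
          map_one]
      have h6 := orderOf_dvd_of_pow_eq_one h5
      rw [hord] at h6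
      have h7 : z ^ (t + (p - 1)) = 1 := (hz.pow_eq_one_iff_dvd _).2 h6
      have h8 : z ^ t = z := by
        have h9 : z ^ (t + (p - 1)) * z = z := by rw [h7, one_mul]
        rwa [pow_add, mul_assoc, ← pow_succ, Nat.sub_add_cancel hp.one_lt.le, hz.pow_eq_one,
          mul_one] at h9
      have h9 : σ z = z := by rw [← ht, h8]
      apply AlgEquiv.ext
      intro x
      exact gen_top hgen ((σ : kz →+* kz).eqLocusField (RingHom.id kz)) (fun y => σ.commutes y)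
        h9 x
    · intro 𝔮 h𝔮
      let θ : 𝓞 k →+* 𝓞 L := RingOfIntegers.mapRingHom (τ₀.comp (algebraMap k K))
      have hθψ : ∀ x : 𝓞 k, ψ (algebraMap (𝓞 k) (𝓞 kz) x) = φ (θ x) := by
        intro x
        show φ (RingOfIntegers.mapRingHom ρ (algebraMap (𝓞 k) (𝓞 kz) x)) = φ (θ x)
        congr 1
        apply RingOfIntegers.ext
        exact hρk (x : k)
      have h𝔮' : ∀ x : 𝓞 k, x ∈ 𝔮.asIdeal ↔ φ (θ x) = 0 := by
        intro x
        rw [← h𝔮 x, hP, hθψ]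
      have hdeg : ∀ x : 𝓞 k, φ (θ x) ^ q = φ (θ x) := by
        intro x
        rw [← hθψ]
        exact hψ1 _
      refine ⟨fun c hc => ?_, fun w w' hw hw' => ?_⟩
      · have h1 : ∀ x : 𝓞 k, (φ.comp (θ.comp (RingOfIntegers.mapRingHom (c : k →+* k)))) x =
            (φ.comp θ) x := by
          refine deg1_eq (φ.comp θ) _ hdeg (fun x hx => ?_)
          exact (h𝔮' _).1 ((hc x).2 ((h𝔮' x).2 hx))
        have h2 : (τ₀.comp (algebraMap k K)).comp (c : k →+* k) = τ₀.comp (algebraMap k K) := by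
          apply hemb
          intro x
          exact h1 x
        apply RingEquiv.ext
        intro x
        have h3 := congrArg (fun f : k →+* L => f x) h2
        have h4 : τ₀ (algebraMap k K (c x)) = τ₀ (algebraMap k K x) := h3
        exact (algebraMap k K).injective (τ₀.injective h4)
      · apply HeightOneSpectrum.ext
        ext x
        rw [one_above hτ hφ htor hemb (fun _ => rfl) hdeg h𝔮' hw x,
          one_above hτ hφ htor hemb (fun _ => rfl) hdeg h𝔮' hw' x]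
  obtain ⟨q₀, hq₀⟩ := hinf.nonempty
  obtain ⟨P₀, -⟩ := key q₀ hq₀
  haveI : Nonempty (HeightOneSpectrum (𝓞 kz)) := ⟨P₀⟩
  choose! P hP using key
  exact ⟨Q, P, hinf, hP⟩

end main

end Pool.Agent.K7.H76.LC
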