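import Mathlib
import Pool.Agent.Y944.LC.UNR
import Pool.Agent.Y18.LC.Omega
import Pool.Agent.Y419.LC.LCP
import Pool.Agent.Y419.LC.SIG
import Pool.Agent.K7.H76.SL.Fam
import Pool.Agent.K7.H76.LC.Tower

/-!
# From Leopoldt's conjecture for the real field to the units of the CM field
-/

set_option autoImplicit false

namespace Pool.Agent.K7.H76.LC

open NumberField IsDedekindDomain Module WithZero Pool.Agent.H637R2.Leo
open Pool.Agent.W289.SL Pool.Agent.K7.H76.SL Pool.Agent.Y419.LC.LcpP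
open Pool.Agent.Y18.LC (Unram)

variable {p : ℕ} [hpf : Fact p.Prime]

/-- `q` is unramified if it is not in the square of a prime -/
lemma unram_of_val {F : Type} [Field F] [NumberField F] {q : ℕ} (hq : q.Prime)
    (h : ∀ W : HeightOneSpectrum (𝓞 F), (q : 𝓞 F) ∈ W.asIdeal →
      exp (-1 : ℤ) ≤ W.intValuation (q : 𝓞 F)) : Unram F q := by
  have hq0F : (q : 𝓞 F) ≠ 0 := by exact_mod_cast hq.ne_zero
  intro x hx
  obtain ⟨r, hr⟩ := hx
  have key : ∀ W : HeightOneSpectrum (𝓞 F), W.intValuation x ≤ W.intValuation (q : 𝓞 F) := by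
    intro W
    by_cases hqW : (q : 𝓞 F) ∈ W.asIdeal
    · refine le_trans ?_ (h W hqW)
      have h2 : x ∈ W.asIdeal ^ 1 := by
        rw [pow_one]
        refine W.isPrime.mem_of_pow_mem r ?_
        have h3 : Ideal.span {(q : 𝓞 F)} ≤ W.asIdeal := by
          rwa [Ideal.span_singleton_le_iff_mem]
        exact h3 hr
      rw [← W.intValuation_le_pow_iff_mem] at h2
      exact_mod_cast h2
    · rw [HeightOneSpectrum.intValuation_eq_one_iff.2 hqW]
      exact W.intValuation_le_one x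
  have hmem : ((x : F) / ((q : 𝓞 F) : F)) ∈ (algebraMap (𝓞 F) F).range := by
    refine HeightOneSpectrum.mem_integers_of_valuation_le_one F _ fun W => ?_
    rw [map_div₀, HeightOneSpectrum.valuation_of_algebraMap, HeightOneSpectrum.valuation_of_algebraMap]
    exact div_le_one_of_le₀ (key W) zero_le
  obtain ⟨y, hy⟩ := hmem
  rw [Ideal.mem_span_singleton]
  refine ⟨y, ?_⟩
  apply RingOfIntegers.coe_injective
  have hqF : ((q : 𝓞 F) : F) ≠ 0 := by
    rw [Ne, RingOfIntegers.coe_eq_zero_iff]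
    exact hq0F
  rw [map_mul, hy]
  field_simp

/-- the places are unramified -/
lemma ur_of_unram {K : Type} [Field K] [NumberField K] (h : Unram K p) (S : Set (K →+* ℂ_[p])) :
    Ur S := by
  intro τ _ y hy
  by_cases hy0 : y = 0
  · rw [hy0, map_zero, norm_zero]
    exact pinv_pos.le
  obtain ⟨w, hw, hpw⟩ := exists_ind τ
  have h1 := Pool.Agent.Y944.LC.val_q hpf.out h w
  have h2 : w.intValuation ((p : ℕ) : 𝓞 K) ≤ exp (-((1 : ℕ) : ℤ)) := by
    rw [w.intValuation_le_pow_iff_mem, pow_one]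
    exact hpw
  have h3 : w.valuation K ((p : ℕ) : K) = exp (-1) := by
    have h4 : w.valuation K ((p : ℕ) : K) = w.intValuation ((p : ℕ) : 𝓞 K) := by
      rw [← w.valuation_of_algebraMap (K := K)]
      rfl
    rw [h4]
    exact le_antisymm h2 h1
  have hwy : w.valuation K y ≠ 0 := (Valuation.ne_zero_iff _).2 hy0
  have hya : w.valuation K y = exp (log (w.valuation K y)) := (exp_log hwy).symm
  have h5 := norm_of_val_exp hw h3 y _ hya
  have hp1 : (1 : ℝ) < p := by exact_mod_cast hpf.out.one_lt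
  rw [h5] at hy ⊢
  have ha : log (w.valuation K y) < 0 := by
    by_contra hcon
    push Not at hcon
    have := one_le_zpow₀ hp1.le hcon
    linarith
  rw [← zpow_neg_one]
  exact zpow_le_zpow_right₀ hp1.le (by omega)

variable {k : Type} [Field k] [NumberField k]

/-- a prime which splits in a quadratic field is unramified -/
lemma unram_split (h2 : finrank ℚ k = 2) {v v' : HeightOneSpectrum (𝓞 k)} (hne : v ≠ v')
    (hv : ((p : ℕ) : 𝓞 k) ∈ v.asIdeal) (hv' : ((p : ℕ) : 𝓞 k) ∈ v'.asIdeal) : Unram k p := by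
  obtain ⟨φ, φ', h1, h3, hall⟩ := split_emb h2 hne hv hv'
  apply unram_of_val hpf.out
  have hval : ∀ w : HeightOneSpectrum (𝓞 k), w.valuation k ((p : ℕ) : k) = exp (-1) →
      exp (-1 : ℤ) ≤ w.intValuation ((p : ℕ) : 𝓞 k) := by
    intro w hw
    have h4 : w.valuation k ((p : ℕ) : k) = w.intValuation ((p : ℕ) : 𝓞 k) := by
      rw [← w.valuation_of_algebraMap (K := k)]
      rfl
    rw [← h4, hw]
  intro w hw
  rcases prime_ind hall hw h1 h3 with rfl | rfl
  · exact hval _ (val_p h2 hne hv hv')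
  · exact hval _ (val_p h2 hne.symm hv' hv)

variable {F K : Type} [Field F] [NumberField F] [Field K] [NumberField K] [Algebra F K]
  [Algebra k K]

/-- the imaginary quadratic field generates the CM field over the real field -/
lemma adjoin_im [IsTotallyComplex k] [IsTotallyReal F] (hFK : finrank F K = 2) :
    IntermediateField.adjoin F
      ((algebraMap k K).toRatAlgHom.fieldRange : Set K) = ⊤ := by
  have h3 := IntermediateField.isSimpleOrder_of_finrank_prime F K (by
    rw [hFK]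
    exact Nat.prime_two)
  rcases h3.eq_bot_or_eq_top (IntermediateField.adjoin F
      ((algebraMap k K).toRatAlgHom.fieldRange : Set K)) with h | h
  · exfalso
    obtain ⟨ψ⟩ : Nonempty (K →+* ℂ) := inferInstance
    have h3 := IsTotallyReal.complexEmbedding_isReal (ψ.comp (algebraMap F K))
    apply IsTotallyComplex.complexEmbedding_not_isReal (ψ.comp (algebraMap k K))
    rw [ComplexEmbedding.isReal_iff] at h3 ⊢
    ext y
    have h4 : algebraMap k K y ∈ IntermediateField.adjoin F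
        ((algebraMap k K).toRatAlgHom.fieldRange : Set K) :=
      IntermediateField.subset_adjoin _ _ ⟨y, rfl⟩
    rw [h, IntermediateField.mem_bot] at h4
    obtain ⟨z, hz⟩ := h4
    have h5 := congrArg (fun f : F →+* ℂ => f z) h3
    simp only [ComplexEmbedding.conjugate_coe_eq, RingHom.comp_apply] at h5 ⊢
    rw [← hz]
    exact h5
  · exact h

/-- `p` is unramified in `K` -/
theorem unram_cm [IsTotallyComplex k] [IsTotallyReal F] (h2 : finrank ℚ k = 2)
    {v v' : HeightOneSpectrum (𝓞 k)} (hne : v ≠ v') (hv : ((p : ℕ) : 𝓞 k) ∈ v.asIdeal)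
    (hv' : ((p : ℕ) : 𝓞 k) ∈ v'.asIdeal) (hFK : finrank F K = 2) (hun : Unram F p) :
    Unram K p := by
  let e : k ≃+* (algebraMap k K).toRatAlgHom.fieldRange :=
    (AlgEquiv.ofInjectiveField (algebraMap k K).toRatAlgHom).toRingEquiv
  have h3 : finrank ℚ (algebraMap k K).toRatAlgHom.fieldRange = 2 := by
    rw [← h2]
    exact (AlgEquiv.ofInjectiveField (algebraMap k K).toRatAlgHom).toLinearEquiv.finrank_eq.symm
  haveI : Algebra.IsQuadraticExtension ℚ (algebraMap k K).toRatAlgHom.fieldRange := ⟨h3⟩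
  have h4 : IsGalois ℚ (algebraMap k K).toRatAlgHom.fieldRange := inferInstance
  refine Pool.Agent.Y944.LC.unr F K (algebraMap k K).toRatAlgHom.fieldRange h4
    (adjoin_im hFK) p hpf.out ?_ hun
  exact Pool.Agent.Y18.LC.unram_of_hom e.symm.toRingHom hpf.out.ne_zero
    (unram_split h2 hne hv hv')

/-- the logarithms are injective on the units of the CM field -/
theorem linj_cm [IsTotallyComplex k] [IsTotallyReal F] (h2 : finrank ℚ k = 2) (φ : k →+* ℂ_[p])
    (hFK : finrank F K = 2) (hLeo : Leopoldt F p) :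
    LInj (upS K ({φ} : Set (k →+* ℂ_[p]))) := by
  intro L hL x hx
  have hK : IsTotallyComplex K := isTotallyComplex_of_algebra k K
  have h1 := Pool.Agent.Y419.LC.sig p F K F K inferInstance hK hFK hFK (fun _ => rfl)
    (Pool.Agent.Y419.LC.lcp p F hLeo) (upS K {φ}) (cm_type h2 φ F K hFK) 1 L hL x
  apply h1
  · intro τ
    have h3 : τ = 1 := Subsingleton.elim _ _
    subst h3
    have h4 : actLin p ((1 : K ≃ₐ[K] K) : K →+* K) = LinearMap.id := by
      apply TensorProduct.AlgebraTensorModule.ext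
      intro a b
      show a ⊗ₜ[ℤ] (unitHom ((1 : K ≃ₐ[K] K) : K →+* K) b) = _
      rfl
    rw [h4]
    simp
  · intro σ hσ
    exact hx σ hσ

/-- from `ℂ_p`-injectivity to `ℤ_p`-injectivity -/
lemma LInj.liz {E : Type} [Field E] [NumberField E] {S : Set (E →+* ℂ_[p])} (h : LInj S) :
    LIz S := by
  intro L hL a ha
  have h1 := h L hL (Th p E (fun i => algebraMap ℚ_[p] ℂ_[p] (a i : ℚ_[p]))) (fun τ hτ => by
    rw [log_Th]
    exact ha τ hτ)
  funext i
  have h2 := congrArg (fun t => coordLin i t) h1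
  simp only [coord_Th, map_zero] at h2
  have h3 : (a i : ℚ_[p]) = 0 := (algebraMap ℚ_[p] ℂ_[p]).injective (by rw [h2, map_zero])
  exact Subtype.ext h3

/-- **the link** -/
theorem top_cm [IsTotallyComplex k] [IsTotallyReal F] (hp2 : p ≠ 2) (h2 : finrank ℚ k = 2)
    {v v' : HeightOneSpectrum (𝓞 k)} (hne : v ≠ v') (hv : ((p : ℕ) : 𝓞 k) ∈ v.asIdeal)
    (hv' : ((p : ℕ) : 𝓞 k) ∈ v'.asIdeal) (φ : k →+* ℂ_[p]) (hFK : finrank F K = 2)
    (hun : Unram F p) (hLeo : Leopoldt F p) :
    TopS (upS K ({φ} : Set (k →+* ℂ_[p]))) := by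
  have hneK : (upS K ({φ} : Set (k →+* ℂ_[p]))).Nonempty := by
    obtain ⟨τ, hτ⟩ := exists_ext (H := K) φ
    exact ⟨τ, hτ⟩
  have hUr : Ur (upS K ({φ} : Set (k →+* ℂ_[p]))) :=
    ur_of_unram (unram_cm h2 hne hv hv' hFK hun) _
  exact top_of_liz (no_tors_sub (RingHom.id K) hp2 hneK hUr) (linj_cm h2 φ hFK hLeo).liz

/-- the set of one embedding of `k` is place stable -/
lemma placeStable_single (h2 : finrank ℚ k = 2) {v v' : HeightOneSpectrum (𝓞 k)} (hne : v ≠ v')
    (hv : ((p : ℕ) : 𝓞 k) ∈ v.asIdeal) (hv' : ((p : ℕ) : 𝓞 k) ∈ v'.asIdeal) (φ : k →+* ℂ_[p]) :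
    PlaceStable ({φ} : Set (k →+* ℂ_[p])) := by
  obtain ⟨φ₁, φ₂, h1, h3, hall⟩ := split_emb h2 hne hv hv'
  have h12 : ∀ σ σ' : k →+* ℂ_[p], (∀ x : 𝓞 k, ‖σ (x : k)‖ < 1 ↔ ‖σ' (x : k)‖ < 1) → σ' = σ := by
    intro σ σ' h
    have key : ¬ ∀ x : 𝓞 k, ‖φ₁ (x : k)‖ < 1 ↔ ‖φ₂ (x : k)‖ < 1 := by
      intro hcon
      apply hne
      ext x
      rw [h1 x, h3 x]
      exact hcon x
    rcases hall σ with rfl | rfl <;> rcases hall σ' with rfl | rfl
    · rfl
    · exact absurd h key
    · exact absurd (fun x => (h x).symm) key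
    · rfl
  intro σ hσ σ' h
  have h4 : σ = φ := hσ
  subst h4
  exact h12 _ _ h

end Pool.Agent.K7.H76.LC
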