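import Mathlib
import Pool.Agent.Y38.LC.GLF
import Pool.Agent.Y419.LC.PRD
import Pool.Agent.K7.H76.LC.Chb
import Pool.Agent.K7.H76.LC.Link

/-!
# The automorphism
-/

set_option autoImplicit false

namespace Pool.Agent.K7.H76.LC

open NumberField IsDedekindDomain Module
open Pool.Agent.K7.H76.SL
open Pool.Agent.Y18.LC (Unram)

/-- automorphisms act on embeddings -/
noncomputable def permE (E : Type) [Field E] (g : Qb ≃+* Qb) : Equiv.Perm (E →+* Qb) where
  toFun τ := (g : Qb →+* Qb).comp τ
  invFun τ := (g.symm : Qb →+* Qb).comp τ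
  left_inv τ := by
    ext x
    exact g.symm_apply_apply (τ x)
  right_inv τ := by
    ext x
    exact g.apply_symm_apply (τ x)

lemma permE_pow {E : Type} [Field E] (g : Qb ≃+* Qb) (j : ℕ) (τ : E →+* Qb) (x : E) :
    ((permE E g) ^ j) τ x = (⇑g)^[j] (τ x) := by
  induction j generalizing x with
  | zero => rfl
  | succ j ih =>
    rw [pow_succ', Function.iterate_succ_apply', ← ih]
    rfl

/-- the square of a transitive automorphism is transitive if the degree is odd -/
lemma sq_trans {F : Type} [Field F] [NumberField F] (hodd : Odd (finrank ℚ F)) (g : Qb ≃+* Qb)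
    (hg : ∀ τ τ' : F →+* Qb, ∃ j : ℕ, ∀ x, (⇑g)^[j] (τ x) = τ' x) (τ τ' : F →+* Qb) :
    ∃ j : ℕ, ∀ x, (⇑(g.trans g))^[j] (τ x) = τ' x := by
  classical
  have h1 : (permE F g).IsCycleOn ((Finset.univ : Finset (F →+* Qb)) : Set (F →+* Qb)) := by
    refine ⟨?_, fun a _ b _ => ?_⟩
    · rw [Finset.coe_univ, Set.bijOn_univ]
      exact (permE F g).bijective
    · obtain ⟨j, hj⟩ := hg a b
      refine ⟨(j : ℤ), ?_⟩
      rw [zpow_natCast]
      ext x
      rw [permE_pow]
      exact hj x
  have h2 : ∀ a : F →+* Qb, ((permE F g) ^ (finrank ℚ F)) a = a := by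
    intro a
    have h3 := h1.pow_card_apply (Finset.mem_univ a)
    rwa [Finset.card_univ, Embeddings.card F Qb] at h3
  have h4 : ∀ (j : ℕ) (y : Qb), (⇑(g.trans g))^[j] y = (⇑g)^[2 * j] y := by
    intro j
    induction j with
    | zero => intro y; rfl
    | succ j ih =>
      intro y
      rw [Function.iterate_succ_apply, ih, mul_add, mul_one, Function.iterate_add_apply]
      rfl
  obtain ⟨j, hj⟩ := hg τ τ'
  rcases Nat.even_or_odd j with ⟨i, hi⟩ | hjo
  · refine ⟨i, fun x => ?_⟩
    rw [h4, two_mul, ← hi]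
    exact hj x
  · obtain ⟨i, hi⟩ : Even (j + finrank ℚ F) := hjo.add_odd hodd
    refine ⟨i, fun x => ?_⟩
    rw [h4, two_mul, ← hi, Function.iterate_add_apply]
    have h5 := congrArg (fun t : F →+* Qb => t x) (h2 τ)
    have h6 : ((permE F g) ^ (finrank ℚ F)) τ x = τ x := h5
    rw [permE_pow] at h6
    rw [h6]
    exact hj x

/-- squares of automorphisms are trivial on quadratic fields -/
lemma sq_fix {k : Type} [Field k] [NumberField k] (h2 : finrank ℚ k = 2) (g : Qb ≃+* Qb)
    (τ : k →+* Qb) (x : k) : (g.trans g) (τ x) = τ x := by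
  classical
  have hcard : Fintype.card (k →+* Qb) = 2 := by rw [Embeddings.card, h2]
  have h1 : ((permE k g) ^ 2) = 1 := by
    have h3 : Fintype.card (Equiv.Perm (k →+* Qb)) = 2 := by
      rw [Fintype.card_perm, hcard]
      rfl
    rw [← h3]
    exact pow_card_eq_one
  have h3 := permE_pow g 2 τ x
  rw [h1] at h3
  exact h3.symm

/-- **the automorphism** -/
theorem exists_aut {k F K : Type} [Field k] [NumberField k] [IsTotallyComplex k] [Field F]
    [NumberField F] [IsTotallyReal F] [Field K] [NumberField K] [Algebra k K] [Algebra F K]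
    (h2 : finrank ℚ k = 2) (hFK : finrank F K = 2) (hodd : Odd (finrank ℚ F)) {p : ℕ}
    (hp : p.Prime) (hun : Unram K p) (g : Qb ≃+* Qb)
    (hg : ∀ τ τ' : F →+* Qb, ∃ j : ℕ, ∀ x, (⇑g)^[j] (τ x) = τ' x) :
    ∃ g' : Qb ≃+* Qb, (∀ (τ : k →+* Qb) (x : k), g' (τ x) = τ x) ∧
      (∀ τ τ' : K →+* Qb, τ'.comp (algebraMap k K) = τ.comp (algebraMap k K) →
        ∃ j : ℕ, ∀ x, (⇑g')^[j] (τ x) = τ' x) ∧ ∀ ζ : Qb, ζ ^ p = 1 → g' ζ = ζ := by
  obtain ⟨g', hg', hζ⟩ := Pool.Agent.Y38.LC.glf K p hp hun (g.trans g)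
  have hk : ∀ (τ : k →+* Qb) (x : k), g' (τ x) = τ x := by
    intro τ x
    obtain ⟨τ', hτ'⟩ : ∃ τ' : K →+* Qb, ∀ y : k, τ' (algebraMap k K y) = τ y := by
      letI : Algebra k Qb := τ.toAlgebra
      haveI : FiniteDimensional k K := FiniteDimensional.right ℚ k K
      have e : K →ₐ[k] Qb := IsAlgClosed.lift
      exact ⟨(e : K →+* Qb), fun y => e.commutes y⟩
    have h1 := hg' τ' (algebraMap k K x)
    rw [hτ'] at h1
    rw [h1]
    exact sq_fix h2 g τ x
  refine ⟨g', hk, fun τ τ' h => ?_, hζ⟩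
  have hit : ∀ (j : ℕ) (y : K), (⇑g')^[j] (τ y) = (⇑(g.trans g))^[j] (τ y) := by
    intro j
    induction j with
    | zero => intro y; rfl
    | succ j ih =>
      intro y
      rw [Function.iterate_succ_apply', ih, Function.iterate_succ_apply', ← permE_pow]
      exact hg' _ y
  obtain ⟨j, hj⟩ := sq_trans hodd g hg (τ.comp (algebraMap F K)) (τ'.comp (algebraMap F K))
  refine ⟨j, fun x => ?_⟩
  have hT : ∀ x : K, x ∈ (((permE K g') ^ j) τ).eqLocusField τ' := by
    intro x
    have h1 : IntermediateField.adjoin F ((algebraMap k K).toRatAlgHom.fieldRange : Set K) ≤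
        ((((permE K g') ^ j) τ).eqLocusField τ').toIntermediateField (fun y => by
          show ((permE K g') ^ j) τ (algebraMap F K y) = τ' (algebraMap F K y)
          rw [permE_pow, hit]
          exact hj y) := by
      rw [IntermediateField.adjoin_le_iff]
      rintro _ ⟨y, rfl⟩
      show ((permE K g') ^ j) τ (algebraMap k K y) = τ' (algebraMap k K y)
      rw [permE_pow]
      have h3 : τ' (algebraMap k K y) = τ (algebraMap k K y) :=
        congrArg (fun f : k →+* Qb => f y) h
      rw [h3]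
      have h4 : ∀ i : ℕ, (⇑g')^[i] (τ (algebraMap k K y)) = τ (algebraMap k K y) := by
        intro i
        induction i with
        | zero => rfl
        | succ i ih =>
          rw [Function.iterate_succ_apply', ih]
          exact hk (τ.comp (algebraMap k K)) y
      exact h4 j
    have h2 : x ∈ IntermediateField.adjoin F ((algebraMap k K).toRatAlgHom.fieldRange : Set K) := by
      rw [adjoin_im hFK]
      trivial
    exact h1 h2
  rw [← permE_pow]
  exact hT x

end Pool.Agent.K7.H76.LC
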