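import Mathlib
import Pool.Agent.Y349.LC.FAM
import Pool.Agent.K7.H76.LC.Link

/-!
# The final statements
-/

set_option autoImplicit false

namespace Pool.Agent.K7.H76.LC

open NumberField IsDedekindDomain Module Pool.Agent.H637R2.Leo
open Pool.Agent.W289.SL Pool.Agent.K7.H76.SL
open Pool.Agent.Y18.LC (Unram)

section

variable {p : ℕ} [hpf : Fact p.Prime]
variable {k Ω : Type} [Field k] [NumberField k] [Field Ω] [Algebra k Ω]

/-- `K L / K` satisfies the `Σ`-Leopoldt conjecture for all characters `χ` of `Gal(K L / K)`, where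
`Σ` is the set of the embeddings of `K` into `ℂ_p` which extend `φ : k → ℂ_p`. -/
def SigmaAll (φ : k →+* ℂ_[p]) (K L : IntermediateField k Ω) : Prop :=
  ∃ _ : NumberField ↥(K ⊔ L),
    letI : Algebra K ↥(K ⊔ L) :=
      (IntermediateField.inclusion (le_sup_left : K ≤ K ⊔ L)).toRingHom.toAlgebra
    ∀ χ : (↥(K ⊔ L) ≃ₐ[K] ↥(K ⊔ L)) →* ℂ_[p]ˣ,
      SigmaLeopoldt p K ↥(K ⊔ L) (upS K ({φ} : Set (k →+* ℂ_[p]))) χ

lemma LInjF.sigma {φ : k →+* ℂ_[p]} {K L : IntermediateField k Ω} (h : LInjF (K ⊔ L) φ) :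
    SigmaAll φ K L := by
  obtain ⟨hnf, h⟩ := h
  refine ⟨hnf, ?_⟩
  intro χ L' hL' x _ hx
  apply h L' hL' x
  intro τ hτ
  exact hx τ hτ

variable [IsTotallyComplex k] {F : Type} [Field F] [NumberField F] [IsTotallyReal F]
  {K : IntermediateField k Ω} [NumberField K] [Algebra F K]

lemma finrank_cm (h2k : finrank ℚ k = 2) (hFK : finrank F K = 2) : finrank k K = finrank ℚ F := by
  have h1 : finrank ℚ k * finrank k K = finrank ℚ K := Module.finrank_mul_finrank ℚ k K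
  have h3 : finrank ℚ F * finrank F K = finrank ℚ K := Module.finrank_mul_finrank ℚ F K
  rw [h2k, ← h3, hFK, mul_comm] at h1
  exact Nat.eq_of_mul_eq_mul_right two_pos h1

/-- counting -/
theorem final1 (hp2 : p ≠ 2) (h2k : finrank ℚ k = 2) {v v' : HeightOneSpectrum (𝓞 k)}
    (hne : v ≠ v') (hv : ((p : ℕ) : 𝓞 k) ∈ v.asIdeal) (hv' : ((p : ℕ) : 𝓞 k) ∈ v'.asIdeal)
    {φ : k →+* ℂ_[p]} (hφ : Induced v φ) (hFK : finrank F K = 2) (hpF : ¬ p ∣ finrank ℚ F)
    (hun : Unram F p) (hLeo : Leopoldt F p) :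
    ∃ W : ℕ, ∀ (m : ℕ) (F₀ : IntermediateField k Ω), EAk p k F₀ → finrank k F₀ = p ^ m →
      UnrF F₀ v → (∀ 𝔮 : HeightOneSpectrum (𝓞 k), UnrF F₀ 𝔮 ∨ NonSk K 𝔮) →
      p ^ (m - W) ≤ 1 + (p - 1) * Nat.card {L : IntermediateField k Ω // L ≤ F₀ ∧
        finrank k L = p ∧ SigmaAll φ K L} := by
  have hp : p.Prime := hpf.out
  have hpk : ¬ p ∣ finrank k K := by rwa [finrank_cm h2k hFK]
  have hUr : Ur (upS K ({φ} : Set (k →+* ℂ_[p]))) :=
    ur_of_unram (unram_cm h2k hne hv hv' hFK hun) _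
  have hT : TopF K φ := ⟨inferInstance, top_cm hp2 h2k hne hv hv' φ hFK hun hLeo⟩
  have hφS := placeStable_single h2k hne hv hv' φ
  have hbot : EAk p k (⊥ : IntermediateField k Ω) := by
    have e := (IntermediateField.botEquiv k Ω).symm
    have hk : EAk p k k := by
      refine ⟨inferInstance, fun g h => Subsingleton.elim _ _, fun g => Subsingleton.elim _ _⟩
    exact hk.congr e
  have hbu : UnrF (⊥ : IntermediateField k Ω) v := by
    have e := (IntermediateField.botEquiv k Ω)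
    haveI : NumberField (⊥ : IntermediateField k Ω) := nf_of' _ inferInstance
    refine ⟨inferInstance, Unr.of_hom (B := k) e.toAlgHom ⟨v, fun x => rfl⟩⟩
  obtain ⟨W, hW⟩ := stepO' hp2 h2k φ hφ K ⊥ hpk hUr 0
    (by rw [IntermediateField.finrank_bot, pow_zero]) hbot hbu (by rwa [sup_bot_eq])
  refine ⟨W, fun m F₀ h1 h2 h3 h4 => ?_⟩
  have hfd : FiniteDimensional k F₀ := by
    apply FiniteDimensional.of_finrank_pos
    rw [h2]
    exact pow_pos hp.pos _
  have h5 := hW m F₀ bot_le h1 (by rw [h2, zero_add]) h3 h4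
  refine h5.trans (Nat.add_le_add_left (Nat.mul_le_mul_left _ ?_) 1)
  have hfin : Finite {L : IntermediateField k Ω // L ≤ F₀ ∧ finrank k L = p ∧ SigmaAll φ K L} := by
    have h1 := finite_sub' F₀ hfd
    refine Finite.of_injective (fun L => (⟨L.1, L.2.1⟩ : {L : IntermediateField k Ω // L ≤ F₀})) ?_
    intro L L' h
    have h2 := congrArg (fun t : {L : IntermediateField k Ω // L ≤ F₀} => t.1) h
    exact Subtype.ext h2
  refine Nat.card_le_card_of_injective (fun L => ⟨L.1, L.2.2.1, ?_, ?_⟩) ?_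
  · exact L.2.2.2.1.trans (by rw [zero_add, pow_one])
  · exact (TopF.linj hφS L.2.2.2.2).sigma
  · intro L L' h
    exact Subtype.ext (congrArg (fun t : {L : IntermediateField k Ω // L ≤ F₀ ∧ finrank k L = p ∧
      SigmaAll φ K L} => t.1) h)

/-- towers -/
theorem final2 (hp2 : p ≠ 2) (h2k : finrank ℚ k = 2) {v v' : HeightOneSpectrum (𝓞 k)}
    (hne : v ≠ v') (hv : ((p : ℕ) : 𝓞 k) ∈ v.asIdeal) (hv' : ((p : ℕ) : 𝓞 k) ∈ v'.asIdeal)
    {φ : k →+* ℂ_[p]} (hφ : Induced v φ) (hFK : finrank F K = 2) (hpF : ¬ p ∣ finrank ℚ F)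
    (hun : Unram F p) (hLeo : Leopoldt F p) (A : IntermediateField k Ω) (hA : EAk p k A)
    (hAinf : ¬ FiniteDimensional k A)
    (hAun : ∀ L : IntermediateField k Ω, L ≤ A → FiniteDimensional k L → UnrF L v)
    (hAram : ∀ 𝔮 : HeightOneSpectrum (𝓞 k),
      (∀ L : IntermediateField k Ω, L ≤ A → FiniteDimensional k L → UnrF L 𝔮) ∨ NonSk K 𝔮) :
    ∃ M : IntermediateField k Ω, M ≤ A ∧ ¬ FiniteDimensional k M ∧
      ∀ L : IntermediateField k Ω, L ≤ M → FiniteDimensional k L → SigmaAll φ K L := by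
  have hpk : ¬ p ∣ finrank k K := by rwa [finrank_cm h2k hFK]
  have hUr : Ur (upS K ({φ} : Set (k →+* ℂ_[p]))) :=
    ur_of_unram (unram_cm h2k hne hv hv' hFK hun) _
  have hT : TopF K φ := ⟨inferInstance, top_cm hp2 h2k hne hv hv' φ hFK hun hLeo⟩
  have hφS := placeStable_single h2k hne hv hv' φ
  obtain ⟨M, h1, h2, h3⟩ := tower' hp2 h2k φ hφ hφS K hpk hUr hT A hA hAinf hAun hAram
  haveI : FiniteDimensional k K := FiniteDimensional.right ℚ k K
  exact ⟨M, h1, h2, fun L hL hfd => (h3 (K ⊔ L) (sup_le_sup_left hL K) inferInstance).sigma⟩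

end

end Pool.Agent.K7.H76.LC
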