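import Mathlib
import Pool.Agent.K7.H76.LC.Cyc

/-!
# No cyclic extension of `ℚ` in the extension of `k`
-/

set_option autoImplicit false

namespace Pool.Agent.K7.H76.LC

open NumberField IsDedekindDomain Module
open Pool.Agent.K7.H76.SL Pool.Agent.Y447.LC

variable {p : ℕ} [hpf : Fact p.Prime]

/-- the ramification index divides the degree -/
lemma idx_dvd {E : Type} [Field E] [NumberField E] [IsGalois ℚ E] (R : Ideal (𝓞 E)) [R.IsPrime] :
    R.ramificationIdx ℤ ∣ finrank ℚ E := by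
  rw [← card_in' (E := E) R, ← IsGalois.card_aut_eq_finrank]
  exact Subgroup.card_subgroup_dvd_card _

lemma under_eq {E : Type} [Field E] [NumberField E] {q : ℕ} (hq : q.Prime) (R : Ideal (𝓞 E))
    [R.IsPrime] (hR : (q : 𝓞 E) ∈ R) : R.under ℤ = Ideal.span {(q : ℤ)} := by
  have h1 : Ideal.span {(q : ℤ)} ≤ R.under ℤ := by
    rw [Ideal.span_singleton_le_iff_mem, Ideal.under_def, Ideal.mem_comap]
    simpa using hR
  have h2 : (Ideal.span {(q : ℤ)}).IsMaximal :=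
    PrincipalIdealRing.isMaximal_of_irreducible (Nat.prime_iff_prime_int.1 hq).irreducible
  exact (h2.eq_of_le (Ideal.IsPrime.ne_top inferInstance) h1).symm

/-- cyclic fields of degree `p` are totally ramified at some prime number -/
lemma exists_ram {E : Type} [Field E] [NumberField E] [IsGalois ℚ E] (hd : finrank ℚ E = p) :
    ∃ r : ℕ, r.Prime ∧ (∃ R : HeightOneSpectrum (𝓞 E), (r : 𝓞 E) ∈ R.asIdeal) ∧
      ∀ R : HeightOneSpectrum (𝓞 E), (r : 𝓞 E) ∈ R.asIdeal → R.asIdeal.ramificationIdx ℤ = p := by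
  have hp : p.Prime := hpf.out
  have h1 : 2 < |discr E| := abs_discr_gt_two (by rw [hd]; exact hp.one_lt)
  have h2 : (discr E).natAbs ≠ 1 := by
    intro h
    rw [Int.abs_eq_natAbs, h] at h1
    norm_num at h1
  obtain ⟨r, hr, hrd⟩ := Nat.exists_prime_and_dvd h2
  have h3 : (r : ℤ) ∣ discr E := Int.natCast_dvd.2 hrd
  have hrI : Prime (r : ℤ) := Nat.prime_iff_prime_int.1 hr
  have h4 := mt (not_dvd_discr_iff_forall_mem E (𝓞 E) hrI).2 (not_not.2 h3)
  push Not at h4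
  obtain ⟨R, hR, hrR, hnu⟩ := h4
  have hrR' : (r : 𝓞 E) ∈ R := by exact_mod_cast hrR
  have hR0 : R ≠ ⊥ := by
    rintro rfl
    rw [Ideal.mem_bot] at hrR'
    exact hr.ne_zero (by exact_mod_cast hrR')
  have hidx : R.ramificationIdx ℤ ≠ 1 := fun h => hnu (Ideal.ramificationIdx_eq_one_iff.1 h)
  have hRp : R.ramificationIdx ℤ = p := by
    have h5 := idx_dvd R
    rw [hd] at h5
    exact ((Nat.dvd_prime hp).1 h5).resolve_left hidx
  refine ⟨r, hr, ⟨⟨R, hR, hR0⟩, hrR'⟩, fun R' hR' => ?_⟩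
  haveI := R'.isPrime
  haveI := galGroup' (E := E)
  have e1 := Ideal.ramificationIdxIn_eq_ramificationIdx (R.under ℤ) R (E ≃ₐ[ℚ] E)
  have e2 := Ideal.ramificationIdxIn_eq_ramificationIdx (R'.asIdeal.under ℤ) R'.asIdeal
    (E ≃ₐ[ℚ] E)
  rw [under_eq hr R hrR'] at e1
  rw [under_eq hr R'.asIdeal hR'] at e2
  rw [← e2, e1, hRp]

variable {k Ω : Type} [Field k] [NumberField k] [Field Ω] [Algebra k Ω]
  [Algebra.IsAlgebraic k Ω]

theorem no_cyc (h2 : finrank ℚ k = 2) (hp2 : p ≠ 2) {kz : Type} [Field kz] [NumberField kz]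
    [Algebra k kz] {Q : Set ℕ} {P : ℕ → HeightOneSpectrum (𝓞 kz)} (hQ : ∀ q ∈ Q, q.Prime)
    (hPq : ∀ q ∈ Q, (q : 𝓞 kz) ∈ (P q).asIdeal)
    (hc : ∀ q ∈ Q, ∀ 𝔮 : HeightOneSpectrum (𝓞 k), Above 𝔮 (P q) →
      ∀ c : k ≃+* k, (∀ x : 𝓞 k, RingOfIntegers.mapRingHom (c : k →+* k) x ∈ 𝔮.asIdeal ↔
          x ∈ 𝔮.asIdeal) → c = RingEquiv.refl k)
    {M : IntermediateField k Ω} (hM : ∀ 𝔮 : HeightOneSpectrum (𝓞 k), (∀ q ∈ Q, ¬ Above 𝔮 (P q)) →
      ∀ L : IntermediateField k Ω, L ≤ M → FiniteDimensional k L → UnrF L 𝔮)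
    (E : Type) [Field E] [NumberField E] [IsGalois ℚ E] (hd : finrank ℚ E = p) (f : E →+* Ω) :
    ∃ x : E, f x ∉ M := by
  by_contra hf
  push Not at hf
  have hp : p.Prime := hpf.out
  obtain ⟨r, hr, ⟨R, hrR⟩, hidx⟩ := exists_ram (p := p) hd
  -- the composite with `k`
  obtain ⟨θ, hθ⟩ := Field.exists_primitive_element ℚ E
  set L : IntermediateField k Ω := IntermediateField.adjoin k {f θ} with hL
  have hLM : L ≤ M := by
    rw [hL, IntermediateField.adjoin_simple_le_iff]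
    exact hf θ
  have hfd : FiniteDimensional k L :=
    IntermediateField.adjoin.finiteDimensional (Algebra.IsAlgebraic.isAlgebraic (f θ)).isIntegral
  have hnfL : NumberField L := nf_of' L hfd
  have hfL : ∀ x : E, f x ∈ L := by
    intro x
    have h1 : IntermediateField.adjoin ℚ {θ} ≤ (L.toSubfield.comap f).toIntermediateField
        (fun q => by
          show f (algebraMap ℚ E q) ∈ L
          rw [eq_ratCast, map_ratCast]
          exact SubfieldClass.ratCast_mem _ q) := by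
      rw [IntermediateField.adjoin_simple_le_iff]
      exact IntermediateField.mem_adjoin_simple_self k (f θ)
    have h2 : x ∈ IntermediateField.adjoin ℚ {θ} := by rw [hθ]; trivial
    exact h1 h2
  letI alg : Algebra E L := (f.codRestrict L.toSubfield hfL).toAlgebra
  haveI hkG : IsGalois ℚ k := by
    haveI : Algebra.IsQuadraticExtension ℚ k := ⟨h2⟩
    infer_instance
  -- all primes above `r` ramify
  have hnot : ∀ 𝔯 : HeightOneSpectrum (𝓞 k), (r : 𝓞 k) ∈ 𝔯.asIdeal → ¬ UnrF L 𝔯 := by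
    rintro 𝔯 hr𝔯 ⟨hn0, W, hW⟩
    have hA : Above 𝔯 W := above_of_val hW
    obtain ⟨R', hR'⟩ := exists_below' (k := E) W
    have hrW : (r : 𝓞 L) ∈ W.asIdeal := by
      have h3 := (hA (r : 𝓞 k)).2 hr𝔯
      rwa [map_natCast] at h3
    have hrR' : (r : 𝓞 E) ∈ R'.asIdeal := by
      rw [← hR', map_natCast]
      exact hrW
    haveI := liesOver_of_above hA
    haveI := liesOver_of_above hR'
    have e1 := Ideal.ramificationIdx_tower (R := ℤ) 𝔯.asIdeal W.asIdeal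
    have e2 := Ideal.ramificationIdx_tower (R := ℤ) R'.asIdeal W.asIdeal
    rw [idx_one_of_val hW, mul_one] at e1
    rw [hidx R' hrR', e1] at e2
    have e3 := idx_dvd 𝔯.asIdeal
    rw [h2, e2] at e3
    have e4 : p ∣ 2 := (Dvd.intro _ rfl).trans e3
    exact hp2 ((Nat.prime_dvd_prime_iff_eq hp Nat.prime_two).1 e4)
  -- the primes above `r` are in the list
  have hex : ∀ 𝔯 : HeightOneSpectrum (𝓞 k), (r : 𝓞 k) ∈ 𝔯.asIdeal → r ∈ Q ∧ Above 𝔯 (P r) := by
    intro 𝔯 hr𝔯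
    by_contra hcon
    apply hnot 𝔯 hr𝔯
    apply hM 𝔯 _ L hLM hfd
    intro q hq hA
    have h3 : (r : 𝓞 kz) ∈ (P q).asIdeal := by
      have h4 := (hA (r : 𝓞 k)).2 hr𝔯
      rwa [map_natCast] at h4
    have h4 := prime_unique hr (hQ q hq) h3 (hPq q hq)
    subst h4
    exact hcon ⟨hq, hA⟩
  obtain ⟨W, hW⟩ := exists_above (K := L) R
  obtain ⟨𝔯, h𝔯⟩ := exists_below' (k := k) W
  have hr𝔯 : (r : 𝓞 k) ∈ 𝔯.asIdeal := by
    rw [← h𝔯, map_natCast]
    have h3 := (hW (r : 𝓞 E)).2 hrR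
    rwa [map_natCast] at h3
  -- the conjugate prime
  obtain ⟨c, hc1⟩ : ∃ c : k ≃ₐ[ℚ] k, c ≠ 1 := by
    have h3 : 1 < Nat.card (k ≃ₐ[ℚ] k) := by
      rw [IsGalois.card_aut_eq_finrank, h2]
      norm_num
    haveI : Nontrivial (k ≃ₐ[ℚ] k) := by
      rw [← Finite.one_lt_card_iff_nontrivial]
      exact h3
    exact exists_ne 1
  let s : 𝓞 k →+* 𝓞 k := RingOfIntegers.mapRingHom ((c.toRingEquiv : k ≃+* k) : k →+* k)
  have hs0 : (𝔯.asIdeal.comap s) ≠ ⊥ := by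
    intro h
    have h3 : (r : 𝓞 k) ∈ 𝔯.asIdeal.comap s := by
      rw [Ideal.mem_comap, map_natCast]
      exact hr𝔯
    rw [h, Ideal.mem_bot] at h3
    exact hr.ne_zero (by exact_mod_cast h3)
  let 𝔯' : HeightOneSpectrum (𝓞 k) := ⟨𝔯.asIdeal.comap s, Ideal.comap_isPrime _ _, hs0⟩
  have hr𝔯' : (r : 𝓞 k) ∈ 𝔯'.asIdeal := by
    show (r : 𝓞 k) ∈ 𝔯.asIdeal.comap s
    rw [Ideal.mem_comap, map_natCast]
    exact hr𝔯
  obtain ⟨hrQ, hA⟩ := hex 𝔯 hr𝔯
  obtain ⟨-, hA'⟩ := hex 𝔯' hr𝔯'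
  have h3 := hc r hrQ 𝔯 hA c.toRingEquiv (fun x => by
    rw [← hA x, hA' x]
    exact Iff.rfl)
  apply hc1
  apply AlgEquiv.ext
  intro x
  exact congrArg (fun t : k ≃+* k => t x) h3

end Pool.Agent.K7.H76.LC
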