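import Mathlib
import Pool.Agent.K7.H76.LC.NoCyc
import Pool.Agent.K7.H76.LC.Fin

/-!
# The final statements: existence
-/

set_option autoImplicit false

namespace Pool.Agent.K7.H76.LC

open NumberField IsDedekindDomain Module Pool.Agent.H637R2.Leo
open Pool.Agent.W289.SL Pool.Agent.K7.H76.SL
open Pool.Agent.Y18.LC (Unram)

variable {p : ℕ} [hpf : Fact p.Prime]

/-- `M` contains no Galois extension of `ℚ` of degree `p` -/
def NoCyclic (p : ℕ) {k Ω : Type} [Field k] [Field Ω] [Algebra k Ω]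
    (M : IntermediateField k Ω) : Prop :=
  ∀ (E : Type) [Field E] [NumberField E] [IsGalois ℚ E], finrank ℚ E = p → ∀ f : E →+* Ω,
    ∃ x : E, f x ∉ M

/-- some automorphism of the algebraic closure of `ℚ` permutes the embeddings of `F` in one cycle -/
def Cyc (F : Type) [Field F] : Prop :=
  ∃ g : AlgebraicClosure ℚ ≃+* AlgebraicClosure ℚ,
    ∀ τ τ' : F →+* AlgebraicClosure ℚ, ∃ j : ℕ, ∀ x : F, (⇑g)^[j] (τ x) = τ' x

variable {k Ω : Type} [Field k] [NumberField k] [IsTotallyComplex k] [Field Ω] [Algebra k Ω]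
  [IsAlgClosed Ω] [Algebra.IsAlgebraic k Ω]

/-- the infinite extension ramified only at primes which are nonsplit in `K` -/
theorem exists_A {F : Type} [Field F] [NumberField F] [IsTotallyReal F]
    {K : IntermediateField k Ω} [hnfK : NumberField K] [Algebra F K] (hp2 : p ≠ 2)
    (h2k : finrank ℚ k = 2)
    {v v' : HeightOneSpectrum (𝓞 k)} (hne : v ≠ v') (hv : ((p : ℕ) : 𝓞 k) ∈ v.asIdeal)
    (hv' : ((p : ℕ) : 𝓞 k) ∈ v'.asIdeal) (hFK : finrank F K = 2)
    (hun : Unram F p) (hodd : Odd (finrank ℚ F)) (hc : Cyc F) :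
    ∃ A : IntermediateField k Ω, EAk p k A ∧ ¬ FiniteDimensional k A ∧ NoCyclic p A ∧
      (∀ L : IntermediateField k Ω, L ≤ A → FiniteDimensional k L → UnrF L v ∧ UnrF L v') ∧
      ∀ 𝔮 : HeightOneSpectrum (𝓞 k),
        (∀ L : IntermediateField k Ω, L ≤ A → FiniteDimensional k L → UnrF L 𝔮) ∨ NonSk K 𝔮 := by
  have hp : p.Prime := hpf.out
  haveI : NeZero p := ⟨hp.ne_zero⟩
  haveI hch : CharZero Ω := charZero_of_injective_algebraMap (algebraMap k Ω).injective
  obtain ⟨g, hg⟩ := hc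
  obtain ⟨g', hk, hg', hζ⟩ := exists_aut h2k hFK hodd hp
    (unram_cm h2k hne hv hv' hFK hun) g hg
  -- the root of unity
  obtain ⟨ζ, hζp⟩ : ∃ ζ : Ω, IsPrimitiveRoot ζ p := by
    have hp0 : NeZero ((p : ℕ) : Ω) := ⟨Nat.cast_ne_zero.2 hp.ne_zero⟩
    obtain ⟨ζ, hζ1⟩ : ∃ ζ : Ω, (Polynomial.cyclotomic p Ω).IsRoot ζ := by
      refine IsAlgClosed.exists_root _ ?_
      rw [Polynomial.degree_cyclotomic, Nat.totient_prime hp]
      have := hp.two_le
      exact_mod_cast (by omega : p - 1 ≠ 0)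
    exact ⟨ζ, Polynomial.isRoot_cyclotomic_iff.1 hζ1⟩
  obtain ⟨kz, hkz⟩ : ∃ kz : IntermediateField k Ω, kz = IntermediateField.adjoin k {ζ} :=
    ⟨_, rfl⟩
  have hζk : ζ ∈ kz := by rw [hkz]; exact IntermediateField.mem_adjoin_simple_self k ζ
  have hfdz : FiniteDimensional k kz := by
    rw [hkz]
    exact IntermediateField.adjoin.finiteDimensional (Algebra.IsAlgebraic.isAlgebraic ζ).isIntegral
  haveI hnfz : NumberField kz := nf_of' kz hfdz
  let z : kz := ⟨ζ, hζk⟩
  have hz : IsPrimitiveRoot z p := by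
    rw [← IsPrimitiveRoot.map_iff_of_injective (f := (algebraMap kz Ω)) (algebraMap kz Ω).injective]
    exact hζp
  have hgen : IntermediateField.adjoin k {z} = ⊤ := by
    apply IntermediateField.lift_injective kz
    rw [IntermediateField.lift_top, IntermediateField.lift_adjoin_simple]
    exact hkz.symm
  obtain ⟨Q, P, hQinf, hQ⟩ := chb_rel (K := K) hp g' hk hg' hζ hz hgen
  obtain ⟨A, hA1, hA2, hA3⟩ := exists_infinite hζp hkz hQinf (fun q hq => (hQ q hq).1) P
    (fun q hq => (hQ q hq).2.2.1) (fun q hq => (hQ q hq).2.2.2.1)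
  have hpQ : ∀ w : HeightOneSpectrum (𝓞 k), ((p : ℕ) : 𝓞 k) ∈ w.asIdeal →
      ∀ q ∈ Q, ¬ Above w (P q) := by
    intro w hw q hq hA
    have h3 : ((p : ℕ) : 𝓞 kz) ∈ (P q).asIdeal := by
      have h4 := (hA ((p : ℕ) : 𝓞 k)).2 hw
      rwa [map_natCast] at h4
    exact (hQ q hq).2.1 (prime_unique (hQ q hq).1 hp (hQ q hq).2.2.1 h3)
  refine ⟨A, hA1, hA2, ?_, fun L hL hfd => ⟨hA3 v (hpQ v hv) L hL hfd,
    hA3 v' (hpQ v' hv') L hL hfd⟩, ?_⟩
  · intro E _ _ _ hd f
    exact no_cyc h2k hp2 (fun q hq => (hQ q hq).1) (fun q hq => (hQ q hq).2.2.1)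
      (fun q hq 𝔮 h𝔮 => ((hQ q hq).2.2.2.2 𝔮 h𝔮).1) hA3 E hd f
  · intro 𝔮
    by_cases h : ∃ q ∈ Q, Above 𝔮 (P q)
    · right
      obtain ⟨q, hq, h𝔮⟩ := h
      exact ⟨hnfK, ((hQ q hq).2.2.2.2 𝔮 h𝔮).2⟩
    · left
      push Not at h
      exact hA3 𝔮 h

lemma NoCyclic.mono {M A : IntermediateField k Ω} (h : M ≤ A) (hA : NoCyclic p A) :
    NoCyclic p M := by
  intro E _ _ _ hd f
  obtain ⟨x, hx⟩ := hA E hd f
  exact ⟨x, fun h' => hx (h h')⟩

/-- existence -/
theorem final3 {F : Type} [Field F] [NumberField F] [IsTotallyReal F]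
    {K : IntermediateField k Ω} [hnfK : NumberField K] [Algebra F K] (hp2 : p ≠ 2)
    (h2k : finrank ℚ k = 2)
    {v v' : HeightOneSpectrum (𝓞 k)} (hne : v ≠ v') (hv : ((p : ℕ) : 𝓞 k) ∈ v.asIdeal)
    (hv' : ((p : ℕ) : 𝓞 k) ∈ v'.asIdeal) (hFK : finrank F K = 2) (hpF : ¬ p ∣ finrank ℚ F)
    (hun : Unram F p) (hLeo : Leopoldt F p) (hodd : Odd (finrank ℚ F)) (hc : Cyc F) :
    ∃ M : IntermediateField k Ω, EAk p k M ∧ ¬ FiniteDimensional k M ∧ NoCyclic p M ∧
      ∀ L : IntermediateField k Ω, L ≤ M → FiniteDimensional k L →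
        ∀ φ : k →+* ℂ_[p], SigmaAll φ K L := by
  obtain ⟨A, hA1, hA2, hA3, hA4, hA5⟩ := exists_A hp2 h2k hne hv hv' hFK hun hodd hc
  obtain ⟨φ₁, φ₂, hφ₁, hφ₂, hall⟩ := split_emb h2k hne hv hv'
  obtain ⟨M₁, h1, h3, h4⟩ := final2 hp2 h2k hne hv hv' hφ₁ hFK hpF hun hLeo A hA1 hA2
    (fun L hL hfd => (hA4 L hL hfd).1) hA5
  obtain ⟨M₂, h5, h6, h7⟩ := final2 hp2 h2k hne.symm hv' hv hφ₂ hFK hpF hun hLeo M₁
    (EAk_sub h1 hA1) h3 (fun L hL hfd => (hA4 L (hL.trans h1) hfd).2)
    (fun 𝔮 => by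
      rcases hA5 𝔮 with h | h
      · exact Or.inl fun L hL hfd => h L (hL.trans h1) hfd
      · exact Or.inr h)
  refine ⟨M₂, EAk_sub (h5.trans h1) hA1, h6, NoCyclic.mono (h5.trans h1) hA3, ?_⟩
  intro L hL hfd φ
  rcases hall φ with rfl | rfl
  · exact h4 L (hL.trans h5) hfd
  · exact h7 L hL hfd

/-- the composite of `k` and `F` -/
theorem exists_K (h2k : finrank ℚ k = 2) (F : Type) [Field F] [NumberField F] [IsTotallyReal F] :
    ∃ (K : IntermediateField k Ω) (_ : NumberField K) (_ : Algebra F K), finrank F K = 2 := by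
  haveI hch : CharZero Ω := charZero_of_injective_algebraMap (algebraMap k Ω).injective
  obtain ⟨f⟩ : Nonempty (F →ₐ[ℚ] Ω) := ⟨IsAlgClosed.lift⟩
  obtain ⟨θ, hθ⟩ := Field.exists_primitive_element ℚ F
  obtain ⟨K, hK⟩ : ∃ K : IntermediateField k Ω, K = IntermediateField.adjoin k {f θ} := ⟨_, rfl⟩
  have hfd : FiniteDimensional k K := by
    rw [hK]
    exact IntermediateField.adjoin.finiteDimensional (Algebra.IsAlgebraic.isAlgebraic _).isIntegral
  have hnf : NumberField K := nf_of' K hfd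
  have hfK : ∀ x : F, (f : F →+* Ω) x ∈ K := by
    intro x
    have h1 : IntermediateField.adjoin ℚ {θ} ≤ (K.toSubfield.comap (f : F →+* Ω)).toIntermediateField
        (fun q => by
          show f (algebraMap ℚ F q) ∈ K
          rw [eq_ratCast, map_ratCast]
          exact SubfieldClass.ratCast_mem _ q) := by
      rw [IntermediateField.adjoin_simple_le_iff]
      show f θ ∈ K
      rw [hK]
      exact IntermediateField.mem_adjoin_simple_self k (f θ)
    have h2 : x ∈ IntermediateField.adjoin ℚ {θ} := by rw [hθ]; trivial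
    exact h1 h2
  letI alg : Algebra F K := ((f : F →+* Ω).codRestrict K.toSubfield hfK).toAlgebra
  refine ⟨K, hnf, alg, ?_⟩
  -- `K` is generated by `k` over `F`
  obtain ⟨η, hη⟩ := Field.exists_primitive_element ℚ k
  have htop : IntermediateField.adjoin F {algebraMap k K η} = ⊤ := by
    rw [eq_top_iff]
    intro y _
    set T := IntermediateField.adjoin F {algebraMap k K η} with hT
    have hkT : ∀ x : k, algebraMap k K x ∈ T := by
      intro x
      have h1 : IntermediateField.adjoin ℚ {η} ≤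
          (T.toSubfield.comap (algebraMap k K)).toIntermediateField (fun q => by
            show algebraMap k K (algebraMap ℚ k q) ∈ T
            rw [eq_ratCast, map_ratCast]
            exact SubfieldClass.ratCast_mem _ q) := by
        rw [IntermediateField.adjoin_simple_le_iff]
        exact IntermediateField.mem_adjoin_simple_self F (algebraMap k K η)
      have h2 : x ∈ IntermediateField.adjoin ℚ {η} := by rw [hη]; trivial
      exact h1 h2
    have h1 : K ≤ ((T.toSubfield.map (algebraMap K Ω)).toIntermediateField (fun q =>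
        ⟨algebraMap k K q, hkT q, rfl⟩) : IntermediateField k Ω) := by
      conv_lhs => rw [hK]
      rw [IntermediateField.adjoin_simple_le_iff]
      exact ⟨algebraMap F K θ, T.algebraMap_mem θ, rfl⟩
    obtain ⟨x, hx, hxy⟩ := h1 y.2
    have h2 : x = y := Subtype.ext hxy
    rw [← h2]
    exact hx
  have hint : IsIntegral ℚ η := Algebra.IsIntegral.isIntegral η
  have hle : finrank F K ≤ 2 := by
    have h1 : finrank F ↥(IntermediateField.adjoin F {algebraMap k K η}) =
        (minpoly F (algebraMap k K η)).natDegree :=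
      IntermediateField.adjoin.finrank (hint.map (algebraMap k K).toRatAlgHom).tower_top
    rw [htop, IntermediateField.finrank_top'] at h1
    rw [h1]
    have h3 : (minpoly ℚ η).natDegree = 2 := by
      rw [← IntermediateField.adjoin.finrank hint, hη, IntermediateField.finrank_top', h2k]
    have h4 : minpoly F (algebraMap k K η) ∣ (minpoly ℚ η).map (algebraMap ℚ F) := by
      apply minpoly.dvd
      rw [Polynomial.aeval_map_algebraMap]
      have h5 := Polynomial.aeval_algHom_apply (algebraMap k K).toRatAlgHom η (minpoly ℚ η)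
      rw [minpoly.aeval, map_zero] at h5
      exact h5
    have h5 := Polynomial.natDegree_le_of_dvd h4 (by
      rw [Polynomial.map_ne_zero_iff (algebraMap ℚ F).injective]
      exact minpoly.ne_zero hint)
    rwa [Polynomial.natDegree_map, h3] at h5
  have hne1 : finrank F K ≠ 1 := by
    intro h1
    obtain ⟨ψ⟩ : Nonempty (K →+* ℂ) := inferInstance
    have h3 := IsTotallyReal.complexEmbedding_isReal (ψ.comp (algebraMap F K))
    apply IsTotallyComplex.complexEmbedding_not_isReal (ψ.comp (algebraMap k K))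
    rw [ComplexEmbedding.isReal_iff] at h3 ⊢
    ext y
    have h4 : algebraMap k K y ∈ (⊤ : IntermediateField F K) := trivial
    rw [← IntermediateField.bot_eq_top_of_finrank_adjoin_eq_one (F := F) (E := K) (fun x => by
      have h5 : finrank F ↥(IntermediateField.adjoin F {x}) ∣ finrank F K :=
        IntermediateField.finrank_dvd_of_le_right le_top |>.trans (by
          rw [IntermediateField.finrank_top'])
      rw [h1] at h5
      exact Nat.dvd_one.1 h5), IntermediateField.mem_bot] at h4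
    obtain ⟨z, hz⟩ := h4
    have h5 := congrArg (fun f : F →+* ℂ => f z) h3
    simp only [ComplexEmbedding.conjugate_coe_eq, RingHom.comp_apply] at h5 ⊢
    rw [← hz]
    exact h5
  have hpos : 0 < finrank F K := by
    haveI : FiniteDimensional F K := FiniteDimensional.right ℚ F K
    exact finrank_pos
  omega

end Pool.Agent.K7.H76.LC
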